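import Pool.Agent.MP217Upper.Consensus

set_option autoImplicit false

/-!
# Comparison of runs
-/

namespace Pool.Agent.MP217Upper

open Finset

attribute [local instance] Classical.propDecidable

variable {n : ℕ}

section compare

variable {D : Type} {G : Geo n} {Δ : Dat n D}

/-- Two schedules that differ only for processors that are beyond object `O`. -/
theorem compare {σ1 σ2 : ℕ → Option (Fin n)} {O : ℕ}
    (h1 : ∀ t p, σ2 t = some p → σ1 t = some p)
    (h2 : ∀ t p, σ1 t = some p → ((G.run Δ σ2 t).st p).o < O → σ2 t = some p) (t : ℕ) :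
    (∀ p, ((G.run Δ σ2 t).st p).o < O ∨ ((G.run Δ σ1 t).st p).o < O →
      (G.run Δ σ1 t).st p = (G.run Δ σ2 t).st p) ∧
    (∀ w x o, o < O → (G.run Δ σ1 t).mem w x o = (G.run Δ σ2 t).mem w x o) := by
  induction t with
  | zero => exact ⟨fun _ _ => rfl, fun _ _ _ _ => rfl⟩
  | succ t ih =>
    obtain ⟨ihs, ihm⟩ := ih
    have hmono1 : ∀ p, ((G.run Δ σ1 t).st p).o ≤ ((G.run Δ σ1 (t + 1)).st p).o := by
      intro p
      have := lex_succ (G := G) (Δ := Δ) (σ := σ1) t p
      unfold LexLe at this
      omega
    have hmono2 : ∀ p, ((G.run Δ σ2 t).st p).o ≤ ((G.run Δ σ2 (t + 1)).st p).o := by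
      intro p
      have := lex_succ (G := G) (Δ := Δ) (σ := σ2) t p
      unfold LexLe at this
      omega
    cases hs1 : σ1 t with
    | none =>
      have hs2 : σ2 t = none := by
        cases hs2 : σ2 t with
        | none => rfl
        | some q =>
          have := h1 t q hs2
          rw [hs1] at this
          exact absurd this (by simp)
      rw [run_succ_none G Δ σ1 hs1, run_succ_none G Δ σ2 hs2]
      exact ⟨ihs, ihm⟩
    | some p =>
      by_cases hp : ((G.run Δ σ2 t).st p).o < O
      · have hs2 := h2 t p hs1 hp
        have hst := ihs p (Or.inl hp)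
        rw [run_succ_some G Δ σ1 hs1, run_succ_some G Δ σ2 hs2]
        by_cases hw : ((G.run Δ σ2 t).st p).pos < ((G.run Δ σ2 t).st p).T.length
        · have hw1 : ((G.run Δ σ1 t).st p).pos < ((G.run Δ σ1 t).st p).T.length := by
            rw [hst]; exact hw
          constructor
          · intro q hq
            by_cases hqp : q = p
            · subst hqp
              rw [step_st_write G Δ q _ hw, step_st_write G Δ q _ hw1, hst]
            · rw [step_st_ne G Δ p _ hqp, step_st_ne G Δ p _ hqp] at hq ⊢
              exact ihs q hq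
          · intro w x o ho
            by_cases hwp : w = p
            · subst hwp
              rw [step_mem_write G Δ w _ hw, step_mem_write G Δ w _ hw1, hst, ihm w x o ho]
            · rw [step_mem_ne G Δ p _ hwp, step_mem_ne G Δ p _ hwp]
              exact ihm w x o ho
        · have hw1 : ¬ ((G.run Δ σ1 t).st p).pos < ((G.run Δ σ1 t).st p).T.length := by
            rw [hst]; exact hw
          constructor
          · intro q hq
            by_cases hqp : q = p
            · subst hqp
              rw [step_st_read G Δ q _ hw, step_st_read G Δ q _ hw1, hst, ihm _ _ _ hp]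
            · rw [step_st_ne G Δ p _ hqp, step_st_ne G Δ p _ hqp] at hq ⊢
              exact ihs q hq
          · intro w x o ho
            rw [step_mem_read G Δ p _ hw, step_mem_read G Δ p _ hw1]
            exact ihm w x o ho
      · have hp1 : ¬ ((G.run Δ σ1 t).st p).o < O := by
          intro h
          apply hp
          rw [← ihs p (Or.inr h)]
          exact h
        -- nothing changes for the others
        have hst2 : ∀ q, q ≠ p → (G.run Δ σ2 (t + 1)).st q = (G.run Δ σ2 t).st q := by
          intro q hq
          cases hs2 : σ2 t with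
          | none => rw [run_succ_none G Δ σ2 hs2]
          | some q' =>
            have := h1 t q' hs2
            rw [hs1] at this
            obtain rfl := Option.some.inj this
            rw [run_succ_some G Δ σ2 hs2, step_st_ne G Δ p _ hq]
        have hm1 : ∀ w x o, o < O → (G.run Δ σ1 (t + 1)).mem w x o = (G.run Δ σ1 t).mem w x o := by
          intro w x o ho
          rw [run_succ_some G Δ σ1 hs1]
          by_cases hwp : w = p
          · subst hwp
            by_cases hw : ((G.run Δ σ1 t).st w).pos < ((G.run Δ σ1 t).st w).T.length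
            · rw [step_mem_write G Δ w _ hw, if_neg (by omega)]
            · rw [step_mem_read G Δ w _ hw]
          · rw [step_mem_ne G Δ p _ hwp]
        have hm2 : ∀ w x o, o < O → (G.run Δ σ2 (t + 1)).mem w x o = (G.run Δ σ2 t).mem w x o := by
          intro w x o ho
          cases hs2 : σ2 t with
          | none => rw [run_succ_none G Δ σ2 hs2]
          | some q' =>
            have := h1 t q' hs2
            rw [hs1] at this
            obtain rfl := Option.some.inj this
            rw [run_succ_some G Δ σ2 hs2]
            by_cases hwp : w = p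
            · subst hwp
              by_cases hw : ((G.run Δ σ2 t).st w).pos < ((G.run Δ σ2 t).st w).T.length
              · rw [step_mem_write G Δ w _ hw, if_neg (by omega)]
              · rw [step_mem_read G Δ w _ hw]
            · rw [step_mem_ne G Δ p _ hwp]
        constructor
        · intro q hq
          by_cases hqp : q = p
          · subst hqp
            exfalso
            have g1 := hmono1 q
            have g2 := hmono2 q
            omega
          · rw [hst2 q hqp] at hq ⊢
            rw [run_succ_some G Δ σ1 hs1, step_st_ne G Δ p _ hqp] at hq ⊢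
            exact ihs q hq
        · intro w x o ho
          rw [hm1 w x o ho, hm2 w x o ho]
          exact ihm w x o ho

end compare

section erase

variable {D D' : Type}

/-- Forget the data. -/
def er : Fact n D → Fact n Unit
  | Fact.done a o i T => Fact.done a o i T
  | Fact.lab a o i _ => Fact.lab a o i ()

noncomputable def erK (K : Finset (Fact n D)) : Finset (Fact n Unit) := K.image er

theorem mem_erK_done {K : Finset (Fact n D)} {a : Fin n} {o i : ℕ} {T : Finset (Fin n)} :
    Fact.done a o i T ∈ erK K ↔ Fact.done a o i T ∈ K := by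
  unfold erK
  rw [mem_image]
  constructor
  · rintro ⟨f, hf, he⟩
    cases f with
    | done a' o' i' T' =>
      simp only [er, Fact.done.injEq] at he
      obtain ⟨rfl, rfl, rfl, rfl⟩ := he
      exact hf
    | lab a' o' i' d' => simp [er] at he
  · intro h
    exact ⟨_, h, rfl⟩

theorem mem_erK_lab {K : Finset (Fact n D)} {a : Fin n} {o i : ℕ} {u : Unit} :
    Fact.lab a o i u ∈ erK K ↔ ∃ d, Fact.lab a o i d ∈ K := by
  unfold erK
  rw [mem_image]
  constructor
  · rintro ⟨f, hf, he⟩
    cases f with
    | done a' o' i' T' => simp [er] at he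
    | lab a' o' i' d' =>
      simp only [er, Fact.lab.injEq] at he
      obtain ⟨rfl, rfl, rfl, _⟩ := he
      exact ⟨d', hf⟩
  · rintro ⟨d, h⟩
    exact ⟨_, h, rfl⟩

theorem erK_union (K K' : Finset (Fact n D)) : erK (K ∪ K') = erK K ∪ erK K' := image_union _ _

theorem erK_insert (f : Fact n D) (K : Finset (Fact n D)) :
    erK (insert f K) = insert (er f) (erK K) := image_insert _ _ _

variable (G : Geo n)

theorem unc_er (ν o : ℕ) (K : Finset (Fact n D)) : G.unc ν o (erK K) = G.unc ν o K := by
  unfold Geo.unc
  simp only [mem_erK_done]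

theorem team_er (l o : ℕ) (K : Finset (Fact n D)) : G.team l o (erK K) = G.team l o K := by
  unfold Geo.team
  simp only [mem_erK_done]

theorem cert_er (o l : ℕ) (K : Finset (Fact n D)) : G.cert o l (erK K) ↔ G.cert o l K := by
  unfold Geo.cert
  rw [team_er]
  simp only [unc_er]

theorem targets_er (p : Fin n) (o l : ℕ) (K : Finset (Fact n D)) :
    G.targets p o l (erK K) = G.targets p o l K := by
  unfold Geo.targets
  simp only [unc_er]

/-- Two local states with the same structure. -/
structure Same (s : LSt n D) (s' : LSt n D') : Prop where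
  o : s.o = s'.o
  i : s.i = s'.i
  T : s.T = s'.T
  pos : s.pos = s'.pos
  K : erK s.K = erK s'.K
  acc : erK s.acc = erK s'.acc

theorem same_beg (p : Fin n) (o i : ℕ) (d : D) (d' : D') {K : Finset (Fact n D)}
    {K' : Finset (Fact n D')} (h : erK K = erK K') :
    Same (G.beg p o i d K) (G.beg p o i d' K') := by
  constructor
  · rfl
  · rfl
  · simp only [Geo.beg]
    rw [← targets_er G p o _ K, ← targets_er G p o _ K', h]
  · rfl
  · simp only [Geo.beg, erK_insert, h, er]
  · simp only [Geo.beg, erK, image_empty]

variable (Δ : Dat n D) (Δ' : Dat n D') (σ : ℕ → Option (Fin n))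

theorem same_fin (p : Fin n) {s : LSt n D} {s' : LSt n D'} (hs : Same s s')
    {X : Finset (Fact n D)} {X' : Finset (Fact n D')} (h : erK X = erK X') :
    Same (G.fin Δ p s X) (G.fin Δ' p s' X') := by
  have hc : G.cert s.o (G.lvl s.i) X ↔ G.cert s'.o (G.lvl s'.i) X' := by
    rw [← cert_er, h, hs.o, hs.i, cert_er]
  unfold Geo.fin
  by_cases h1 : G.cert s.o (G.lvl s.i) X
  · rw [if_pos h1, if_pos (hc.mp h1), hs.o]
    exact same_beg G p _ _ _ _ h
  · rw [if_neg h1, if_neg (fun h2 => h1 (hc.mpr h2)), hs.o, hs.i]
    exact same_beg G p _ _ _ _ h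

theorem same_partner (p : Fin n) {s : LSt n D} {s' : LSt n D'} (hs : Same s s') :
    partner p s = partner p s' := by
  unfold partner
  rw [hs.pos, hs.T]

/-- The structure of a run does not depend on the data. -/
theorem same_run (t : ℕ) : (∀ p, Same ((G.run Δ σ t).st p) ((G.run Δ' σ t).st p)) ∧
    (∀ w x o, erK ((G.run Δ σ t).mem w x o) = erK ((G.run Δ' σ t).mem w x o)) := by
  induction t with
  | zero =>
    constructor
    · intro p
      exact same_beg G p _ _ _ _ (by simp [erK])
    · intro w x o
      change erK ∅ = erK ∅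
      simp [erK]
  | succ t ih =>
    obtain ⟨ihs, ihm⟩ := ih
    cases hs : σ t with
    | none =>
      rw [run_succ_none G Δ σ hs, run_succ_none G Δ' σ hs]
      exact ⟨ihs, ihm⟩
    | some p =>
      rw [run_succ_some G Δ σ hs, run_succ_some G Δ' σ hs]
      have hp := ihs p
      by_cases hw : ((G.run Δ σ t).st p).pos < ((G.run Δ σ t).st p).T.length
      · have hw' : ((G.run Δ' σ t).st p).pos < ((G.run Δ' σ t).st p).T.length := by
          rw [← hp.pos, ← hp.T]; exact hw
        constructor
        · intro q
          by_cases hqp : q = p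
          · subst hqp
            rw [step_st_write G Δ q _ hw, step_st_write G Δ' q _ hw']
            exact ⟨hp.o, hp.i, hp.T, by simp only [wr]; rw [hp.pos], hp.K, hp.acc⟩
          · rw [step_st_ne G Δ p _ hqp, step_st_ne G Δ' p _ hqp]
            exact ihs q
        · intro w x o
          by_cases hwp : w = p
          · subst hwp
            rw [step_mem_write G Δ w _ hw, step_mem_write G Δ' w _ hw', same_partner w hp, hp.o]
            split_ifs
            · exact hp.K
            · exact ihm w x o
          · rw [step_mem_ne G Δ p _ hwp, step_mem_ne G Δ' p _ hwp]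
            exact ihm w x o
      · have hw' : ¬ ((G.run Δ' σ t).st p).pos < ((G.run Δ' σ t).st p).T.length := by
          rw [← hp.pos, ← hp.T]; exact hw
        constructor
        · intro q
          by_cases hqp : q = p
          · subst hqp
            rw [step_st_read G Δ q _ hw, step_st_read G Δ' q _ hw', same_partner q hp, hp.o]
            have hmsg := ihm (partner q ((G.run Δ' σ t).st q)) q ((G.run Δ' σ t).st q).o
            unfold Geo.rd
            rw [hp.pos, hp.T]
            split_ifs
            · refine ⟨hp.o, hp.i, rfl, rfl, hp.K, ?_⟩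
              simp only [erK_union]
              rw [hp.acc, hmsg]
            · apply same_fin G Δ Δ' q hp
              unfold outK
              rw [erK_insert, erK_insert, erK_union, erK_union, erK_union, erK_union, hp.K,
                hp.acc, hmsg]
              simp only [er]
              rw [hp.o, hp.i, hp.T]
          · rw [step_st_ne G Δ p _ hqp, step_st_ne G Δ' p _ hqp]
            exact ihs q
        · intro w x o
          rw [step_mem_read G Δ p _ hw, step_mem_read G Δ' p _ hw']
          exact ihm w x o

theorem at_iff (t : ℕ) (p : Fin n) (o i : ℕ) : At G Δ σ t p o i ↔ At G Δ' σ t p o i := by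
  have h := (same_run G Δ Δ' σ t).1 p
  unfold At
  rw [h.o, h.i]

theorem reach_iff (p : Fin n) (o i : ℕ) : Reach G Δ σ p o i ↔ Reach G Δ' σ p o i := by
  unfold Reach
  simp only [at_iff G Δ Δ' σ]

/-- The reference data. -/
def ref (n : ℕ) : Dat n Unit := ⟨fun _ => (), fun _ _ _ _ _ _ => ()⟩

/-- The common core, independently of the data. -/
theorem core_all {k o : ℕ} (hk : n ≤ 2 ^ k) (hne : ∃ p, Reach G (ref n) σ p (o + k + 1) 0) :
    ∃ l ≤ G.L, ∃ A : Finset (Fin n), 2 ^ l ≤ A.card ∧ ∀ (Δ : Dat n Dt), ∀ b ∈ A, ∃ i,
      G.lvl i = l ∧ ∀ t p, At G Δ σ t p (o + k + 1) 0 →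
        ∃ d, Fact.lab b o i d ∈ ((G.run Δ σ t).st p).K := by
  obtain ⟨l, hl, A, hA, h⟩ := core (G := G) (Δ := ref n) (σ := σ) hk hne
  refine ⟨l, hl, A, hA, ?_⟩
  intro Δ b hb
  obtain ⟨i, hi, t0, ht0, h'⟩ := h b hb
  refine ⟨i, hi, ?_⟩
  intro t p hA'
  have hA0 : At G (ref n) σ t p (o + k + 1) 0 := (at_iff G Δ (ref n) σ t p _ _).mp hA'
  have h1 := h' p ⟨t, hA0⟩
  rw [stK_eq hA0] at h1
  have hlab := (inv_run G (ref n) σ t0).lab b
  rw [ht0.1, ht0.2] at hlab
  have h2 := h1 hlab
  have h3 : Fact.lab b o i () ∈ erK ((G.run (ref n) σ t).st p).K := mem_erK_lab.mpr ⟨_, h2⟩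
  rw [← ((same_run G Δ (ref n) σ t).1 p).K] at h3
  exact mem_erK_lab.mp h3

end erase

section main

variable {G : Geo n} {k : ℕ} {b : Fin n → Bool}

/-- A round succeeds if there is exactly one ticket, and it belongs to a member of the core. -/
theorem succ_of_tick {tick : Fin n → ℕ → ℕ → Bool} {σ : ℕ → Option (Fin n)} {r l : ℕ}
    {A : Finset (Fin n)}
    (hA : ∀ (Δ : Dat n Dt), ∀ b ∈ A, ∃ i,
      G.lvl i = l ∧ ∀ t p, At G Δ σ t p (r * (k + 3) + k + 1) 0 →
        ∃ d, Fact.lab b (r * (k + 3)) i d ∈ ((G.run Δ σ t).st p).K)
    {a : Fin n} (ha : a ∈ A) (ht : tick a r l = true)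
    (hother : ∀ p, p ≠ a → ∀ i, Reach G (ref n) σ p (r * (k + 3)) i →
      tick p r (G.lvl i) = false) :
    ∃ v, AllPref G k tick b σ (r * (k + 3) + k + 1) v := by
  have hm : r * (k + 3) % (k + 3) = 0 := Nat.mul_mod_left _ _
  have hd : r * (k + 3) / (k + 3) = r := Nat.mul_div_cancel _ (by omega)
  apply winner (a := a)
  · intro p hp t i hAt
    rw [flag_lottery hAt hm, hd]
    exact hother p hp i ⟨t, (at_iff G _ (ref n) σ t p _ _).mp hAt⟩
  · intro t p hAt
    obtain ⟨i, hi, h⟩ := hA (rule G k tick b) a ha
    obtain ⟨d, hl⟩ := h t p hAt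
    refine ⟨i, d, hl, ?_⟩
    obtain ⟨t', _, h2, h3, h4⟩ :=
      (genuine_run (G := G) (Δ := rule G k tick b) (σ := σ) t).1 p a _ i d hl
    rw [← h4, flag_lottery ⟨h2, h3⟩ hm, hd, hi]
    exact ht

variable {tick : Fin n → ℕ → ℕ → Bool}

variable (G k b tick) in
/-- The real run: processors that have decided stop. -/
noncomputable def rrun (σ : ℕ → Fin n) : ℕ → Cfg n Dt
  | 0 => G.init (rule G k tick b)
  | t + 1 => if ((rrun σ t).st (σ t)).d.dec = true then rrun σ t
      else G.step (rule G k tick b) (σ t) (rrun σ t)

variable (G k b tick) in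
/-- The effective schedule of the real run. -/
noncomputable def sch (σ : ℕ → Fin n) (t : ℕ) : Option (Fin n) :=
  if ((rrun G k b tick σ t).st (σ t)).d.dec = true then none else some (σ t)

theorem run_sch (σ : ℕ → Fin n) (t : ℕ) :
    G.run (rule G k tick b) (sch G k b tick σ) t = rrun G k b tick σ t := by
  induction t with
  | zero => rfl
  | succ t ih =>
    by_cases h : ((rrun G k b tick σ t).st (σ t)).d.dec = true
    · have hs : sch G k b tick σ t = none := by rw [sch, if_pos h]
      rw [run_succ_none _ _ _ hs, ih, rrun, if_pos h]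
    · have hs : sch G k b tick σ t = some (σ t) := by rw [sch, if_neg h]
      rw [run_succ_some _ _ _ hs, ih, rrun, if_neg h]

theorem sch_dec (σ : ℕ → Fin n) (t : ℕ) (p : Fin n) (h : sch G k b tick σ t = some p) :
    ((G.run (rule G k tick b) (sch G k b tick σ) t).st p).d.dec = false := by
  rw [run_sch]
  by_cases h' : ((rrun G k b tick σ t).st (σ t)).d.dec = true
  · rw [sch, if_pos h'] at h
    exact absurd h (by simp)
  · rw [sch, if_neg h'] at h
    obtain rfl := Option.some.inj h
    simpa using h'

/-- If round `r` succeeds in the full run then nobody takes a step beyond round `r` in the real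
run. -/
theorem bound_of_succ {σ : ℕ → Fin n} {r : ℕ}
    (hs : ∃ v, AllPref G k tick b (fun t => some (σ t)) (r * (k + 3) + k + 1) v) (t : ℕ)
    (p : Fin n) (hp : sch G k b tick σ t = some p) :
    ((G.run (rule G k tick b) (sch G k b tick σ) t).st p).o < (r + 1) * (k + 3) := by
  have hσ := sch_dec (G := G) (k := k) (b := b) (tick := tick) σ
  -- a helper: if everybody who enters `O` has decided then nobody is scheduled in `O` or beyond
  have key : ∀ O, (∀ t p, At G (rule G k tick b) (sch G k b tick σ) t p O 0 →
      ((G.run (rule G k tick b) (sch G k b tick σ) t).st p).d.dec = true) →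
      ((G.run (rule G k tick b) (sch G k b tick σ) t).st p).o < O := by
    intro O hO
    obtain ⟨h1, h2⟩ := stuck hσ hO t p
    rcases Nat.lt_or_ge ((G.run (rule G k tick b) (sch G k b tick σ) t).st p).o O with h | h
    · exact h
    · have heq : ((G.run (rule G k tick b) (sch G k b tick σ) t).st p).o = O := le_antisymm h1 h
      have h3 := hO t p ⟨heq, h2 heq⟩
      rw [hσ t p hp] at h3
      exact absurd h3 (by simp)
  by_cases hcase : ∃ r' < r, ∃ t p, At G (rule G k tick b) (sch G k b tick σ) t p
      ((r' + 1) * (k + 3)) 0 ∧ ∀ a d', Fact.lab a (r' * (k + 3) + k + 2) 0 d' ∈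
        ((G.run (rule G k tick b) (sch G k b tick σ) t).st p).K → d'.flag = true
  · obtain ⟨r', hr', t', p', hA, hX⟩ := hcase
    have hall := coherence hA hX
    have h1 := key ((r' + 1 + 1) * (k + 3)) fun t p hA => (decide_of_allPref (allPref_winner hall) hA).2
    refine lt_of_lt_of_le h1 (Nat.mul_le_mul_right _ (by omega))
  · have hdec : ∀ t p, ((G.run (rule G k tick b) (sch G k b tick σ) t).st p).d.dec = true →
        (r + 1) * (k + 3) ≤ ((G.run (rule G k tick b) (sch G k b tick σ) t).st p).o := by
      intro t p hd
      obtain ⟨r', h1, h2⟩ := dec_origin hσ hd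
      rw [h1.1]
      apply Nat.mul_le_mul_right
      by_contra hlt
      exact hcase ⟨r', by omega, t, p, h1, h2⟩
    have hcmp := compare (G := G) (Δ := rule G k tick b) (σ1 := fun t => some (σ t))
      (σ2 := sch G k b tick σ) (O := (r + 1) * (k + 3)) (by
        intro t p h
        by_cases h' : ((rrun G k b tick σ t).st (σ t)).d.dec = true
        · rw [sch, if_pos h'] at h
          exact absurd h (by simp)
        · rw [sch, if_neg h'] at h
          exact h) (by
        intro t p h1 h2
        obtain rfl := Option.some.inj h1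
        rw [sch, if_neg]
        intro h'
        rw [← run_sch] at h'
        have := hdec t (σ t) h'
        omega)
    obtain ⟨v, hv⟩ := hs
    have hall : AllPref G k tick b (sch G k b tick σ) (r * (k + 3) + k + 1) v := by
      intro t p hA
      have hlt : ((G.run (rule G k tick b) (sch G k b tick σ) t).st p).o < (r + 1) * (k + 3) := by
        rw [hA.1]
        have : (r + 1) * (k + 3) = r * (k + 3) + k + 3 := by ring
        omega
      have heq := (hcmp t).1 p (Or.inl hlt)
      rw [← heq]
      apply hv
      unfold At at hA ⊢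
      rw [heq]
      exact hA
    exact key _ fun t p hA => (decide_of_allPref hall hA).2

/-- In the real run a processor that is scheduled infinitely often decides, if some round
succeeds. -/
theorem decides_of_succ {J : ℕ} (hG : G.Good J) {σ : ℕ → Fin n} {r : ℕ}
    (hs : ∃ v, AllPref G k tick b (fun t => some (σ t)) (r * (k + 3) + k + 1) v) (p : Fin n)
    (hinf : ∀ t, ∃ t' ≥ t, σ t' = p) :
    ∃ t, ((rrun G k b tick σ t).st p).d.dec = true := by
  by_contra hcon
  push Not at hcon
  have hsch : ∀ t, σ t = p → sch G k b tick σ t = some p := by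
    intro t ht
    rw [sch, if_neg]
    · rw [ht]
    · rw [ht]; exact hcon t
  obtain ⟨t, ht⟩ := progress (Δ := rule G k tick b) (σ := sch G k b tick σ) hG p (by
    intro t
    obtain ⟨t', h1, h2⟩ := hinf t
    exact ⟨t', h1, hsch t' h2⟩) ((r + 1) * (k + 3))
  obtain ⟨t', h1, h2⟩ := hinf t
  have h3 := bound_of_succ hs t' p (hsch t' h2)
  have h4 := lex_mono (G := G) (Δ := rule G k tick b) (σ := sch G k b tick σ) h1 p
  unfold LexLe at h4
  omega

end main

end Pool.Agent.MP217Upper
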