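import Pool.Agent.MP217Upper.Work

set_option autoImplicit false

/-!
# The consensus rules
-/

namespace Pool.Agent.MP217Upper

open Finset

attribute [local instance] Classical.propDecidable

/-- Data of a processor: preference, flag, decision. -/
structure Dt : Type where
  pref : Bool
  flag : Bool
  dec : Bool

variable {n : ℕ}

/-- `true` if `P true`, else `false` if `P false`, else the default. -/
noncomputable def pick (P : Bool → Prop) (x : Bool) : Bool :=
  if P true then true else if P false then false else x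

theorem pick_eq {P : Bool → Prop} {x v : Bool} (h : ∀ w, P w → w = v) (hx : (∀ w, ¬ P w) → x = v) :
    pick P x = v := by
  unfold pick
  split_ifs with h1 h2
  · exact h true h1
  · exact h false h2
  · apply hx
    intro w
    cases w
    · exact h2
    · exact h1

/-- There is a candidate with preference `v`. -/
def cand (o : ℕ) (K : Finset (Fact n Dt)) (v : Bool) : Prop :=
  ∃ a i d, Fact.lab a o i d ∈ K ∧ d.flag = true ∧ d.pref = v

/-- There is a strong label with preference `v`. -/
def strong (o : ℕ) (K : Finset (Fact n Dt)) (v : Bool) : Prop :=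
  ∃ a d, Fact.lab a o 0 d ∈ K ∧ d.flag = true ∧ d.pref = v

/-- The rules. -/
noncomputable def rule (G : Geo n) (k : ℕ) (tick : Fin n → ℕ → ℕ → Bool) (b : Fin n → Bool) :
    Dat n Dt where
  d0 p := ⟨b p, tick p 0 (G.lvl 0), false⟩
  nxt p o i fin K d :=
    if fin = false then
      (if o % (k + 3) = 0 then ⟨d.pref, tick p (o / (k + 3)) (G.lvl (i + 1)), d.dec⟩ else d)
    else if o % (k + 3) = k then ⟨pick (cand (o - k) K) d.pref, d.flag, d.dec⟩
    else if o % (k + 3) = k + 1 then
      ⟨d.pref, decide (∀ a d', Fact.lab a o 0 d' ∈ K → d'.pref = d.pref), d.dec⟩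
    else if o % (k + 3) = k + 2 then
      ⟨pick (strong o K) d.pref, tick p (o / (k + 3) + 1) (G.lvl 0),
        d.dec || decide (∀ a d', Fact.lab a o 0 d' ∈ K → d'.flag = true)⟩
    else d

section rules

variable {G : Geo n} {k : ℕ} {tick : Fin n → ℕ → ℕ → Bool} {b : Fin n → Bool}
  {σ : ℕ → Option (Fin n)}

theorem nxt_false_zero {p : Fin n} {o i : ℕ} {K : Finset (Fact n Dt)} {d : Dt}
    (h : o % (k + 3) = 0) : (rule G k tick b).nxt p o i false K d =
      ⟨d.pref, tick p (o / (k + 3)) (G.lvl (i + 1)), d.dec⟩ := by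
  simp [rule, h]

theorem nxt_false_ne {p : Fin n} {o i : ℕ} {K : Finset (Fact n Dt)} {d : Dt}
    (h : o % (k + 3) ≠ 0) : (rule G k tick b).nxt p o i false K d = d := by
  simp [rule, h]

theorem nxt_lt {p : Fin n} {o i : ℕ} {K : Finset (Fact n Dt)} {d : Dt}
    (h : o % (k + 3) < k) : (rule G k tick b).nxt p o i true K d = d := by
  simp only [rule, Bool.true_eq_false, if_false]
  rw [if_neg (by omega), if_neg (by omega), if_neg (by omega)]

theorem nxt_k {p : Fin n} {o i : ℕ} {K : Finset (Fact n Dt)} {d : Dt}
    (h : o % (k + 3) = k) : (rule G k tick b).nxt p o i true K d =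
      ⟨pick (cand (o - k) K) d.pref, d.flag, d.dec⟩ := by
  simp only [rule, Bool.true_eq_false, if_false]
  rw [if_pos h]

theorem nxt_k1 {p : Fin n} {o i : ℕ} {K : Finset (Fact n Dt)} {d : Dt}
    (h : o % (k + 3) = k + 1) : (rule G k tick b).nxt p o i true K d =
      ⟨d.pref, decide (∀ a d', Fact.lab a o 0 d' ∈ K → d'.pref = d.pref), d.dec⟩ := by
  simp only [rule, Bool.true_eq_false, if_false]
  rw [if_neg (by omega), if_pos h]

theorem nxt_k2 {p : Fin n} {o i : ℕ} {K : Finset (Fact n Dt)} {d : Dt}
    (h : o % (k + 3) = k + 2) : (rule G k tick b).nxt p o i true K d =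
      ⟨pick (strong o K) d.pref, tick p (o / (k + 3) + 1) (G.lvl 0),
        d.dec || decide (∀ a d', Fact.lab a o 0 d' ∈ K → d'.flag = true)⟩ := by
  simp only [rule, Bool.true_eq_false, if_false]
  rw [if_neg (by omega), if_neg (by omega), if_pos h]

/-- The preference does not change within an object. -/
theorem pref_const {t : ℕ} {p : Fin n} {o i : ℕ} (h : At G (rule G k tick b) σ t p o i) :
    ∃ t0 ≤ t, At G (rule G k tick b) σ t0 p o 0 ∧
      ((G.run (rule G k tick b) σ t).st p).d.pref =
        ((G.run (rule G k tick b) σ t0).st p).d.pref ∧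
      (o % (k + 3) ≠ 0 → ((G.run (rule G k tick b) σ t).st p).d =
        ((G.run (rule G k tick b) σ t0).st p).d) ∧
      ((G.run (rule G k tick b) σ t).st p).d.dec =
        ((G.run (rule G k tick b) σ t0).st p).d.dec := by
  induction i generalizing t with
  | zero => exact ⟨t, le_rfl, h, rfl, fun _ => rfl, rfl⟩
  | succ i ih =>
    obtain ⟨e, he, T, X, h1, h2, h3, h4⟩ := prev_pass h
    obtain ⟨t0, ht0, h5, h6, h7, h8⟩ := ih h1.at
    refine ⟨t0, by omega, h5, ?_, ?_, ?_⟩
    · rw [h4, ← h6]
      by_cases ho : o % (k + 3) = 0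
      · rw [nxt_false_zero ho]
      · rw [nxt_false_ne ho]
    · intro ho
      rw [h4, ← h7 ho, nxt_false_ne ho]
    · rw [h4, ← h8]
      by_cases ho : o % (k + 3) = 0
      · rw [nxt_false_zero ho]
      · rw [nxt_false_ne ho]

/-- The flags in the lottery objects are the tickets. -/
theorem flag_lottery {t : ℕ} {p : Fin n} {o i : ℕ} (h : At G (rule G k tick b) σ t p o i)
    (ho : o % (k + 3) = 0) :
    ((G.run (rule G k tick b) σ t).st p).d.flag = tick p (o / (k + 3)) (G.lvl i) := by
  match i, h with
  | i + 1, h =>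
    obtain ⟨e, he, T, X, h1, h2, h3, h4⟩ := prev_pass h
    rw [h4, nxt_false_zero ho]
  | 0, h =>
    match o, h, ho with
    | 0, h, ho =>
      rcases origin (G := G) (Δ := rule G k tick b) (σ := σ) t p with h' | h' | h'
      · rw [h'.2.2.1]
        simp [rule]
      · have := h.2
        omega
      · have := h.1
        omega
    | o + 1, h, ho =>
      obtain ⟨e, he, i', T, X, h1, h2, h3, h4⟩ := prev_obj h
      have hmod : o % (k + 3) = k + 2 := by
        have h5 := Nat.div_add_mod o (k + 3)
        have h6 := Nat.div_add_mod (o + 1) (k + 3)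
        rw [ho] at h6
        have h7 := Nat.mod_lt o (show 0 < k + 3 by omega)
        -- `o + 1 = q (k+3)`
        by_contra hne
        have h8 : (o + 1) % (k + 3) = o % (k + 3) + 1 := by
          rw [Nat.add_mod, Nat.mod_eq_of_lt (show 1 < k + 3 by omega), Nat.mod_eq_of_lt (by omega)]
        omega
      have hdiv : (o + 1) / (k + 3) = o / (k + 3) + 1 := by
        have h5 := Nat.div_add_mod o (k + 3)
        rw [hmod] at h5
        have h10 : o + 1 = (k + 3) * (o / (k + 3) + 1) := by
          rw [mul_add, mul_one]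
          omega
        have h9 : (k + 3) * (o / (k + 3) + 1) / (k + 3) = o / (k + 3) + 1 :=
          Nat.mul_div_cancel_left _ (by omega)
        rw [← h10] at h9
        exact h9
      rw [h4, hdiv, nxt_k2 hmod]

variable (G k tick b σ) in
/-- Everybody who enters object `o` has preference `v`. -/
def AllPref (o : ℕ) (v : Bool) : Prop :=
  ∀ t p, At G (rule G k tick b) σ t p o 0 → ((G.run (rule G k tick b) σ t).st p).d.pref = v

theorem AllPref.of_at {o : ℕ} {v : Bool} (h : AllPref G k tick b σ o v) {t : ℕ} {p : Fin n}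
    {i : ℕ} (hA : At G (rule G k tick b) σ t p o i) :
    ((G.run (rule G k tick b) σ t).st p).d.pref = v := by
  obtain ⟨t0, _, h1, h2, _⟩ := pref_const hA
  rw [h2]
  exact h t0 p h1

theorem genuine_end {e : ℕ} {p : Fin n} {o i : ℕ} {T : Finset (Fin n)} {X : Finset (Fact n Dt)}
    (h : EndAt G (rule G k tick b) σ e p o i T X) {a : Fin n} {o' i' : ℕ} {d : Dt}
    (hl : Fact.lab a o' i' d ∈ X) : ∃ t', At G (rule G k tick b) σ t' a o' i' ∧
      ((G.run (rule G k tick b) σ t').st a).d = d := by
  have h1 := h.X_le hl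
  obtain ⟨t', _, h2, h3, h4⟩ :=
    (genuine_run (G := G) (Δ := rule G k tick b) (σ := σ) (e + 1)).1 p a o' i' d h1
  exact ⟨t', ⟨h2, h3⟩, h4⟩

theorem mod_round (r j : ℕ) (hj : j < k + 3) : (r * (k + 3) + j) % (k + 3) = j := by
  rw [add_comm, Nat.add_mul_mod_self_right, Nat.mod_eq_of_lt hj]

theorem div_round (r j : ℕ) (hj : j < k + 3) : (r * (k + 3) + j) / (k + 3) = r := by
  rw [mul_comm, Nat.mul_add_div (by omega), Nat.div_eq_of_lt hj, add_zero]

/-- Unanimity is preserved until the adopt-commit stage. -/
theorem allPref_gossip {r j : ℕ} {v : Bool} (h : AllPref G k tick b σ (r * (k + 3)) v)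
    (hj : j ≤ k) : AllPref G k tick b σ (r * (k + 3) + j) v := by
  induction j with
  | zero => exact h
  | succ j ih =>
    have ih := ih (by omega)
    intro t p hA
    obtain ⟨e, he, i', T, X, h1, h2, h3, h4⟩ :=
      prev_obj (o := r * (k + 3) + j) (by simpa [add_assoc] using hA)
    rw [h4, nxt_lt (by rw [mod_round r j (show j < k + 3 by omega)]; omega)]
    exact ih.of_at h1.at

theorem allPref_winner {r : ℕ} {v : Bool} (h : AllPref G k tick b σ (r * (k + 3)) v) :
    AllPref G k tick b σ (r * (k + 3) + k + 1) v := by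
  intro t p hA
  obtain ⟨e, he, i', T, X, h1, h2, h3, h4⟩ := prev_obj hA
  rw [h4, nxt_k (mod_round r k (show k < k + 3 by omega))]
  simp only
  apply pick_eq
  · rintro w ⟨a, i, d, hl, _, hd⟩
    have : r * (k + 3) + k - k = r * (k + 3) := by omega
    rw [this] at hl
    obtain ⟨t', ht', hd'⟩ := genuine_end h1 hl
    rw [← hd, ← hd']
    exact h.of_at ht'
  · intro _
    exact (allPref_gossip h le_rfl).of_at h1.at

theorem flag_strong {r : ℕ} {v : Bool} (h : AllPref G k tick b σ (r * (k + 3) + k + 1) v)
    {t : ℕ} {p : Fin n} (hA : At G (rule G k tick b) σ t p (r * (k + 3) + k + 2) 0) :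
    ((G.run (rule G k tick b) σ t).st p).d.pref = v ∧
      ((G.run (rule G k tick b) σ t).st p).d.flag = true := by
  obtain ⟨e, he, i', T, X, h1, h2, h3, h4⟩ := prev_obj (o := r * (k + 3) + k + 1) hA
  have hm : (r * (k + 3) + k + 1) % (k + 3) = k + 1 := by
    rw [add_assoc]; exact mod_round r (k + 1) (by omega)
  rw [h4, nxt_k1 hm]
  simp only [decide_eq_true_eq]
  have hp := h.of_at h1.at
  refine ⟨hp, ?_⟩
  intro a d' hl
  obtain ⟨t', ht', hd'⟩ := genuine_end h1 hl
  rw [hp, ← hd']
  exact h t' a ht'

theorem decide_of_allPref {r : ℕ} {v : Bool} (h : AllPref G k tick b σ (r * (k + 3) + k + 1) v)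
    {t : ℕ} {p : Fin n} (hA : At G (rule G k tick b) σ t p ((r + 1) * (k + 3)) 0) :
    ((G.run (rule G k tick b) σ t).st p).d.pref = v ∧
      ((G.run (rule G k tick b) σ t).st p).d.dec = true := by
  have e1 : (r + 1) * (k + 3) = r * (k + 3) + k + 2 + 1 := by ring
  rw [e1] at hA
  obtain ⟨e, he, i', T, X, h1, h2, h3, h4⟩ := prev_obj hA
  have hm : (r * (k + 3) + k + 2) % (k + 3) = k + 2 := by
    rw [add_assoc]; exact mod_round r (k + 2) (by omega)
  rw [h4, nxt_k2 hm]
  simp only [Bool.or_eq_true, decide_eq_true_eq]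
  constructor
  · apply pick_eq
    · rintro w ⟨a, d, hl, _, hd⟩
      obtain ⟨t', ht', hd'⟩ := genuine_end h1 hl
      rw [← hd, ← hd']
      exact (flag_strong h ht').1
    · intro _
      obtain ⟨t0, _, h5, h6, _⟩ := pref_const h1.at
      rw [h6]
      exact (flag_strong h h5).1
  · right
    intro a d' hl
    obtain ⟨t', ht', hd'⟩ := genuine_end h1 hl
    rw [← hd']
    exact (flag_strong h ht').2

/-- Unanimity is preserved from round to round. -/
theorem allPref_round {r : ℕ} {v : Bool} (h : AllPref G k tick b σ (r * (k + 3)) v) :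
    AllPref G k tick b σ ((r + 1) * (k + 3)) v :=
  fun _ _ hA => (decide_of_allPref (allPref_winner h) hA).1

theorem allPref_zero {v : Bool} (hb : ∀ p, b p = v) : AllPref G k tick b σ 0 v := by
  intro t p hA
  rcases origin (G := G) (Δ := rule G k tick b) (σ := σ) t p with h' | h' | h'
  · rw [h'.2.2.1]
    exact hb p
  · have := hA.2
    omega
  · have := hA.1
    omega

theorem allPref_all {v : Bool} (hb : ∀ p, b p = v) (r : ℕ) :
    AllPref G k tick b σ (r * (k + 3)) v := by
  induction r with
  | zero => simpa using allPref_zero hb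
  | succ r ih => exact allPref_round ih

/-! ### Coherence of adopt-commit -/

/-- Two strong labels have the same preference. -/
theorem strong_unique {r : ℕ} {t t' : ℕ} {p p' : Fin n}
    (hA : At G (rule G k tick b) σ t p (r * (k + 3) + k + 2) 0)
    (hA' : At G (rule G k tick b) σ t' p' (r * (k + 3) + k + 2) 0)
    (hf : ((G.run (rule G k tick b) σ t).st p).d.flag = true)
    (hf' : ((G.run (rule G k tick b) σ t').st p').d.flag = true) :
    ((G.run (rule G k tick b) σ t).st p).d.pref =
      ((G.run (rule G k tick b) σ t').st p').d.pref := by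
  obtain ⟨a, ⟨ta, hta⟩, ha1, ha2⟩ := pair_view (o := r * (k + 3) + k + 1) ⟨t, hA⟩ ⟨t', hA'⟩
  have hlab := (inv_run G (rule G k tick b) σ ta).lab a
  rw [hta.1, hta.2] at hlab
  rw [stK_eq hta] at ha1 ha2
  have hm : (r * (k + 3) + k + 1) % (k + 3) = k + 1 := by
    rw [add_assoc]; exact mod_round r (k + 1) (by omega)
  have key : ∀ {t : ℕ} {p : Fin n}, At G (rule G k tick b) σ t p (r * (k + 3) + k + 2) 0 →
      ((G.run (rule G k tick b) σ t).st p).d.flag = true →
      ((G.run (rule G k tick b) σ ta).st a).K ⊆ stK G (rule G k tick b) σ p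
        (r * (k + 3) + k + 1 + 1) 0 →
      ((G.run (rule G k tick b) σ ta).st a).d.pref =
        ((G.run (rule G k tick b) σ t).st p).d.pref := by
    intro t p hA hf hsub
    obtain ⟨e, he, i', T, X, h1, h2, h3, h4⟩ := prev_obj (o := r * (k + 3) + k + 1) hA
    have hl := hsub hlab
    rw [stK_eq hA, h3, mem_insert] at hl
    rcases hl with hl | hl
    · simp only [Fact.lab.injEq] at hl
      omega
    · rw [h4, nxt_k1 hm] at hf ⊢
      simp only [decide_eq_true_eq] at hf
      exact hf a _ hl
  rw [← key hA hf ha1, ← key hA' hf' ha2]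

/-- If one processor sees only strong labels at the end of a round, everybody leaves the round with
its preference. -/
theorem coherence {r : ℕ} {t : ℕ} {p : Fin n}
    (hA : At G (rule G k tick b) σ t p ((r + 1) * (k + 3)) 0)
    (hX : ∀ a d', Fact.lab a (r * (k + 3) + k + 2) 0 d' ∈
      ((G.run (rule G k tick b) σ t).st p).K → d'.flag = true) :
    AllPref G k tick b σ ((r + 1) * (k + 3)) ((G.run (rule G k tick b) σ t).st p).d.pref := by
  have e1 : (r + 1) * (k + 3) = r * (k + 3) + k + 2 + 1 := by ring
  have hm : (r * (k + 3) + k + 2) % (k + 3) = k + 2 := by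
    rw [add_assoc]; exact mod_round r (k + 2) (by omega)
  -- the common preference of the strong labels
  have hstrong : ∃ w, (∀ w' (e : ℕ) (q : Fin n) (i : ℕ) (T : Finset (Fin n))
      (X : Finset (Fact n Dt)), EndAt G (rule G k tick b) σ e q (r * (k + 3) + k + 2) i T X →
      strong (r * (k + 3) + k + 2) X w' → w' = w) ∧
      ∀ t' q, At G (rule G k tick b) σ t' q ((r + 1) * (k + 3)) 0 →
        ((G.run (rule G k tick b) σ t').st q).d.pref = w := by
    rw [e1] at hA
    obtain ⟨e, he, i', T, X, h1, h2, h3, h4⟩ := prev_obj hA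
    -- the label of `p` itself
    obtain ⟨t0, ht0, g1, g2, g3, g4⟩ := pref_const h1.at
    have hown := (inv_run G (rule G k tick b) σ t0).lab p
    rw [g1.1, g1.2] at hown
    have hown' : Fact.lab p (r * (k + 3) + k + 2) 0 ((G.run (rule G k tick b) σ t0).st p).d ∈ X :=
      h1.K_le (run_K_mono G _ σ ht0 p hown)
    have hownf := hX p _ (by rw [h3]; exact mem_insert_of_mem hown')
    have huniq : ∀ w' (e : ℕ) (q : Fin n) (i : ℕ) (T : Finset (Fin n))
      (X : Finset (Fact n Dt)), EndAt G (rule G k tick b) σ e q (r * (k + 3) + k + 2) i T X →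
      strong (r * (k + 3) + k + 2) X w' → w' = ((G.run (rule G k tick b) σ t0).st p).d.pref := by
      rintro w' e' q i T' X' hE ⟨a, d, hl, hf, hd⟩
      obtain ⟨t', ht', hd'⟩ := genuine_end hE hl
      rw [← hd, ← hd']
      exact strong_unique ht' g1 (by rw [hd']; exact hf) hownf
    refine ⟨((G.run (rule G k tick b) σ t0).st p).d.pref, huniq, ?_⟩
    intro t' q hq
    rw [e1] at hq
    obtain ⟨a, ⟨ta, hta⟩, ha1, ha2⟩ := pair_view (o := r * (k + 3) + k + 2) ⟨t, hA⟩ ⟨t', hq⟩
    have hlab := (inv_run G (rule G k tick b) σ ta).lab a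
    rw [hta.1, hta.2] at hlab
    rw [stK_eq hta] at ha1 ha2
    have hla := ha1 hlab
    rw [stK_eq hA] at hla
    have hfa := hX a _ hla
    have hpa := strong_unique hta g1 hfa hownf
    obtain ⟨e', he', i'', T', X', h1', h2', h3', h4'⟩ := prev_obj hq
    have hla' := ha2 hlab
    rw [stK_eq hq, h3', mem_insert] at hla'
    rcases hla' with hl | hl
    · simp only [Fact.lab.injEq] at hl
      omega
    · rw [h4', nxt_k2 hm]
      simp only
      apply pick_eq
      · intro w' hw'
        exact huniq w' _ _ _ _ _ h1' hw'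
      · intro hnone
        exact absurd ⟨a, _, hl, hfa, hpa⟩ (hnone _)
  obtain ⟨w, _, hw2⟩ := hstrong
  intro t' q hq
  rw [hw2 t' q hq, hw2 t p hA]

/-! ### Decisions -/

/-- In a run in which processors that have decided are not scheduled, decisions happen at the end
of a round, when only strong labels are seen. -/
theorem dec_origin (hσ : ∀ t p, σ t = some p → ((G.run (rule G k tick b) σ t).st p).d.dec = false)
    {t : ℕ} {p : Fin n} (hd : ((G.run (rule G k tick b) σ t).st p).d.dec = true) :
    ∃ r, At G (rule G k tick b) σ t p ((r + 1) * (k + 3)) 0 ∧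
      ∀ a d', Fact.lab a (r * (k + 3) + k + 2) 0 d' ∈
        ((G.run (rule G k tick b) σ t).st p).K → d'.flag = true := by
  rcases origin (G := G) (Δ := rule G k tick b) (σ := σ) t p with h | ⟨h0, e, he, T, X, h1, h2, h3, h4⟩
    | ⟨h0, h0', e, he, i', T, X, h1, h2, h3, h4⟩
  · rw [h.2.2.1] at hd
    simp [rule] at hd
  · rw [h4] at hd
    have hd' := hσ e p h1.sched
    exfalso
    by_cases hm : ((G.run (rule G k tick b) σ t).st p).o % (k + 3) = 0
    · rw [nxt_false_zero hm] at hd
      simp [hd'] at hd
    · rw [nxt_false_ne hm] at hd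
      simp [hd'] at hd
  · rw [h4] at hd
    have hd' := hσ e p h1.sched
    set o' := ((G.run (rule G k tick b) σ t).st p).o - 1 with ho'
    by_cases hm : o' % (k + 3) = k + 2
    · rw [nxt_k2 hm] at hd
      simp only [hd', Bool.false_or, decide_eq_true_eq] at hd
      refine ⟨o' / (k + 3), ?_, ?_⟩
      · constructor
        · have h5 := Nat.div_add_mod o' (k + 3)
          rw [hm] at h5
          have h6 : (o' / (k + 3) + 1) * (k + 3) = (k + 3) * (o' / (k + 3)) + (k + 3) := by ring
          omega
        · exact h0'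
      · have h5 := Nat.div_add_mod o' (k + 3)
        rw [hm] at h5
        have h6 : o' / (k + 3) * (k + 3) + k + 2 = o' := by
          have : o' / (k + 3) * (k + 3) = (k + 3) * (o' / (k + 3)) := by ring
          omega
        rw [h6]
        intro a d' hl
        rw [h3, mem_insert] at hl
        rcases hl with hl | hl
        · simp only [Fact.lab.injEq] at hl
          omega
        · exact hd a d' hl
    · exfalso
      have hlt := Nat.mod_lt o' (show 0 < k + 3 by omega)
      rcases Nat.lt_trichotomy (o' % (k + 3)) k with h5 | h5 | h5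
      · rw [nxt_lt h5] at hd
        simp [hd'] at hd
      · rw [nxt_k h5] at hd
        simp [hd'] at hd
      · rw [nxt_k1 (by omega)] at hd
        simp [hd'] at hd

/-- If nobody is scheduled after deciding and everybody who enters object `O` has decided then
nobody passes the object `O`. -/
theorem stuck (hσ : ∀ t p, σ t = some p → ((G.run (rule G k tick b) σ t).st p).d.dec = false)
    {O : ℕ} (hO : ∀ t p, At G (rule G k tick b) σ t p O 0 →
      ((G.run (rule G k tick b) σ t).st p).d.dec = true) (t : ℕ) (p : Fin n) :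
    ((G.run (rule G k tick b) σ t).st p).o ≤ O ∧
      (((G.run (rule G k tick b) σ t).st p).o = O → ((G.run (rule G k tick b) σ t).st p).i = 0) := by
  induction t with
  | zero => exact ⟨Nat.zero_le _, fun _ => rfl⟩
  | succ t ih =>
    obtain ⟨ih1, ih2⟩ := ih
    rcases same_or_end (G := G) (Δ := rule G k tick b) (σ := σ) t p with h | ⟨T, X, h⟩
    · rw [h.1, h.2.1]
      exact ⟨ih1, ih2⟩
    · have hne : ((G.run (rule G k tick b) σ t).st p).o ≠ O := by
        intro heq
        have h1 := hO t p ⟨heq, ih2 heq⟩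
        have h2 := hσ t p h.sched
        rw [h1] at h2
        exact absurd h2 (by simp)
      rw [h.next]
      rcases fin_oi (G := G) (Δ := rule G k tick b) p ((G.run (rule G k tick b) σ t).st p) X
        with h' | h'
      · rw [h'.1, h'.2]
        constructor
        · omega
        · intro; omega
      · rw [h'.1, h'.2]
        constructor
        · omega
        · intro; rfl

/-- Agreement. -/
theorem agree (hσ : ∀ t p, σ t = some p → ((G.run (rule G k tick b) σ t).st p).d.dec = false)
    {t t' : ℕ} {p p' : Fin n} (hd : ((G.run (rule G k tick b) σ t).st p).d.dec = true)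
    (hd' : ((G.run (rule G k tick b) σ t').st p').d.dec = true) :
    ((G.run (rule G k tick b) σ t).st p).d.pref =
      ((G.run (rule G k tick b) σ t').st p').d.pref := by
  have key : ∀ {t t' : ℕ} {p p' : Fin n} {r r' : ℕ},
      At G (rule G k tick b) σ t p ((r + 1) * (k + 3)) 0 →
      (∀ a d', Fact.lab a (r * (k + 3) + k + 2) 0 d' ∈
        ((G.run (rule G k tick b) σ t).st p).K → d'.flag = true) →
      At G (rule G k tick b) σ t' p' ((r' + 1) * (k + 3)) 0 → r ≤ r' →
      ((G.run (rule G k tick b) σ t).st p).d.pref =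
        ((G.run (rule G k tick b) σ t').st p').d.pref := by
    intro t t' p p' r r' hA hX hA' hle
    have hall := coherence hA hX
    rcases Nat.eq_or_lt_of_le hle with rfl | hlt
    · exact (hall t' p' hA').symm
    · have hdec : ∀ t p, At G (rule G k tick b) σ t p ((r + 1 + 1) * (k + 3)) 0 →
          ((G.run (rule G k tick b) σ t).st p).d.dec = true := fun t p hA =>
        (decide_of_allPref (allPref_winner hall) hA).2
      have hst := stuck hσ hdec t' p'
      rw [hA'.1] at hst
      have hr : r' = r + 1 := by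
        have h1 := Nat.le_of_mul_le_mul_right hst.1 (by omega)
        omega
      subst hr
      exact ((decide_of_allPref (allPref_winner hall) hA').1).symm
  obtain ⟨r, h1, h2⟩ := dec_origin hσ hd
  obtain ⟨r', h1', h2'⟩ := dec_origin hσ hd'
  rcases le_total r r' with hle | hle
  · exact key h1 h2 h1' hle
  · exact (key h1' h2' h1 hle).symm

/-- Validity. -/
theorem valid (hσ : ∀ t p, σ t = some p → ((G.run (rule G k tick b) σ t).st p).d.dec = false)
    {t : ℕ} {p : Fin n} (hd : ((G.run (rule G k tick b) σ t).st p).d.dec = true) :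
    ∃ j, b j = ((G.run (rule G k tick b) σ t).st p).d.pref := by
  by_contra hcon
  push Not at hcon
  have hb : ∀ j, b j = !((G.run (rule G k tick b) σ t).st p).d.pref := by
    intro j
    have := hcon j
    revert this
    cases b j <;> cases ((G.run (rule G k tick b) σ t).st p).d.pref <;> simp
  obtain ⟨r, h1, h2⟩ := dec_origin hσ hd
  have := allPref_all (G := G) (k := k) (tick := tick) (σ := σ) hb (r + 1) t p h1
  revert this
  cases ((G.run (rule G k tick b) σ t).st p).d.pref <;> simp

/-- A unique candidate known to everybody makes everybody agree. -/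
theorem winner {r : ℕ} {a : Fin n}
    (h1 : ∀ p, p ≠ a → ∀ t i, At G (rule G k tick b) σ t p (r * (k + 3)) i →
      ((G.run (rule G k tick b) σ t).st p).d.flag = false)
    (h2 : ∀ t p, At G (rule G k tick b) σ t p (r * (k + 3) + k + 1) 0 → ∃ i d,
      Fact.lab a (r * (k + 3)) i d ∈ ((G.run (rule G k tick b) σ t).st p).K ∧ d.flag = true) :
    ∃ v, AllPref G k tick b σ (r * (k + 3) + k + 1) v := by
  by_cases hne : ∃ t, At G (rule G k tick b) σ t a (r * (k + 3)) 0
  · obtain ⟨t0, ht0⟩ := hne
    refine ⟨((G.run (rule G k tick b) σ t0).st a).d.pref, ?_⟩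
    have hpa : ∀ t i, At G (rule G k tick b) σ t a (r * (k + 3)) i →
        ((G.run (rule G k tick b) σ t).st a).d.pref =
          ((G.run (rule G k tick b) σ t0).st a).d.pref := by
      intro t i hA
      obtain ⟨t1, _, g1, g2, _⟩ := pref_const hA
      rw [g2, (at_unique ht0 g1).1]
    intro t p hA
    obtain ⟨i, d, hl, hf⟩ := h2 t p hA
    obtain ⟨e, he, i', T, X, g1, g2, g3, g4⟩ := prev_obj hA
    have hlX : Fact.lab a (r * (k + 3)) i d ∈ X := by
      rw [g3, mem_insert] at hl
      rcases hl with hl | hl
      · simp only [Fact.lab.injEq] at hl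
        omega
      · exact hl
    rw [g4, nxt_k (mod_round r k (show k < k + 3 by omega))]
    have e2 : r * (k + 3) + k - k = r * (k + 3) := by omega
    rw [e2]
    simp only
    apply pick_eq
    · rintro w ⟨a', i'', d', hl', hf', hd'⟩
      obtain ⟨t', ht', hdt'⟩ := genuine_end g1 hl'
      by_cases haa : a' = a
      · subst haa
        rw [← hd', ← hdt']
        exact hpa t' i'' ht'
      · have := h1 a' haa t' i'' ht'
        rw [hdt', hf'] at this
        exact absurd this (by simp)
    · intro hnone
      exact absurd ⟨a, i, d, hlX, hf, rfl⟩ (hnone d.pref)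
  · refine ⟨true, ?_⟩
    intro t p hA
    exfalso
    apply hne
    obtain ⟨i, d, hl, hf⟩ := h2 t p hA
    obtain ⟨e, he, i', T, X, g1, g2, g3, g4⟩ := prev_obj hA
    have hlX : Fact.lab a (r * (k + 3)) i d ∈ X := by
      rw [g3, mem_insert] at hl
      rcases hl with hl | hl
      · simp only [Fact.lab.injEq] at hl
        omega
      · exact hl
    obtain ⟨t', ht', -⟩ := genuine_end g1 hlX
    obtain ⟨t0, -, ht0⟩ := at_down ht' (Nat.zero_le i)
    exact ⟨t0, ht0⟩

end rules

end Pool.Agent.MP217Upper
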