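import Mathlib

set_option autoImplicit false

/-!
# Nested graphs in which any two large sets are joined
-/

namespace Pool.Agent.MP217Upper

open Finset

/-- The number of permutations that map `S` into the complement of `X`. -/
def avoid {n : ℕ} (S X : Finset (Fin n)) : Finset (Equiv.Perm (Fin n)) :=
  univ.filter fun π => ∀ a ∈ S, π a ∉ X

theorem avoid_step {n : ℕ} (S X : Finset (Fin n)) (a : Fin n) (ha : a ∉ S) :
    (avoid (insert a S) X).card * n ≤ (avoid S X).card * (n - X.card) := by
  classical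
  have h1 : (avoid (insert a S) X).card * n
      = ((avoid (insert a S) X) ×ˢ (univ : Finset (Fin n))).card := by
    rw [card_product, card_univ, Fintype.card_fin]
  have h2 : (avoid S X).card * (n - X.card) = ((avoid S X) ×ˢ (Xᶜ)).card := by
    rw [card_product, card_compl, Fintype.card_fin]
  rw [h1, h2]
  apply card_le_card_of_injOn
    (fun q : Equiv.Perm (Fin n) × Fin n => (Equiv.swap (q.1 a) q.2 * q.1, q.1 a))
  · rintro ⟨π, y⟩ hq
    simp only [coe_product, Set.mem_prod, mem_coe, mem_univ, and_true, avoid, mem_filter,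
      true_and] at hq
    simp only [coe_product, Set.mem_prod, mem_coe, avoid, mem_filter, mem_univ, true_and,
      mem_compl]
    have hπa : π a ∉ X := hq a (mem_insert_self _ _)
    refine ⟨fun s hs => ?_, hπa⟩
    have hsa : s ≠ a := fun h => ha (h ▸ hs)
    have hπs : π s ∉ X := hq s (mem_insert_of_mem hs)
    have hne : π s ≠ π a := fun h => hsa (π.injective h)
    simp only [Equiv.Perm.coe_mul, Function.comp_apply]
    by_cases hy : π s = y
    · rw [hy, Equiv.swap_apply_right]
      exact hπa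
    · rw [Equiv.swap_apply_of_ne_of_ne hne hy]
      exact hπs
  · rintro ⟨π, y⟩ _ ⟨π', y'⟩ _ h
    simp only [Prod.mk.injEq] at h
    obtain ⟨h1, h2⟩ := h
    have hy : y = y' := by
      have := congrArg (fun f : Equiv.Perm (Fin n) => f a) h1
      simpa using this
    subst hy
    rw [h2] at h1
    have := mul_left_cancel h1
    simp [this]

theorem card_avoid {n : ℕ} (X : Finset (Fin n)) (S : Finset (Fin n)) :
    (avoid S X).card * n ^ S.card ≤ n.factorial * (n - X.card) ^ S.card := by
  classical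
  induction S using Finset.induction_on with
  | empty =>
    simp only [card_empty, pow_zero, mul_one]
    calc (avoid ∅ X).card ≤ (univ : Finset (Equiv.Perm (Fin n))).card := card_filter_le _ _
      _ = n.factorial := by rw [card_univ, Fintype.card_perm, Fintype.card_fin]
  | insert a S ha ih =>
    rw [card_insert_of_notMem ha, pow_succ, pow_succ]
    calc (avoid (insert a S) X).card * (n ^ S.card * n)
        = ((avoid (insert a S) X).card * n) * n ^ S.card := by ring
      _ ≤ ((avoid S X).card * (n - X.card)) * n ^ S.card :=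
          Nat.mul_le_mul_right _ (avoid_step S X a ha)
      _ = ((avoid S X).card * n ^ S.card) * (n - X.card) := by ring
      _ ≤ (n.factorial * (n - X.card) ^ S.card) * (n - X.card) := Nat.mul_le_mul_right _ ih
      _ = n.factorial * ((n - X.card) ^ S.card * (n - X.card)) := by ring

/-- If `d` permutations are chosen at random, then with positive probability any two sets of size
`s` are joined by one of them. -/
theorem exists_perms {n s d : ℕ} (hs : 1 ≤ s) (hsn : s ≤ n)
    (hd : n ^ 2 * (n - s) ^ d < n ^ d) :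
    ∃ f : Fin d → Equiv.Perm (Fin n), ∀ S X : Finset (Fin n), S.card = s → X.card = s →
      ∃ i, ∃ a ∈ S, f i a ∈ X := by
  classical
  by_contra hcon
  push Not at hcon
  have hn : 1 ≤ n := hs.trans hsn
  -- the set of bad choices
  let P := (powersetCard s (univ : Finset (Fin n))) ×ˢ (powersetCard s (univ : Finset (Fin n)))
  have hcover : (univ : Finset (Fin d → Equiv.Perm (Fin n))) ⊆
      P.biUnion fun q => Fintype.piFinset fun _ : Fin d => avoid q.1 q.2 := by
    intro f _
    obtain ⟨S, X, hS, hX, h⟩ := hcon f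
    rw [mem_biUnion]
    refine ⟨(S, X), ?_, ?_⟩
    · simp only [P, mem_product, mem_powersetCard, subset_univ, true_and]
      exact ⟨hS, hX⟩
    · rw [Fintype.mem_piFinset]
      intro i
      simp only [avoid, mem_filter, mem_univ, true_and]
      exact h i
  have hcard := card_le_card hcover
  rw [card_univ, Fintype.card_fun, Fintype.card_perm, Fintype.card_fin, Fintype.card_fin] at hcard
  have hb : ∀ q ∈ P, (Fintype.piFinset fun _ : Fin d => avoid q.1 q.2).card * n ^ (s * d)
      ≤ n.factorial ^ d * (n - s) ^ (s * d) := by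
    rintro ⟨S, X⟩ hq
    simp only [P, mem_product, mem_powersetCard, subset_univ, true_and] at hq
    rw [Fintype.card_piFinset, prod_const, card_univ, Fintype.card_fin, pow_mul, ← mul_pow,
      pow_mul, ← mul_pow]
    apply Nat.pow_le_pow_left
    have := card_avoid X S
    rw [hq.1, hq.2] at this
    exact this
  have hP : P.card ≤ n ^ (2 * s) := by
    simp only [P, card_product, card_powersetCard, card_univ, Fintype.card_fin]
    calc n.choose s * n.choose s ≤ n ^ s * n ^ s :=
          Nat.mul_le_mul (Nat.choose_le_pow n s) (Nat.choose_le_pow n s)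
      _ = n ^ (2 * s) := by rw [← pow_add]; ring_nf
  have h1 : n.factorial ^ d * n ^ (s * d) ≤ n ^ (2 * s) * (n.factorial ^ d * (n - s) ^ (s * d)) := by
    calc n.factorial ^ d * n ^ (s * d)
        ≤ (P.biUnion fun q => Fintype.piFinset fun _ : Fin d => avoid q.1 q.2).card * n ^ (s * d) :=
          Nat.mul_le_mul_right _ hcard
      _ ≤ (∑ q ∈ P, (Fintype.piFinset fun _ : Fin d => avoid q.1 q.2).card) * n ^ (s * d) :=
          Nat.mul_le_mul_right _ card_biUnion_le
      _ = ∑ q ∈ P, (Fintype.piFinset fun _ : Fin d => avoid q.1 q.2).card * n ^ (s * d) := by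
          rw [sum_mul]
      _ ≤ ∑ _q ∈ P, n.factorial ^ d * (n - s) ^ (s * d) := sum_le_sum hb
      _ = P.card * (n.factorial ^ d * (n - s) ^ (s * d)) := by rw [sum_const, smul_eq_mul]
      _ ≤ n ^ (2 * s) * (n.factorial ^ d * (n - s) ^ (s * d)) := Nat.mul_le_mul_right _ hP
  have h2 : n ^ (s * d) ≤ n ^ (2 * s) * (n - s) ^ (s * d) := by
    have hpos : 0 < n.factorial ^ d := pow_pos (Nat.factorial_pos n) d
    have : n.factorial ^ d * n ^ (s * d) ≤ n.factorial ^ d * (n ^ (2 * s) * (n - s) ^ (s * d)) := by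
      calc _ ≤ _ := h1
        _ = _ := by ring
    exact Nat.le_of_mul_le_mul_left this hpos
  have h3 : n ^ (2 * s) * (n - s) ^ (s * d) = (n ^ 2 * (n - s) ^ d) ^ s := by
    rw [mul_pow, ← pow_mul, ← pow_mul, mul_comm d s]
  have h4 : n ^ (s * d) = (n ^ d) ^ s := by rw [← pow_mul, mul_comm d s]
  rw [h3, h4] at h2
  have h5 := Nat.pow_lt_pow_left hd (show s ≠ 0 by omega)
  omega

/-- The numerical condition of `exists_perms`. -/
theorem num_cond {n s d : ℕ} (hs : 1 ≤ s) (hsn : s ≤ n)
    (h : 2 * n * (Nat.log 2 n + 1) ≤ s * d) : n ^ 2 * (n - s) ^ d < n ^ d := by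
  have hn : 1 ≤ n := hs.trans hsn
  have hn0 : (0 : ℝ) < n := by exact_mod_cast hn
  have key : ((n : ℝ)) ^ 2 * ((n : ℝ) - s) ^ d < (n : ℝ) ^ d := by
    have e1 : ((n : ℝ) - s) ^ d = (n : ℝ) ^ d * (1 - s / n) ^ d := by
      rw [← mul_pow]
      congr 1
      field_simp
    have e2 : (1 - (s : ℝ) / n) ^ d ≤ Real.exp (-(2 * (Nat.log 2 n + 1))) := by
      have h0 : (0 : ℝ) ≤ 1 - s / n := by
        rw [sub_nonneg, div_le_one hn0]
        exact_mod_cast hsn
      calc (1 - (s : ℝ) / n) ^ d ≤ (Real.exp (-(s / n))) ^ d := by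
            apply pow_le_pow_left₀ h0
            have := Real.add_one_le_exp (-((s : ℝ) / n))
            linarith
        _ = Real.exp (-(s * d / n)) := by
            rw [← Real.exp_nat_mul]
            congr 1
            ring
        _ ≤ Real.exp (-(2 * (Nat.log 2 n + 1))) := by
            apply Real.exp_le_exp.mpr
            apply neg_le_neg
            rw [le_div_iff₀ hn0]
            have : ((2 * n * (Nat.log 2 n + 1) : ℕ) : ℝ) ≤ ((s * d : ℕ) : ℝ) := by exact_mod_cast h
            push_cast at this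
            linarith
    have e3 : (n : ℝ) ^ 2 * Real.exp (-(2 * (Nat.log 2 n + 1))) < 1 := by
      have hlt : (n : ℝ) < 2 ^ (Nat.log 2 n + 1) := by
        exact_mod_cast Nat.lt_pow_succ_log_self (by norm_num) n
      have hexp : (2 : ℝ) ^ (Nat.log 2 n + 1) ≤ Real.exp (Nat.log 2 n + 1) := by
        have h2 : (2 : ℝ) ≤ Real.exp 1 := by
          have := Real.add_one_le_exp (1 : ℝ)
          linarith
        calc (2 : ℝ) ^ (Nat.log 2 n + 1) ≤ (Real.exp 1) ^ (Nat.log 2 n + 1) :=
              pow_le_pow_left₀ (by norm_num) h2 _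
          _ = Real.exp (Nat.log 2 n + 1) := by
              rw [← Real.exp_nat_mul]
              push_cast
              ring_nf
      have hlt' : (n : ℝ) < Real.exp (Nat.log 2 n + 1) := hlt.trans_le hexp
      have e4 : Real.exp (-(2 * ((Nat.log 2 n : ℝ) + 1)))
          = (Real.exp (Nat.log 2 n + 1))⁻¹ ^ 2 := by
        rw [← Real.exp_neg, ← Real.exp_nat_mul]
        congr 1
        push_cast
        ring
      rw [e4, ← mul_pow]
      have e5 : (n : ℝ) * (Real.exp (Nat.log 2 n + 1))⁻¹ < 1 := by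
        rw [← div_eq_mul_inv, div_lt_one (Real.exp_pos _)]
        exact hlt'
      exact pow_lt_one₀ (by positivity) e5 (by norm_num)
    rw [e1]
    have hnd : (0 : ℝ) < (n : ℝ) ^ d := pow_pos hn0 d
    calc (n : ℝ) ^ 2 * ((n : ℝ) ^ d * (1 - s / n) ^ d)
        = (n : ℝ) ^ d * ((n : ℝ) ^ 2 * (1 - s / n) ^ d) := by ring
      _ ≤ (n : ℝ) ^ d * ((n : ℝ) ^ 2 * Real.exp (-(2 * (Nat.log 2 n + 1)))) := by
          gcongr
      _ < (n : ℝ) ^ d * 1 := by
          gcongr
      _ = (n : ℝ) ^ d := by ring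
  have : ((n ^ 2 * (n - s) ^ d : ℕ) : ℝ) < ((n ^ d : ℕ) : ℝ) := by
    push_cast [Nat.cast_sub hsn]
    exact key
  exact_mod_cast this

/-- One level of the graph. -/
theorem exists_level (n ν : ℕ) (hν : 2 ^ ν ≤ n) :
    ∃ H : Fin n → Finset (Fin n),
      (∀ x y, y ∈ H x → x ∈ H y) ∧
      (∀ x, 2 ^ ν * (H x).card ≤ 6 * n * (Nat.log 2 n + 1)) ∧
      (∀ S Y : Finset (Fin n), 2 ^ ν ≤ S.card → 2 ^ ν ≤ Y.card → ∃ s ∈ S, ∃ y ∈ Y, y ∈ H s) := by
  classical
  set a := 2 * n * (Nat.log 2 n + 1) with ha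
  set d := a / 2 ^ ν + 1 with hd
  have hpos : 0 < 2 ^ ν := by positivity
  have hd1 : a ≤ 2 ^ ν * d := by
    rw [hd]
    have := Nat.lt_mul_div_succ a hpos
    exact this.le
  have hd2 : 2 ^ ν * d ≤ a + 2 ^ ν := by
    rw [hd, mul_add, mul_one]
    have := Nat.mul_div_le a (2 ^ ν)
    omega
  obtain ⟨f, hf⟩ := exists_perms (d := d) (show 1 ≤ 2 ^ ν from hpos) hν
    (num_cond hpos hν hd1)
  refine ⟨fun x => (univ.image fun i => f i x) ∪ (univ.image fun i => (f i).symm x), ?_, ?_, ?_⟩
  · intro x y hy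
    simp only [mem_union, mem_image, mem_univ, true_and] at hy ⊢
    rcases hy with ⟨i, rfl⟩ | ⟨i, rfl⟩
    · right; exact ⟨i, by simp⟩
    · left; exact ⟨i, by simp⟩
  · intro x
    have hc : ((univ.image fun i => f i x) ∪ (univ.image fun i => (f i).symm x)).card ≤ 2 * d := by
      calc _ ≤ (univ.image fun i => f i x).card + (univ.image fun i => (f i).symm x).card :=
            card_union_le _ _
        _ ≤ d + d := by
            apply Nat.add_le_add
            · exact card_image_le.trans (by simp)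
            · exact card_image_le.trans (by simp)
        _ = 2 * d := by ring
    calc _ ≤ 2 ^ ν * (2 * d) := Nat.mul_le_mul_left _ hc
      _ = 2 * (2 ^ ν * d) := by ring
      _ ≤ 2 * (a + 2 ^ ν) := Nat.mul_le_mul_left _ hd2
      _ ≤ 6 * n * (Nat.log 2 n + 1) := by
        have : 2 ^ ν ≤ n * (Nat.log 2 n + 1) := hν.trans (Nat.le_mul_of_pos_right _ (by omega))
        rw [ha]
        nlinarith
  · intro S Y hS hY
    obtain ⟨S', hS', hS'c⟩ := exists_subset_card_eq hS
    obtain ⟨Y', hY', hY'c⟩ := exists_subset_card_eq hY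
    obtain ⟨i, s, hs, hy⟩ := hf S' Y' hS'c hY'c
    refine ⟨s, hS' hs, f i s, hY' hy, ?_⟩
    simp only [mem_union, mem_image, mem_univ, true_and]
    left; exact ⟨i, rfl⟩

/-- A nested family of graphs: `N ν x` is the closed neighbourhood of `x` in the `ν`-th graph. -/
structure Nest (n L Q : ℕ) where
  N : ℕ → Fin n → Finset (Fin n)
  self : ∀ ν x, x ∈ N ν x
  symm : ∀ ν x y, y ∈ N ν x → x ∈ N ν y
  zero : ∀ x, N 0 x = univ
  anti : ∀ ν x, N (ν + 1) x ⊆ N ν x
  deg : ∀ ν x, ν ≤ L → 2 ^ ν * (N ν x).card ≤ Q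
  join : ∀ ν, ν ≤ L → ∀ S Y : Finset (Fin n), 2 ^ ν ≤ S.card → 2 ^ ν ≤ Y.card →
    ∃ s ∈ S, ∃ y ∈ Y, y ∈ N ν s

theorem exists_nest (n : ℕ) (hn : 1 ≤ n) :
    Nonempty (Nest n (Nat.log 2 n) (14 * n * (Nat.log 2 n + 1))) := by
  classical
  set L := Nat.log 2 n with hL
  have hle : ∀ ν, ν ≤ L → 2 ^ ν ≤ n := fun ν hν =>
    (Nat.pow_le_pow_right (by norm_num) hν).trans (Nat.pow_log_le_self 2 (by omega))
  choose H hsymm hdeg hjoin using fun ν : {ν // ν ≤ L} => exists_level n ν.1 (hle ν.1 ν.2)
  let H' : ℕ → Fin n → Finset (Fin n) := fun ν x => if h : ν ≤ L then H ⟨ν, h⟩ x else ∅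
  have H'symm : ∀ ν x y, y ∈ H' ν x → x ∈ H' ν y := by
    intro ν x y hy
    by_cases h : ν ≤ L
    · simp only [H', h, dite_true] at hy ⊢
      exact hsymm _ _ _ hy
    · simp [H', h] at hy
  have H'deg : ∀ ν x, 2 ^ ν * (H' ν x).card ≤ 6 * n * (L + 1) := by
    intro ν x
    by_cases h : ν ≤ L
    · simp only [H', h, dite_true]
      exact hdeg ⟨ν, h⟩ x
    · simp [H', h]
  let N' : ℕ → Fin n → Finset (Fin n) := fun ν x => insert x ((Finset.Icc ν L).biUnion fun μ => H' μ x)
  have N'succ : ∀ ν x, ν ≤ L → N' ν x ⊆ H' ν x ∪ N' (ν + 1) x := by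
    intro ν x hν y hy
    simp only [N', mem_insert, mem_biUnion, mem_Icc, mem_union] at hy ⊢
    rcases hy with rfl | ⟨μ, ⟨h1, h2⟩, hy⟩
    · right; left; rfl
    · rcases Nat.eq_or_lt_of_le h1 with rfl | h1
      · left; exact hy
      · right; right; exact ⟨μ, ⟨h1, h2⟩, hy⟩
  have N'deg : ∀ k ν x, ν + k = L + 1 → 2 ^ ν * (N' ν x).card ≤ 14 * n * (L + 1) := by
    intro k
    induction k with
    | zero =>
      intro ν x hν
      have hν' : ν = L + 1 := by omega
      subst hν'
      have : N' (L + 1) x = {x} := by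
        simp [N']
      rw [this, card_singleton, mul_one, pow_succ]
      have := hle L le_rfl
      nlinarith [Nat.zero_le (n * L)]
    | succ k ih =>
      intro ν x hν
      have h1 := ih (ν + 1) x (by omega)
      have h2 := H'deg ν x
      have h3 : (N' ν x).card ≤ (H' ν x).card + (N' (ν + 1) x).card :=
        (card_le_card (N'succ ν x (by omega))).trans (card_union_le _ _)
      have h4 : 2 ^ ν * (N' ν x).card ≤ 2 ^ ν * (H' ν x).card + 2 ^ ν * (N' (ν + 1) x).card := by
        rw [← mul_add]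
        exact Nat.mul_le_mul_left _ h3
      have h5 : 2 * (2 ^ ν * (N' (ν + 1) x).card) ≤ 14 * n * (L + 1) := by
        calc 2 * (2 ^ ν * (N' (ν + 1) x).card) = 2 ^ (ν + 1) * (N' (ν + 1) x).card := by
              rw [pow_succ]; ring
          _ ≤ _ := h1
      nlinarith
  refine ⟨{
    N := fun ν x => if ν = 0 then univ else N' ν x
    self := ?_
    symm := ?_
    zero := ?_
    anti := ?_
    deg := ?_
    join := ?_ }⟩
  · intro ν x
    by_cases h : ν = 0
    · simp [h]
    · simp [h, N']
  · intro ν x y hy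
    by_cases h : ν = 0
    · simp [h]
    · simp only [h, if_false] at hy ⊢
      simp only [N', mem_insert, mem_biUnion, mem_Icc] at hy ⊢
      rcases hy with rfl | ⟨μ, hμ, hy⟩
      · left; rfl
      · right; exact ⟨μ, hμ, H'symm _ _ _ hy⟩
  · intro x
    simp
  · intro ν x
    by_cases h : ν = 0
    · simp [h]
    · simp only [h, Nat.succ_ne_zero, if_false]
      intro y hy
      simp only [N', mem_insert, mem_biUnion, mem_Icc] at hy ⊢
      rcases hy with rfl | ⟨μ, hμ, hy⟩
      · left; rfl
      · right; exact ⟨μ, ⟨by omega, hμ.2⟩, hy⟩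
  · intro ν x hν
    by_cases h : ν = 0
    · simp only [h, if_true, pow_zero, one_mul, card_univ, Fintype.card_fin]
      nlinarith [Nat.zero_le (n * L)]
    · simp only [h, if_false]
      exact N'deg (L + 1 - ν) ν x (by omega)
  · intro ν hν S Y hS hY
    by_cases h : ν = 0
    · subst h
      have hS' : 0 < S.card := by simpa using hS
      have hY' : 0 < Y.card := by simpa using hY
      obtain ⟨s, hs⟩ := card_pos.mp hS'
      obtain ⟨y, hy⟩ := card_pos.mp hY'
      exact ⟨s, hs, y, hy, by simp⟩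
    · obtain ⟨s, hs, y, hy, hsy⟩ := hjoin ⟨ν, hν⟩ S Y hS hY
      refine ⟨s, hs, y, hy, ?_⟩
      simp only [h, if_false, N', mem_insert, mem_biUnion, mem_Icc]
      right
      refine ⟨ν, ⟨le_rfl, hν⟩, ?_⟩
      simp only [H', hν, dite_true]
      exact hsy

end Pool.Agent.MP217Upper
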