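import Pool.Agent.MP217Upper.Model
import Pool.Agent.MP217Upper.Compare

set_option autoImplicit false

/-!
# The implementation of the protocol in the register model
-/

namespace Pool.Agent.MP217Upper

open Finset MeasureTheory

attribute [local instance] Classical.propDecidable

/-! ### Countability and encodings -/

instance : Finite Dt :=
  Finite.of_injective (fun d : Dt => (d.pref, d.flag, d.dec)) (by
    rintro ⟨a, b, c⟩ ⟨a', b', c'⟩ h
    simp only [Prod.mk.injEq] at h
    obtain ⟨rfl, rfl, rfl⟩ := h
    rfl)

variable {n : ℕ}

instance : Countable (Fact n Dt) := by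
  apply Function.Injective.countable (f := fun x : Fact n Dt =>
    (match x with
      | Fact.done a o i T => (Sum.inl (a, o, i, T) : (Fin n × ℕ × ℕ × Finset (Fin n)) ⊕
          (Fin n × ℕ × ℕ × Dt))
      | Fact.lab a o i d => Sum.inr (a, o, i, d)))
  intro x y h
  cases x <;> cases y <;> simp_all

instance : Countable (LSt n Dt) := by
  apply Function.Injective.countable (f := fun s : LSt n Dt =>
    (s.o, s.i, s.d, s.K, s.T, s.pos, s.acc))
  rintro ⟨o, i, d, K, T, pos, acc⟩ ⟨o', i', d', K', T', pos', acc'⟩ h
  simp only [Prod.mk.injEq] at h
  obtain ⟨rfl, rfl, rfl, rfl, rfl, rfl, rfl⟩ := h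
  rfl

theorem exists_enc (n : ℕ) : ∃ (enc : Finset (Fact n Dt) → ℕ) (dec : ℕ → Finset (Fact n Dt)),
    (∀ K, dec (enc K) = K) ∧ dec 0 = ∅ := by
  obtain ⟨f, hf⟩ := exists_injective_nat (Finset (Fact n Dt))
  refine ⟨fun K => f K + 1, fun m => if h : ∃ K, f K + 1 = m then h.choose else ∅, ?_, ?_⟩
  · intro K
    have h : ∃ K', f K' + 1 = f K + 1 := ⟨K, rfl⟩
    simp only
    rw [dif_pos h]
    have := h.choose_spec
    exact hf (by omega)
  · simp only
    rw [dif_neg]
    rintro ⟨K, h⟩
    omega

/-- The encoding of messages by natural numbers. -/
noncomputable def enc (K : Finset (Fact n Dt)) : ℕ := (exists_enc n).choose K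

/-- The decoding of messages. -/
noncomputable def dcd (m : ℕ) : Finset (Fact n Dt) := (exists_enc n).choose_spec.choose m

theorem dcd_enc (K : Finset (Fact n Dt)) : dcd (enc K) = K :=
  (exists_enc n).choose_spec.choose_spec.1 K

theorem dcd_zero : (dcd 0 : Finset (Fact n Dt)) = ∅ := (exists_enc n).choose_spec.choose_spec.2

/-! ### The algorithm -/

/-- The ticket of a processor with coins `c` in round `r` for level `l`. -/
noncomputable def tickOf (lam : ℕ) (c : ℕ → Bool) (r l : ℕ) : Bool :=
  decide (∀ j < l + lam, c (Nat.pair r j) = true)

section alg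

variable (G : Geo n) (k lam : ℕ)

/-- The rules as seen by a processor with input `x` and coins `c`. -/
noncomputable def own (x : Bool) (c : ℕ → Bool) : Dat n Dt :=
  rule G k (fun _ => tickOf lam c) (fun _ => x)

/-- The local state of processor `i` as a function of the history. -/
noncomputable def stOf (i : Fin n) (x : Bool) (c : ℕ → Bool) : List (Option ℕ) → LSt n Dt
  | [] => G.beg i 0 0 ((own G k lam x c).d0 i) ∅
  | none :: h => wr (stOf i x c h)
  | some v :: h => G.rd (own G k lam x c) i (stOf i x c h) (dcd v)

/-- The next action in a given local state. -/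
noncomputable def act (i : Fin n) (s : LSt n Dt) : Model.Act n :=
  if s.d.dec = true then .output s.d.pref
  else if s.pos < s.T.length then .write (partner i s) s.o (enc s.K)
  else .read (partner i s) s.o

end alg

/-! ### Measurability -/

section meas

variable {Ω X Y Z : Type} [MeasurableSpace Ω]

/-- All fibres are measurable. -/
def Fib (f : Ω → X) : Prop := ∀ x, MeasurableSet {c | f c = x}

theorem fib_const (x : X) : Fib (fun _ : Ω => x) := by
  intro y
  by_cases h : x = y
  · simp [h]
  · simp [h]

theorem Fib.bind [Countable X] {f : Ω → X} (hf : Fib f) {F : X → Ω → Z} (hF : ∀ x, Fib (F x)) :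
    Fib (fun c => F (f c) c) := by
  intro z
  have : {c | F (f c) c = z} = ⋃ x, ({c | f c = x} ∩ {c | F x c = z}) := by
    ext c
    simp only [Set.mem_iUnion, Set.mem_inter_iff]
    constructor
    · intro h
      exact ⟨f c, rfl, h⟩
    · rintro ⟨x, h1, h2⟩
      change f c = x at h1
      subst h1
      exact h2
  rw [this]
  exact MeasurableSet.iUnion fun x => (hf x).inter (hF x z)

theorem Fib.map [Countable X] {f : Ω → X} (hf : Fib f) (g : X → Z) : Fib (fun c => g (f c)) :=
  hf.bind (F := fun x _ => g x) fun x => fib_const (g x)

end meas

theorem fib_coord (m : ℕ) : Fib (fun c : ℕ → Bool => c m) := by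
  intro x
  have h : Measurable (fun c : ℕ → Bool => c m) := measurable_pi_apply m
  exact h (measurableSet_singleton x)

theorem measurableSet_tick (lam r l : ℕ) :
    MeasurableSet {c : ℕ → Bool | ∀ j < l + lam, c (Nat.pair r j) = true} := by
  have : {c : ℕ → Bool | ∀ j < l + lam, c (Nat.pair r j) = true} =
      ⋂ j, ⋂ (_ : j < l + lam), {c : ℕ → Bool | c (Nat.pair r j) = true} := by
    ext c
    simp
  rw [this]
  exact MeasurableSet.iInter fun j => MeasurableSet.iInter fun _ => fib_coord _ true

theorem fib_tick (lam r l : ℕ) : Fib (fun c : ℕ → Bool => tickOf lam c r l) := by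
  intro x
  have h := measurableSet_tick lam r l
  cases x
  · have : {c : ℕ → Bool | tickOf lam c r l = false} =
        {c : ℕ → Bool | ∀ j < l + lam, c (Nat.pair r j) = true}ᶜ := by
      ext c
      simp [tickOf]
    rw [this]
    exact h.compl
  · have : {c : ℕ → Bool | tickOf lam c r l = true} =
        {c : ℕ → Bool | ∀ j < l + lam, c (Nat.pair r j) = true} := by
      ext c
      simp [tickOf]
    rw [this]
    exact h

section alg

variable (G : Geo n) (k lam : ℕ)

theorem fib_nxt (x : Bool) (p : Fin n) (o i : ℕ) (f : Bool) (K : Finset (Fact n Dt)) (d : Dt) :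
    Fib (fun c : ℕ → Bool => (own G k lam x c).nxt p o i f K d) := by
  cases f with
  | false =>
    by_cases ho : o % (k + 3) = 0
    · have : (fun c : ℕ → Bool => (own G k lam x c).nxt p o i false K d) =
          fun c => (fun y => (⟨d.pref, y, d.dec⟩ : Dt))
            (tickOf lam c (o / (k + 3)) (G.lvl (i + 1))) := by
        funext c
        exact nxt_false_zero ho
      rw [this]
      exact (fib_tick lam (o / (k + 3)) (G.lvl (i + 1))).map
        (fun y => (⟨d.pref, y, d.dec⟩ : Dt))
    · have : (fun c : ℕ → Bool => (own G k lam x c).nxt p o i false K d) = fun _ => d := by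
        funext c
        exact nxt_false_ne ho
      rw [this]
      exact fib_const _
  | true =>
    have hlt : o % (k + 3) < k + 3 := Nat.mod_lt _ (by omega)
    rcases Nat.lt_or_ge (o % (k + 3)) k with h | h
    · have : (fun c : ℕ → Bool => (own G k lam x c).nxt p o i true K d) = fun _ => d := by
        funext c
        exact nxt_lt h
      rw [this]
      exact fib_const _
    · rcases Nat.lt_or_ge (o % (k + 3)) (k + 1) with h' | h'
      · have h0 : o % (k + 3) = k := by omega
        have : (fun c : ℕ → Bool => (own G k lam x c).nxt p o i true K d) = fun _ =>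
            ⟨pick (cand (o - k) K) d.pref, d.flag, d.dec⟩ := by
          funext c
          exact nxt_k h0
        rw [this]
        exact fib_const _
      · rcases Nat.lt_or_ge (o % (k + 3)) (k + 2) with h'' | h''
        · have h0 : o % (k + 3) = k + 1 := by omega
          have : (fun c : ℕ → Bool => (own G k lam x c).nxt p o i true K d) = fun _ =>
              ⟨d.pref, decide (∀ a d', Fact.lab a o 0 d' ∈ K → d'.pref = d.pref), d.dec⟩ := by
            funext c
            exact nxt_k1 h0
          rw [this]
          exact fib_const _
        · have h0 : o % (k + 3) = k + 2 := by omega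
          have : (fun c : ℕ → Bool => (own G k lam x c).nxt p o i true K d) = fun c =>
              (fun y => (⟨pick (strong o K) d.pref, y,
                d.dec || decide (∀ a d', Fact.lab a o 0 d' ∈ K → d'.flag = true)⟩ : Dt))
                (tickOf lam c (o / (k + 3) + 1) (G.lvl 0)) := by
            funext c
            exact nxt_k2 h0
          rw [this]
          exact (fib_tick lam (o / (k + 3) + 1) (G.lvl 0)).map
            (fun y => (⟨pick (strong o K) d.pref, y,
              d.dec || decide (∀ a d', Fact.lab a o 0 d' ∈ K → d'.flag = true)⟩ : Dt))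

theorem fib_rd (x : Bool) (p : Fin n) (s : LSt n Dt) (m : Finset (Fact n Dt)) :
    Fib (fun c : ℕ → Bool => G.rd (own G k lam x c) p s m) := by
  unfold Geo.rd
  by_cases h : s.pos + 1 < 2 * s.T.length
  · simp only [if_pos h]
    exact fib_const _
  · simp only [if_neg h]
    unfold Geo.fin
    by_cases h' : G.cert s.o (G.lvl s.i) (outK p s m)
    · simp only [if_pos h']
      exact (fib_nxt G k lam x p s.o s.i true (outK p s m) s.d).map
        (fun d => G.beg p (s.o + 1) 0 d (outK p s m))
    · simp only [if_neg h']
      exact (fib_nxt G k lam x p s.o s.i false (outK p s m) s.d).map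
        (fun d => G.beg p s.o (s.i + 1) d (outK p s m))

theorem fib_stOf (i : Fin n) (x : Bool) (h : List (Option ℕ)) :
    Fib (fun c : ℕ → Bool => stOf G k lam i x c h) := by
  induction h with
  | nil =>
    exact (fib_tick lam 0 (G.lvl 0)).map (fun y => G.beg i 0 0 (⟨x, y, false⟩ : Dt) ∅)
  | cons e h ih =>
    cases e with
    | none => exact ih.map (fun s => wr s)
    | some v =>
      exact ih.bind (F := fun s c => G.rd (own G k lam x c) i s (dcd v))
        fun s => fib_rd G k lam x i s (dcd v)

/-- The algorithm. -/
noncomputable def alg : Model.Alg n where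
  next i x c h := act i (stOf G k lam i x c h)
  measurable_next i x h a := (fib_stOf G k lam i x h).map (fun s => act i s) a

end alg

/-! ### Simulation -/

section sim

variable (G : Geo n) (k lam : ℕ) (b : Fin n → Bool) (c : Fin n → ℕ → Bool) (σ : ℕ → Fin n)

/-- The tickets for given coins. -/
noncomputable def tk (p : Fin n) : ℕ → ℕ → Bool := tickOf lam (c p)

theorem rd_own (p : Fin n) (s : LSt n Dt) (m : Finset (Fact n Dt)) :
    G.rd (own G k lam (b p) (c p)) p s m = G.rd (rule G k (tk lam c) b) p s m := rfl

theorem steps_succ (τ : ℕ → Option (Fin n)) (t : ℕ) (p : Fin n) :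
    steps τ (t + 1) p = steps τ t p + if τ t = some p then 1 else 0 := by
  unfold steps
  rw [range_add_one, filter_insert]
  split_ifs with h
  · rw [card_insert_of_notMem (by simp)]
  · rfl

theorem sim (t : ℕ) :
    (∀ p, stOf G k lam p (b p) (c p) ((Model.run (alg G k lam) b c σ t).hist p) =
      (rrun G k b (tk lam c) σ t).st p) ∧
    (∀ w x o, dcd ((Model.run (alg G k lam) b c σ t).mem w x o) =
      (rrun G k b (tk lam c) σ t).mem w x o) ∧
    (∀ p, ((Model.run (alg G k lam) b c σ t).hist p).length =
      steps (sch G k b (tk lam c) σ) t p) := by
  induction t with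
  | zero =>
    refine ⟨fun _ => rfl, fun _ _ _ => dcd_zero, fun _ => ?_⟩
    simp [steps, Model.run, Model.Config.init]
  | succ t ih =>
    obtain ⟨ih1, ih2, ih3⟩ := ih
    set C := Model.run (alg G k lam) b c σ t with hC
    set R := rrun G k b (tk lam c) σ t with hR
    set p := σ t with hp
    have hnext : (alg G k lam).next p (b p) (c p) (C.hist p) = act p (R.st p) := by
      change act p (stOf G k lam p (b p) (c p) (C.hist p)) = _
      rw [ih1]
    by_cases hd : (R.st p).d.dec = true
    · have hrr : rrun G k b (tk lam c) σ (t + 1) = R := by
        rw [rrun, if_pos hd]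
      have hsc : sch G k b (tk lam c) σ t = none := by rw [sch, if_pos hd]
      have hrun : Model.run (alg G k lam) b c σ (t + 1) = C := by
        change Model.step (alg G k lam) b c p C = C
        unfold Model.step
        rw [hnext, act, if_pos hd]
      rw [hrr, hrun]
      refine ⟨ih1, ih2, ?_⟩
      intro q
      rw [steps_succ, hsc, ih3]
      simp
    · have hrr : rrun G k b (tk lam c) σ (t + 1) = G.step (rule G k (tk lam c) b) p R := by
        rw [rrun, if_neg hd]
      have hsc : sch G k b (tk lam c) σ t = some p := by rw [sch, if_neg hd]
      by_cases hw : (R.st p).pos < (R.st p).T.length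
      · have hrun : Model.run (alg G k lam) b c σ (t + 1) =
            ⟨Function.update C.mem p (Function.update (C.mem p) (partner p (R.st p))
              (Function.update (C.mem p (partner p (R.st p))) (R.st p).o (enc (R.st p).K))),
              Function.update C.hist p (none :: C.hist p)⟩ := by
          change Model.step (alg G k lam) b c p C = _
          unfold Model.step
          rw [hnext, act, if_neg hd, if_pos hw]
        rw [hrr, hrun]
        refine ⟨?_, ?_, ?_⟩
        · intro q
          by_cases hq : q = p
          · rw [hq, step_st_write G _ p R hw]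
            simp only [Function.update_self]
            rw [stOf, ih1]
          · rw [step_st_ne G _ p R hq]
            simp only [Function.update_of_ne hq]
            exact ih1 q
        · intro w x o
          by_cases hq : w = p
          · rw [hq, step_mem_write G _ p R hw]
            simp only [Function.update_self]
            by_cases hx : x = partner p (R.st p)
            · rw [hx]
              simp only [Function.update_self, true_and]
              by_cases ho : o = (R.st p).o
              · rw [ho]
                simp only [Function.update_self, if_true]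
                exact dcd_enc _
              · rw [Function.update_of_ne ho, if_neg ho]
                exact ih2 _ _ _
            · rw [Function.update_of_ne hx, if_neg (fun h => hx h.1)]
              exact ih2 _ _ _
          · rw [step_mem_ne G _ p R hq]
            simp only [Function.update_of_ne hq]
            exact ih2 _ _ _
        · intro q
          rw [steps_succ, hsc]
          by_cases hq : q = p
          · rw [hq]
            simp [ih3]
          · simp only [Function.update_of_ne hq]
            rw [if_neg (fun h => hq (Option.some.inj h).symm), ih3, add_zero]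
      · have hrun : Model.run (alg G k lam) b c σ (t + 1) =
            ⟨C.mem, Function.update C.hist p
              (some (C.mem (partner p (R.st p)) p (R.st p).o) :: C.hist p)⟩ := by
          change Model.step (alg G k lam) b c p C = _
          unfold Model.step
          rw [hnext, act, if_neg hd, if_neg hw]
        rw [hrr, hrun]
        refine ⟨?_, ?_, ?_⟩
        · intro q
          by_cases hq : q = p
          · rw [hq, step_st_read G _ p R hw]
            simp only [Function.update_self]
            rw [stOf, ih1, ih2]
            exact rd_own G k lam b c p _ _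
          · rw [step_st_ne G _ p R hq]
            simp only [Function.update_of_ne hq]
            exact ih1 q
        · intro w x o
          rw [step_mem_read G _ p R hw]
          exact ih2 _ _ _
        · intro q
          rw [steps_succ, hsc]
          by_cases hq : q = p
          · rw [hq]
            simp [ih3]
          · simp only [Function.update_of_ne hq]
            rw [if_neg (fun h => hq (Option.some.inj h).symm), ih3, add_zero]

theorem outputs_iff (t : ℕ) (p : Fin n) (v : Bool) :
    Model.Outputs (alg G k lam) b c σ t p v ↔
      ((rrun G k b (tk lam c) σ t).st p).d.dec = true ∧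
        ((rrun G k b (tk lam c) σ t).st p).d.pref = v := by
  unfold Model.Outputs
  change act p (stOf G k lam p (b p) (c p) ((Model.run (alg G k lam) b c σ t).hist p)) = _ ↔ _
  rw [(sim G k lam b c σ t).1 p]
  unfold act
  split_ifs with h1 h2
  · simp [h1]
  · simp [h1]
  · simp [h1]

theorem agreement_sure {t t' : ℕ} {i j : Fin n} {v v' : Bool}
    (h : Model.Outputs (alg G k lam) b c σ t i v)
    (h' : Model.Outputs (alg G k lam) b c σ t' j v') : v = v' := by
  rw [outputs_iff] at h h'
  obtain ⟨h1, h2⟩ := h
  obtain ⟨h1', h2'⟩ := h'
  rw [← h2, ← h2']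
  have := agree (G := G) (k := k) (tick := tk lam c) (b := b) (σ := sch G k b (tk lam c) σ)
    (sch_dec σ) (t := t) (t' := t') (p := i) (p' := j)
  rw [run_sch, run_sch] at this
  exact this h1 h1'

theorem validity_sure {t : ℕ} {i : Fin n} {v : Bool}
    (h : Model.Outputs (alg G k lam) b c σ t i v) : ∃ j, b j = v := by
  rw [outputs_iff] at h
  obtain ⟨h1, h2⟩ := h
  rw [← h2]
  have := valid (G := G) (k := k) (tick := tk lam c) (b := b) (σ := sch G k b (tk lam c) σ)
    (sch_dec σ) (t := t) (p := i)
  rw [run_sch] at this
  exact this h1

end sim

end Pool.Agent.MP217Upper
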