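import Mathlib

set_option autoImplicit false

/-!
# Layers of an asynchronous execution and expansion
-/

namespace Pool.Agent.MP217Upper

open Finset

section windows

variable {V : Type*} [DecidableEq V]

theorem exists_smallest (f : V → ℕ) (A : Finset V) (k : ℕ) (hk : k ≤ A.card) :
    ∃ B ⊆ A, B.card = k ∧ ∀ b ∈ B, ∀ a ∈ A \ B, f b ≤ f a := by
  induction k with
  | zero => exact ⟨∅, empty_subset _, rfl, by simp⟩
  | succ k ih =>
    obtain ⟨B, hBA, hBk, hB⟩ := ih (by omega)
    have hne : (A \ B).Nonempty := by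
      rw [← card_pos, card_sdiff_of_subset hBA]
      omega
    obtain ⟨a, ha, hmin⟩ := exists_min_image (A \ B) f hne
    rw [mem_sdiff] at ha
    refine ⟨insert a B, insert_subset ha.1 hBA, by rw [card_insert_of_notMem ha.2, hBk], ?_⟩
    intro b hb c hc
    rw [mem_sdiff, mem_insert, not_or] at hc
    have hc' : c ∈ A \ B := mem_sdiff.mpr ⟨hc.1, hc.2.2⟩
    rcases mem_insert.mp hb with rfl | hb
    · exact hmin c hc'
    · exact hB b hb c hc'

theorem windows (x : ℕ) (s : ℕ → V → ℕ) (J : ℕ) : ∀ (k0 : ℕ) (S : Finset V), J * x ≤ S.card →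
    ∃ X : ℕ → Finset V, (∀ j, j < J → X j ⊆ S ∧ (X j).card = x) ∧
      (∀ j, j + 1 < J → ∀ c ∈ X j, ∀ d ∈ X (j + 1), s (k0 + j + 1) c ≤ s (k0 + j + 1) d) := by
  induction J with
  | zero => intro k0 S _; exact ⟨fun _ => ∅, by simp, by simp⟩
  | succ J ih =>
    intro k0 S hS
    obtain ⟨B, hBS, hBx, hB⟩ := exists_smallest (s (k0 + 1)) S x (by nlinarith)
    obtain ⟨X', h1, h2⟩ := ih (k0 + 1) (S \ B) (by
      rw [card_sdiff_of_subset hBS, hBx]
      have : (J + 1) * x = J * x + x := by ring
      omega)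
    refine ⟨fun j => match j with | 0 => B | j + 1 => X' j, ?_, ?_⟩
    · intro j hj
      match j with
      | 0 => exact ⟨hBS, hBx⟩
      | j + 1 => exact ⟨(h1 j (by omega)).1.trans sdiff_subset, (h1 j (by omega)).2⟩
    · intro j hj c hc d hd
      match j with
      | 0 =>
        have := hB c hc d ((h1 0 (by omega)).1 hd)
        simpa using this
      | j + 1 =>
        have := h2 j (by omega) c hc d hd
        have e : k0 + (j + 1) + 1 = k0 + 1 + j + 1 := by omega
        rw [e]
        exact this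

end windows

section layered

variable {V : Type*} [DecidableEq V] {κ : Type*} [Preorder κ]

/-- The information flow in the layers of an asynchronous execution at level `l`. -/
structure Layered (N : ℕ → V → Finset V) (l cap J : ℕ) (X : ℕ → Finset V)
    (KA KB : ℕ → V → κ) (unc : ℕ → κ → Finset V) (team : κ → Finset V) : Prop where
  card : ∀ j, j < J → (X j).card = 6 * 2 ^ l
  hAB : ∀ j, j < J → ∀ c ∈ X j, KA j c ≤ KB j c
  flow : ∀ j, j + 1 < J → ∀ c ∈ X j, ∀ d ∈ X (j + 1), d ∈ N l c → KB j c ≤ KA (j + 1) d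
  own : ∀ j, j < J → ∀ c ∈ X j, Disjoint (N l c) (unc l (KB j c))
  task : ∀ j, j < J → ∀ c ∈ X j, ∀ ν, ν < l →
    (N ν c ∩ unc (ν + 1) (KA j c)).card ≤ cap → Disjoint (N ν c) (unc ν (KB j c))
  team_own : ∀ j, j < J → ∀ c ∈ X j, c ∈ team (KB j c)
  unc_anti : ∀ ν K K', K ≤ K' → unc ν K' ⊆ unc ν K
  team_mono : ∀ K K', K ≤ K' → team K ⊆ team K'
  join : ∀ ν, ν ≤ l → ∀ S Y : Finset V, 2 ^ ν ≤ S.card → 2 ^ ν ≤ Y.card →
    ∃ s ∈ S, ∃ y ∈ Y, y ∈ N ν s
  symm : ∀ ν x y, y ∈ N ν x → x ∈ N ν y
  deg : ∀ ν, ν < l → ∀ y, 2 ^ (ν + 1) * (N ν y).card ≤ 2 ^ l * cap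

namespace Layered

open Classical in
/-- The members of the layer `i` whose information reaches a member of `Z` in layer `j`. -/
noncomputable def Src (X : ℕ → Finset V) (KA KB : ℕ → V → κ) (i j : ℕ) (Z : Finset V) :
    Finset V :=
  (X i).filter fun c => ∃ d ∈ Z, KB i c ≤ KA j d

variable {N : ℕ → V → Finset V} {l cap J : ℕ} {X : ℕ → Finset V}
    {KA KB : ℕ → V → κ} {unc : ℕ → κ → Finset V} {team : κ → Finset V}

open Classical in
theorem nbr_card (H : Layered N l cap J X KA KB unc team) {A Z : Finset V} (hZ : 2 ^ l ≤ Z.card) :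
    A.card < (A.filter fun a => ∃ z ∈ Z, z ∈ N l a).card + 2 ^ l := by
  by_contra hcon
  push Not at hcon
  have hsplit := card_filter_add_card_filter_not (s := A) (fun a => ∃ z ∈ Z, z ∈ N l a)
  have hbig : 2 ^ l ≤ (A.filter fun a => ¬ ∃ z ∈ Z, z ∈ N l a).card := by omega
  obtain ⟨s, hs, y, hy, hsy⟩ := H.join l le_rfl _ _ hbig hZ
  rw [mem_filter] at hs
  exact hs.2 ⟨y, hy, hsy⟩

open Classical in
theorem backward (H : Layered N l cap J X KA KB unc team) (i k : ℕ) (hk : i + (k + 1) < J) :
    ∃ Q ⊆ X (i + (k + 1)), Q.card < 2 ^ l ∧ ∀ Z ⊆ X (i + (k + 1)) \ Q, 2 ^ (l - k) ≤ Z.card →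
      5 * 2 ^ l < (Src X KA KB i (i + (k + 1)) Z).card := by
  induction k with
  | zero =>
    refine ⟨∅, empty_subset _, by simp, ?_⟩
    intro Z hZ hZc
    simp only [Nat.sub_zero] at hZc
    have h1 := H.nbr_card (A := X i) hZc
    rw [H.card i (by omega)] at h1
    have h2 : ((X i).filter fun a => ∃ z ∈ Z, z ∈ N l a) ⊆ Src X KA KB i (i + 1) Z := by
      intro a ha
      rw [mem_filter] at ha
      obtain ⟨haX, z, hz, haz⟩ := ha
      rw [Src, mem_filter]
      refine ⟨haX, z, hz, ?_⟩
      have hzX : z ∈ X (i + 1) := by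
        have := hZ hz
        rw [mem_sdiff] at this
        exact this.1
      exact H.flow i (by omega) a haX z hzX haz
    have h3 := card_le_card h2
    simp only [zero_add]
    omega
  | succ k ih =>
    obtain ⟨Q, hQX, hQc, hQ⟩ := ih (by omega)
    set X' := X (i + (k + 1)) \ Q with hX'
    have hX'c : 5 * 2 ^ l < X'.card := by
      rw [hX', card_sdiff_of_subset hQX, H.card _ (by omega)]
      omega
    set Xn := X (i + (k + 1 + 1)) with hXn
    have hXnc : Xn.card = 6 * 2 ^ l := H.card _ (by omega)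
    -- the neighbourhood of a set in `X'`
    let nb : Finset V → Finset V := fun Z => X'.filter fun a => ∃ z ∈ Z, z ∈ N l a
    let bad : Finset (Finset V) := Xn.powerset.filter fun Z =>
      Z.card < 2 ^ l ∧ (nb Z).card ≤ 2 * Z.card
    have hbne : bad.Nonempty := by
      refine ⟨∅, ?_⟩
      simp [bad, nb]
    obtain ⟨Q', hQ', hmax⟩ := exists_max_image bad Finset.card hbne
    simp only [bad, mem_filter, mem_powerset] at hQ'
    obtain ⟨hQ'X, hQ'c, hQ'nb⟩ := hQ'
    refine ⟨Q', hQ'X, hQ'c, ?_⟩
    intro Z hZ hZc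
    set θ := 2 ^ (l - (k + 1)) with hθ
    have hθ1 : 1 ≤ θ := Nat.one_le_two_pow
    have hθl : θ ≤ 2 ^ l := Nat.pow_le_pow_right (by norm_num) (by omega)
    obtain ⟨Z0, hZ0Z, hZ0c⟩ := exists_subset_card_eq hZc
    have hZ0 : Z0 ⊆ Xn \ Q' := hZ0Z.trans hZ
    have hZ0X : Z0 ⊆ Xn := hZ0.trans sdiff_subset
    have hdisj : Disjoint Q' Z0 := by
      rw [disjoint_left]
      intro a ha hb
      have := hZ0 hb
      rw [mem_sdiff] at this
      exact this.2 ha
    have hexp : 2 * θ < (nb Z0).card := by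
      by_contra hcon
      push Not at hcon
      have hU : (nb (Q' ∪ Z0)).card ≤ 2 * (Q' ∪ Z0).card := by
        have hsub : nb (Q' ∪ Z0) ⊆ nb Q' ∪ nb Z0 := by
          intro a ha
          simp only [nb, mem_filter, mem_union] at ha ⊢
          obtain ⟨haX, z, hz | hz, haz⟩ := ha
          · left; exact ⟨haX, z, hz, haz⟩
          · right; exact ⟨haX, z, hz, haz⟩
        calc (nb (Q' ∪ Z0)).card ≤ (nb Q' ∪ nb Z0).card := card_le_card hsub
          _ ≤ (nb Q').card + (nb Z0).card := card_union_le _ _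
          _ ≤ 2 * Q'.card + 2 * Z0.card := by omega
          _ = 2 * (Q' ∪ Z0).card := by rw [card_union_of_disjoint hdisj]; ring
      have hUc : (Q' ∪ Z0).card = Q'.card + θ := by
        rw [card_union_of_disjoint hdisj, hZ0c]
      by_cases hlt : (Q' ∪ Z0).card < 2 ^ l
      · have hmem : Q' ∪ Z0 ∈ bad := by
          simp only [bad, mem_filter, mem_powerset]
          exact ⟨union_subset hQ'X hZ0X, hlt, hU⟩
        have := hmax _ hmem
        omega
      · push Not at hlt
        have := H.nbr_card (A := X') hlt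
        have hnb : (X'.filter fun a => ∃ z ∈ Q' ∪ Z0, z ∈ N l a) = nb (Q' ∪ Z0) := rfl
        rw [hnb] at this
        omega
    have hθk : 2 ^ (l - k) ≤ 2 * θ := by
      rw [hθ]
      rcases Nat.lt_or_ge k l with h | h
      · have e : l - k = (l - (k + 1)) + 1 := by omega
        rw [e, pow_succ]
        omega
      · have e : l - k = 0 := by omega
        rw [e, pow_zero]
        omega
    have hS := hQ (nb Z0) (filter_subset _ _) (by omega)
    refine hS.trans_le (card_le_card ?_)
    intro c hc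
    rw [Src, mem_filter] at hc ⊢
    obtain ⟨hcX, z', hz', hcz'⟩ := hc
    simp only [nb, mem_filter] at hz'
    obtain ⟨hz'X, z, hz, hz'z⟩ := hz'
    rw [hX', mem_sdiff] at hz'X
    refine ⟨hcX, z, hZ0Z hz, ?_⟩
    have h1 : KA (i + (k + 1)) z' ≤ KB (i + (k + 1)) z' := H.hAB _ (by omega) z' hz'X.1
    have h2 : KB (i + (k + 1)) z' ≤ KA (i + (k + 1) + 1) z :=
      H.flow _ (by omega) z' hz'X.1 z (hZ0X hz) hz'z
    exact (hcz'.trans h1).trans h2

open Classical in
/-- A member of layer `i` outside of a small set whose information reaches almost everybody in the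
late layers. -/
theorem center (H : Layered N l cap J X KA KB unc team) (i : ℕ) (hi : i + (l + 1) < J)
    (Q' : Finset V) (hQ'c : Q'.card < 2 * 2 ^ l) :
    ∃ c ∈ X i, c ∉ Q' ∧ ∀ j, i + (l + 2) ≤ j → j < J →
      ((X j).filter fun d => ¬ KB i c ≤ KA j d).card < 2 ^ l := by
  obtain ⟨Q, hQX, hQc, hQ⟩ := H.backward i l hi
  set j0 := i + (l + 1) with hj0
  set Y := X j0 \ Q with hY
  have hYc : 5 * 2 ^ l < Y.card := by
    rw [hY, card_sdiff_of_subset hQX, H.card _ hi]
    omega
  have hYle : Y.card ≤ 6 * 2 ^ l := by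
    rw [← H.card _ hi]
    exact card_le_card sdiff_subset
  -- each `d ∈ Y` is missed by few `c`
  have hmiss : ∀ d ∈ Y, ((X i).filter fun c => ¬ KB i c ≤ KA j0 d).card < 2 ^ l := by
    intro d hd
    have h1 := hQ {d} (by simpa using hd) (by simp)
    have h2 : Src X KA KB i j0 {d} = (X i).filter fun c => KB i c ≤ KA j0 d := by
      rw [Src]
      apply filter_congr
      intro c _
      simp
    rw [h2] at h1
    have hsplit := card_filter_add_card_filter_not (s := X i) (fun c => KB i c ≤ KA j0 d)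
    rw [H.card i (by omega)] at hsplit
    omega
  -- double counting
  have hex : ∃ c ∈ X i \ Q', (Y.filter fun d => ¬ KB i c ≤ KA j0 d).card < 2 * 2 ^ l := by
    by_contra hcon
    push Not at hcon
    have hXQ : 4 * 2 ^ l < (X i \ Q').card := by
      have := le_card_sdiff Q' (X i)
      rw [H.card i (by omega)] at this
      omega
    have h1 : (X i \ Q').card * (2 * 2 ^ l) ≤
        ∑ c ∈ X i \ Q', (Y.filter fun d => ¬ KB i c ≤ KA j0 d).card := by
      rw [← smul_eq_mul, ← sum_const]
      exact sum_le_sum hcon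
    have h2 : ∑ c ∈ X i \ Q', (Y.filter fun d => ¬ KB i c ≤ KA j0 d).card
        = ∑ d ∈ Y, ((X i \ Q').filter fun c => ¬ KB i c ≤ KA j0 d).card :=
      sum_card_bipartiteAbove_eq_sum_card_bipartiteBelow _
    have h3 : ∑ d ∈ Y, ((X i \ Q').filter fun c => ¬ KB i c ≤ KA j0 d).card ≤ Y.card * 2 ^ l := by
      rw [← smul_eq_mul, ← sum_const]
      apply sum_le_sum
      intro d hd
      refine le_trans (card_le_card ?_) (hmiss d hd).le
      exact filter_subset_filter _ sdiff_subset
    have hp : 0 < 2 ^ l := by positivity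
    nlinarith
  obtain ⟨c, hc, hcY⟩ := hex
  rw [mem_sdiff] at hc
  refine ⟨c, hc.1, hc.2, ?_⟩
  have hreach0 : 2 ^ l ≤ ((X j0).filter fun d => KB i c ≤ KA j0 d).card := by
    have hsplit := card_filter_add_card_filter_not (s := Y) (fun d => KB i c ≤ KA j0 d)
    have hsub : (Y.filter fun d => KB i c ≤ KA j0 d) ⊆ (X j0).filter fun d => KB i c ≤ KA j0 d :=
      filter_subset_filter _ sdiff_subset
    have := card_le_card hsub
    omega
  have hstep : ∀ j, i < j → j + 1 < J → 2 ^ l ≤ ((X j).filter fun d => KB i c ≤ KA j d).card →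
      ((X (j + 1)).filter fun d => ¬ KB i c ≤ KA (j + 1) d).card < 2 ^ l := by
    intro j hij hj hR
    by_contra hcon
    push Not at hcon
    obtain ⟨s, hs, y, hy, hsy⟩ := H.join l le_rfl _ _ hR hcon
    rw [mem_filter] at hs hy
    exact hy.2 ((hs.2.trans (H.hAB j (by omega) s hs.1)).trans
      (H.flow j hj s hs.1 y hy.1 hsy))
  intro j hj
  induction j, hj using Nat.le_induction with
  | base =>
    intro hjJ
    exact hstep j0 (by omega) (by omega) hreach0
  | succ j hj ih =>
    intro hjJ
    have h1 := ih (by omega)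
    have hsplit := card_filter_add_card_filter_not (s := X j) (fun d => KB i c ≤ KA j d)
    rw [H.card j (by omega)] at hsplit
    exact hstep j (by omega) hjJ (by omega)

open Classical in
/-- The stages of the coverage argument. -/
theorem stage (H : Layered N l cap J X KA KB unc team) (μ : ℕ) (hμ : μ ≤ l)
    (hJ : (μ + 1) * (2 * l + 3) ≤ J) :
    ∃ K : κ, 2 ^ l ≤ (team K).card ∧ (∀ ν, l - μ ≤ ν → ν ≤ l → (unc ν K).card < 2 ^ ν) ∧
      ∀ j, (μ + 1) * (2 * l + 3) ≤ j → j < J →
        ((X j).filter fun d => ¬ K ≤ KA j d).card < 2 ^ l := by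
  induction μ with
  | zero =>
    simp only [zero_add, one_mul] at hJ ⊢
    -- layer 0, layer l + 1
    obtain ⟨Q, hQX, hQc, hQ⟩ := H.backward 0 l (by omega)
    simp only [zero_add] at hQX hQ
    obtain ⟨c, hcX, hcQ, hc⟩ := H.center (l + 1) (by omega) Q (by omega)
    refine ⟨KA (l + 1) c, ?_, ?_, ?_⟩
    · have h1 := hQ {c} (by simp [hcX, hcQ]) (by simp)
      have h2 : Src X KA KB 0 (l + 1) {c} ⊆ team (KA (l + 1) c) := by
        intro a ha
        rw [Src, mem_filter] at ha
        obtain ⟨haX, d, hd, hle⟩ := ha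
        rw [mem_singleton] at hd
        subst hd
        exact H.team_mono _ _ hle (H.team_own 0 (by omega) a haX)
      have := card_le_card h2
      omega
    · intro ν h1 h2
      have hν : ν = l := by omega
      subst hν
      by_contra hcon
      push Not at hcon
      have h1 := hQ {c} (by simp [hcX, hcQ]) (by simp)
      obtain ⟨s, hs, y, hy, hsy⟩ := H.join ν le_rfl
        (Src X KA KB 0 (ν + 1) {c}) _ (by omega) hcon
      rw [Src, mem_filter] at hs
      obtain ⟨hsX, d, hd, hle⟩ := hs
      rw [mem_singleton] at hd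
      subst hd
      have hdis := H.own 0 (by omega) s hsX
      rw [disjoint_left] at hdis
      exact hdis hsy (H.unc_anti _ _ _ hle hy)
    · intro j hj1 hj2
      have h1 := hc j (by omega) hj2
      refine lt_of_le_of_lt (card_le_card ?_) h1
      intro d hd
      rw [mem_filter] at hd ⊢
      exact ⟨hd.1, fun h => hd.2 ((H.hAB _ (by omega) c hcX).trans h)⟩
  | succ μ ih =>
    have e1 : (μ + 1 + 1) * (2 * l + 3) = (μ + 1) * (2 * l + 3) + (2 * l + 3) := by ring
    rw [e1] at hJ ⊢
    set j0 := (μ + 1) * (2 * l + 3) with hj0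
    obtain ⟨K, hK1, hK2, hK3⟩ := ih (by omega) (by omega)
    set ν0 := l - (μ + 1) with hν0
    have hν0l : ν0 < l := by omega
    -- backward-good members of layer `j0 + l + 1`
    obtain ⟨Q, hQX, hQc, hQ⟩ := H.backward j0 l (by omega)
    have hbad1 := hK3 (j0 + (l + 1)) (by omega) (by omega)
    obtain ⟨c, hcX, hcQ, hc⟩ := H.center (j0 + (l + 1)) (by omega)
      (Q ∪ (X (j0 + (l + 1))).filter fun d => ¬ K ≤ KA (j0 + (l + 1)) d)
      (lt_of_le_of_lt (card_union_le _ _) (by omega))
    rw [mem_union, not_or, mem_filter, not_and, not_not] at hcQ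
    obtain ⟨hcQ, hcK⟩ := hcQ
    have hcK := hcK hcX
    refine ⟨KA (j0 + (l + 1)) c, ?_, ?_, ?_⟩
    · exact hK1.trans (card_le_card (H.team_mono _ _ hcK))
    · intro ν h1 h2
      rcases Nat.eq_or_lt_of_le h1 with h1 | h1
      · subst h1
        by_contra hcon
        push Not at hcon
        -- the members of layer `j0` that are reached from, know `K`, and have few tasks
        have hS := hQ {c} (by simp [hcX, hcQ]) (by simp)
        have hbad0 := hK3 j0 le_rfl (by omega)
        let U := unc (ν0 + 1) K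
        have hU : U.card < 2 ^ (ν0 + 1) := hK2 (ν0 + 1) (by omega) (by omega)
        have hheavy : ((X j0).filter fun a => ¬ (N ν0 a ∩ U).card ≤ cap).card < 2 ^ l := by
          by_contra hcon2
          rw [not_lt] at hcon2
          have g1 : ((X j0).filter fun a => ¬ (N ν0 a ∩ U).card ≤ cap).card * (cap + 1) ≤
              ∑ a ∈ (X j0).filter fun a => ¬ (N ν0 a ∩ U).card ≤ cap, (N ν0 a ∩ U).card := by
            rw [← smul_eq_mul, ← sum_const]
            apply sum_le_sum
            intro a ha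
            rw [mem_filter] at ha
            omega
          have g2 : ∑ a ∈ (X j0).filter fun a => ¬ (N ν0 a ∩ U).card ≤ cap, (N ν0 a ∩ U).card
              = ∑ y ∈ U, (((X j0).filter fun a => ¬ (N ν0 a ∩ U).card ≤ cap).filter
                  fun a => y ∈ N ν0 a).card := by
            have : ∀ a, (N ν0 a ∩ U) = U.filter fun y => y ∈ N ν0 a := by
              intro a
              ext y
              simp [and_comm]
            simp_rw [this]
            exact sum_card_bipartiteAbove_eq_sum_card_bipartiteBelow _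
          have g3 : ∑ y ∈ U, (((X j0).filter fun a => ¬ (N ν0 a ∩ U).card ≤ cap).filter
                  fun a => y ∈ N ν0 a).card ≤ ∑ y ∈ U, (N ν0 y).card := by
            apply sum_le_sum
            intro y _
            apply card_le_card
            intro a ha
            rw [mem_filter] at ha
            exact H.symm _ _ _ ha.2
          have g4 : 2 ^ (ν0 + 1) * ∑ y ∈ U, (N ν0 y).card ≤ U.card * (2 ^ l * cap) := by
            rw [mul_sum, ← smul_eq_mul (a := U.card), ← sum_const]
            apply sum_le_sum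
            intro y _
            exact H.deg ν0 hν0l y
          have g5 : 2 ^ (ν0 + 1) * (2 ^ l * (cap + 1)) ≤ U.card * (2 ^ l * cap) := by
            calc 2 ^ (ν0 + 1) * (2 ^ l * (cap + 1))
                ≤ 2 ^ (ν0 + 1) *
                  (((X j0).filter fun a => ¬ (N ν0 a ∩ U).card ≤ cap).card * (cap + 1)) := by
                  gcongr
              _ ≤ 2 ^ (ν0 + 1) * ∑ y ∈ U, (N ν0 y).card := by
                  apply Nat.mul_le_mul_left
                  rw [g2] at g1
                  exact g1.trans g3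
              _ ≤ _ := g4
          have hp : 0 < 2 ^ l := by positivity
          have g6 : U.card * (2 ^ l * cap) ≤ 2 ^ (ν0 + 1) * (2 ^ l * cap) :=
            Nat.mul_le_mul_right _ hU.le
          have g7 : 2 ^ (ν0 + 1) * (2 ^ l * cap) < 2 ^ (ν0 + 1) * (2 ^ l * (cap + 1)) := by
            apply Nat.mul_lt_mul_of_pos_left _ (by positivity)
            apply Nat.mul_lt_mul_of_pos_left _ hp
            omega
          omega
        let G := (Src X KA KB j0 (j0 + (l + 1)) {c}) \
          (((X j0).filter fun d => ¬ K ≤ KA j0 d) ∪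
            ((X j0).filter fun a => ¬ (N ν0 a ∩ U).card ≤ cap))
        have hG : 2 ^ ν0 ≤ G.card := by
          have h3 : 2 ^ ν0 ≤ 2 ^ l := Nat.pow_le_pow_right (by norm_num) (by omega)
          have h4 : (Src X KA KB j0 (j0 + (l + 1)) {c}).card -
              (((X j0).filter fun d => ¬ K ≤ KA j0 d) ∪
                ((X j0).filter fun a => ¬ (N ν0 a ∩ U).card ≤ cap)).card ≤ G.card :=
            le_card_sdiff _ _
          have h5 := card_union_le ((X j0).filter fun d => ¬ K ≤ KA j0 d)
            ((X j0).filter fun a => ¬ (N ν0 a ∩ U).card ≤ cap)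
          omega
        obtain ⟨s, hs, y, hy, hsy⟩ := H.join ν0 hν0l.le G _ hG hcon
        simp only [G, mem_sdiff, mem_union, mem_filter, not_or, not_and, not_not, Src,
          mem_singleton] at hs
        obtain ⟨⟨hsX, d, rfl, hle⟩, hs1, hs2⟩ := hs
        have hs1 := hs1 hsX
        have hs2 := hs2 hsX
        have hdis := H.task j0 (by omega) s hsX ν0 hν0l (by
          refine le_trans (card_le_card ?_) hs2
          exact inter_subset_inter_left (H.unc_anti _ _ _ hs1))
        rw [disjoint_left] at hdis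
        exact hdis hsy (H.unc_anti _ _ _ hle hy)
      · exact lt_of_le_of_lt (card_le_card (H.unc_anti _ _ _ hcK)) (hK2 ν (by omega) h2)
    · intro j hj1 hj2
      have h1 := hc j (by omega) hj2
      refine lt_of_le_of_lt (card_le_card ?_) h1
      intro d hd
      rw [mem_filter] at hd ⊢
      exact ⟨hd.1, fun h => hd.2 ((H.hAB _ (by omega) c hcX).trans h)⟩

/-- In the last layer somebody has a certificate. -/
theorem certificate (H : Layered N l cap J X KA KB unc team)
    (hJ : (l + 1) * (2 * l + 3) < J) :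
    ∃ d ∈ X (J - 1), 2 ^ l ≤ (team (KA (J - 1) d)).card ∧
      ∀ ν, ν ≤ l → (unc ν (KA (J - 1) d)).card < 2 ^ ν := by
  classical
  obtain ⟨K, hK1, hK2, hK3⟩ := H.stage l le_rfl hJ.le
  have h1 := hK3 (J - 1) (by omega) (by omega)
  have h2 := H.card (J - 1) (by omega)
  have hsplit := card_filter_add_card_filter_not (s := X (J - 1)) (fun d => K ≤ KA (J - 1) d)
  have hpos : 0 < ((X (J - 1)).filter fun d => K ≤ KA (J - 1) d).card := by
    have hp : 0 < 2 ^ l := by positivity
    omega
  obtain ⟨d, hd⟩ := card_pos.mp hpos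
  rw [mem_filter] at hd
  refine ⟨d, hd.1, hK1.trans (card_le_card (H.team_mono _ _ hd.2)), ?_⟩
  intro ν hν
  exact lt_of_le_of_lt (card_le_card (H.unc_anti _ _ _ hd.2)) (hK2 ν (by omega) hν)

end Layered

end layered

end Pool.Agent.MP217Upper
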