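import Pool.Agent.MP217Upper.Prob

set_option autoImplicit false

/-!
# The upper bound
-/

namespace Pool.Agent.MP217Upper

open Finset MeasureTheory ProbabilityTheory
open scoped ENNReal

attribute [local instance] Classical.propDecidable

section main

variable {n : ℕ} {G : Geo n} {k lam J : ℕ}

/-- The levels at which `p` may hold a ticket in round `r`. -/
noncomputable def lev (G : Geo n) (k : ℕ) (σ : ℕ → Option (Fin n)) (r : ℕ) (p : Fin n) :
    Finset ℕ :=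
  (range (G.L + 1)).filter fun l => ∃ i, Reach G (ref n) σ p (r * (k + 3)) i ∧ G.lvl i = l

theorem card_lev (hG : G.Good J) (σ : ℕ → Option (Fin n)) (r : ℕ) {l : ℕ} (hl : l ≤ G.L) :
    (univ.filter fun p => l ∈ lev G k σ r p).card ≤ 12 * J * 2 ^ l := by
  have hR := hG.R_pos
  have hlvl : G.lvl ((G.L - l) * G.R) = l := by
    unfold Geo.lvl
    rw [Nat.mul_div_cancel _ hR]
    omega
  have h1 := card_reach (G := G) (Δ := ref n) (σ := σ) hG (r * (k + 3)) ((G.L - l) * G.R)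
  rw [hlvl] at h1
  refine (card_le_card ?_).trans (h1.trans (le_of_eq (by rw [pow_succ]; ring)))
  intro p hp
  simp only [mem_filter, mem_univ, true_and, lev] at hp ⊢
  obtain ⟨_, i, hi, hl'⟩ := hp
  refine reach_down hi ?_
  unfold Geo.lvl at hl'
  have h2 : G.L - l ≤ i / G.R := by omega
  exact (Nat.le_div_iff_mul_le hR).mp h2

theorem sum_lev (hG : G.Good J) (hlam : 24 * J * (G.L + 1) ≤ 2 ^ lam)
    (σ : ℕ → Option (Fin n)) (r : ℕ) :
    ∑ p, ∑ l ∈ lev G k σ r p, (2⁻¹ : ℝ≥0∞) ^ (l + lam) ≤ 2⁻¹ := by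
  have hinv : ∀ m : ℕ, (2 : ℝ≥0∞) ^ m * (2⁻¹ : ℝ≥0∞) ^ m = 1 := by
    intro m
    rw [← mul_pow, ENNReal.mul_inv_cancel (by simp) (by simp), one_pow]
  have h1 : ∑ p, ∑ l ∈ lev G k σ r p, (2⁻¹ : ℝ≥0∞) ^ (l + lam) =
      ∑ l ∈ range (G.L + 1), ((univ.filter fun p => l ∈ lev G k σ r p).card : ℝ≥0∞) *
        (2⁻¹ : ℝ≥0∞) ^ (l + lam) := by
    have : ∀ p, ∑ l ∈ lev G k σ r p, (2⁻¹ : ℝ≥0∞) ^ (l + lam) =
        ∑ l ∈ range (G.L + 1), if l ∈ lev G k σ r p then (2⁻¹ : ℝ≥0∞) ^ (l + lam) else 0 := by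
      intro p
      rw [← sum_filter]
      apply sum_congr _ fun _ _ => rfl
      ext l
      simp only [mem_filter, lev]
      tauto
    simp only [this]
    rw [sum_comm]
    apply sum_congr rfl
    intro l _
    rw [← sum_filter, sum_const, nsmul_eq_mul]
  rw [h1]
  have h2 : ∀ l ∈ range (G.L + 1), ((univ.filter fun p => l ∈ lev G k σ r p).card : ℝ≥0∞) *
      (2⁻¹ : ℝ≥0∞) ^ (l + lam) ≤ (12 * J : ℕ) * (2⁻¹ : ℝ≥0∞) ^ lam := by
    intro l hl
    rw [mem_range] at hl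
    have h3 := card_lev (k := k) hG σ r (l := l) (by omega)
    have h4 : ((univ.filter fun p => l ∈ lev G k σ r p).card : ℝ≥0∞) ≤
        ((12 * J * 2 ^ l : ℕ) : ℝ≥0∞) := by exact_mod_cast h3
    calc _ ≤ ((12 * J * 2 ^ l : ℕ) : ℝ≥0∞) * (2⁻¹ : ℝ≥0∞) ^ (l + lam) := by gcongr
      _ = (12 * J : ℕ) * ((2 : ℝ≥0∞) ^ l * (2⁻¹ : ℝ≥0∞) ^ l) * (2⁻¹ : ℝ≥0∞) ^ lam := by
          rw [pow_add]
          push_cast
          ring
      _ = _ := by rw [hinv, mul_one]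
  refine (sum_le_sum h2).trans ?_
  rw [sum_const, card_range, nsmul_eq_mul, ← mul_assoc]
  have h5 : (((G.L + 1 : ℕ) : ℝ≥0∞) * ((12 * J : ℕ) : ℝ≥0∞)) * 2 ≤ 2 ^ lam := by
    have : (((G.L + 1) * (12 * J) * 2 : ℕ) : ℝ≥0∞) ≤ ((2 ^ lam : ℕ) : ℝ≥0∞) := by
      have h6 : (G.L + 1) * (12 * J) * 2 ≤ 2 ^ lam := by
        calc (G.L + 1) * (12 * J) * 2 = 24 * J * (G.L + 1) := by ring
          _ ≤ _ := hlam
      exact_mod_cast h6
    push_cast at this ⊢
    exact this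
  have h7 : ((G.L + 1 : ℕ) : ℝ≥0∞) * ((12 * J : ℕ) : ℝ≥0∞) ≤ 2 ^ lam * 2⁻¹ := by
    calc ((G.L + 1 : ℕ) : ℝ≥0∞) * ((12 * J : ℕ) : ℝ≥0∞)
        = (((G.L + 1 : ℕ) : ℝ≥0∞) * ((12 * J : ℕ) : ℝ≥0∞)) * (2 * 2⁻¹) := by
          rw [ENNReal.mul_inv_cancel (by simp) (by simp), mul_one]
      _ = (((G.L + 1 : ℕ) : ℝ≥0∞) * ((12 * J : ℕ) : ℝ≥0∞)) * 2 * 2⁻¹ := by rw [mul_assoc, mul_assoc, mul_assoc]
      _ ≤ _ := by gcongr
  calc ((G.L + 1 : ℕ) : ℝ≥0∞) * ((12 * J : ℕ) : ℝ≥0∞) * (2⁻¹ : ℝ≥0∞) ^ lam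
      ≤ (2 ^ lam * 2⁻¹) * (2⁻¹ : ℝ≥0∞) ^ lam := by gcongr
    _ = (2 ^ lam * (2⁻¹ : ℝ≥0∞) ^ lam) * 2⁻¹ := by ring
    _ = 2⁻¹ := by rw [hinv, one_mul]

/-- The success event of a round. -/
theorem exists_event (hG : G.Good J) (hk : n ≤ 2 ^ k) (hlam : 24 * J * (G.L + 1) ≤ 2 ^ lam)
    (σ : ℕ → Option (Fin n)) (r : ℕ) : ∃ E : Set (Fin n → ℕ → Bool),
    (∀ M : MeasurableSpace (Fin n → ℕ → Bool),
      (∀ p j, MeasurableSet[M] {c | c p (Nat.pair r j) = true}) → MeasurableSet[M] E) ∧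
    (2⁻¹ : ℝ≥0∞) ^ (lam + 1) ≤ Model.coins n E ∧
    ∀ c ∈ E, ∀ b, ∃ v, AllPref G k (tk lam c) b σ (r * (k + 3) + k + 1) v := by
  by_cases hne : ∃ p, Reach G (ref n) σ p (r * (k + 3) + k + 1) 0
  · obtain ⟨l, hl, A, hA, h⟩ := core_all G σ hk hne
    refine ⟨Win lam r l A (lev G k σ r), fun M hM => meas_Win lam r l A _ M hM, ?_, ?_⟩
    · apply coins_Win lam r l A _ hA
      · intro a ha
        -- `a` has reached a pass at level `l`
        obtain ⟨i, hi, h'⟩ := h (rule G k (fun _ _ _ => false) (fun _ => false)) a ha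
        obtain ⟨p, t, hp⟩ := hne
        obtain ⟨d, hd⟩ := h' t p ((at_iff G _ (ref n) σ t p _ _).mpr hp)
        obtain ⟨t', _, h2, h3, _⟩ :=
          (genuine_run (G := G) (Δ := rule G k (fun _ _ _ => false) (fun _ => false))
            (σ := σ) t).1 p a _ i d hd
        simp only [lev, mem_filter, mem_range]
        exact ⟨by omega, i, (reach_iff G _ (ref n) σ _ _ _).mp ⟨t', h2, h3⟩, hi⟩
      · exact sum_lev hG hlam σ r
    · rintro c ⟨a, ha, h1, h2⟩ b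
      refine succ_of_tick (A := A) h ha h1 ?_
      intro p hp i hi
      refine h2 p hp (G.lvl i) ?_
      simp only [lev, mem_filter, mem_range]
      exact ⟨by have := lvl_le (G := G) i; omega, i, hi, rfl⟩
  · refine ⟨Set.univ, fun M _ => MeasurableSet.univ, ?_, ?_⟩
    · rw [measure_univ]
      exact pow_le_one' (by simp) _
    · intro c _ b
      refine ⟨true, fun t p hA => ?_⟩
      exact absurd ⟨p, t, (at_iff G _ (ref n) σ t p _ _).mp hA⟩ hne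

variable (G k lam)

theorem solves (hG : G.Good J) (hk : n ≤ 2 ^ k) (hlam : 24 * J * (G.L + 1) ≤ 2 ^ lam) :
    Model.Solves (alg G k lam) where
  agreement b σ := Filter.Eventually.of_forall fun c _ _ _ _ _ _ h h' =>
    agreement_sure G k lam b c σ h h'
  validity b σ := Filter.Eventually.of_forall fun c _ _ _ h => validity_sure G k lam b c σ h
  wait_free b σ p hinf := by
    choose E hE1 hE2 hE3 using exists_event hG hk hlam (fun t => some (σ t))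
    filter_upwards [ae_exists hE1 hE2 (by simp)] with c hc
    obtain ⟨r, hr⟩ := hc
    obtain ⟨t, ht⟩ := decides_of_succ hG (hE3 r c hr b) p hinf
    exact ⟨t, _, (outputs_iff G k lam b c σ t p _).mpr ⟨ht, rfl⟩⟩

theorem cost_le (hG : G.Good J) (hk : n ≤ 2 ^ k) (hlam : 24 * J * (G.L + 1) ≤ 2 ^ lam)
    (hQ : 0 < G.Q) :
    Model.cost (alg G k lam) ≤
      (((k + 3) * ((G.L * G.R + 1) * (24 * J * (3 * G.L + 1) * G.Q)) * 2 ^ (lam + 1) : ℕ) :
        ℝ≥0∞) := by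
  unfold Model.cost
  refine iSup_le fun b => iSup_le fun σ => ?_
  choose E hE1 hE2 hE3 using exists_event hG hk hlam (fun t => some (σ t))
  set B := (G.L * G.R + 1) * (24 * J * (3 * G.L + 1) * G.Q) with hB
  have hBpos : 0 < B := by
    have hJ : 0 < J := by have := hG.hJ; omega
    rw [hB]
    positivity
  have hF : ∀ c r, c ∈ E r → Model.totalWork (alg G k lam) b c σ ≤
      (((k + 3) * B : ℕ) : ℝ≥0∞) * (r + 1) := by
    intro c r hr
    unfold Model.totalWork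
    refine iSup_le fun t => ?_
    have h1 : ∑ i, ((Model.run (alg G k lam) b c σ t).hist i).length ≤
        (r + 1) * (k + 3) * B := by
      have h2 := total_steps (G := G) (Δ := rule G k (tk lam c) b)
        (σ := sch G k b (tk lam c) σ) hG t ((r + 1) * (k + 3))
        (fun t' _ p hp => bound_of_succ (hE3 r c hr b) t' p hp)
      refine le_trans (le_of_eq ?_) h2
      apply sum_congr rfl
      intro p _
      exact (sim G k lam b c σ t).2.2 p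
    calc ((∑ i, ((Model.run (alg G k lam) b c σ t).hist i).length : ℕ) : ℝ≥0∞)
        ≤ (((r + 1) * (k + 3) * B : ℕ) : ℝ≥0∞) := by exact_mod_cast h1
      _ = _ := by push_cast; ring
  have h1 := lintegral_bound hE1 hE2
    (F := fun c => Model.totalWork (alg G k lam) b c σ) (K := (((k + 3) * B : ℕ) : ℝ≥0∞))
    (by
      have : (k + 3) * B ≠ 0 := by positivity
      exact_mod_cast this) hF
  refine h1.trans (le_of_eq ?_)
  rw [← ENNReal.inv_pow, inv_inv]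
  push_cast
  ring

end main

theorem arith_J (L : ℕ) : (L + 1) * (2 * L + 3) + 1 ≤ 4 * (L + 1) ^ 2 := by nlinarith

theorem arith_Q (n L : ℕ) (h : 2 ^ L ≤ n) : 2 ^ L ≤ 14 * n * (L + 1) := by nlinarith

theorem arith_main (n L J X Y : ℕ) (hJle : J ≤ 4 * (L + 1) ^ 2) (hX : X = 24 * J * (L + 1))
    (hY : Y ≤ 4 * X) :
    (L + 1 + 3) * ((L * (3 * J) + 1) * (24 * J * (3 * L + 1) * (14 * n * (L + 1)))) * Y ≤
      74317824 * n * (L + 1) ^ 11 := by
  have hXle : X ≤ 96 * (L + 1) ^ 3 := by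
    calc X = 24 * J * (L + 1) := hX
      _ ≤ 24 * (4 * (L + 1) ^ 2) * (L + 1) := by gcongr
      _ = _ := by ring
  have h1 : L + 1 + 3 ≤ 4 * (L + 1) := by omega
  have h2 : L * (3 * J) + 1 ≤ 12 * (L + 1) ^ 3 := by
    calc L * (3 * J) + 1 ≤ L * (3 * (4 * (L + 1) ^ 2)) + 1 := by gcongr
      _ ≤ L * (3 * (4 * (L + 1) ^ 2)) + 12 * (L + 1) ^ 2 := by
          have : 1 ≤ 12 * (L + 1) ^ 2 := Nat.succ_le_of_lt (by positivity)
          omega
      _ = _ := by ring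
  have h3 : 24 * J * (3 * L + 1) * (14 * n * (L + 1)) ≤ 4032 * n * (L + 1) ^ 4 := by
    calc 24 * J * (3 * L + 1) * (14 * n * (L + 1))
        ≤ 24 * (4 * (L + 1) ^ 2) * (3 * (L + 1)) * (14 * n * (L + 1)) := by
          gcongr
          omega
      _ = _ := by ring
  calc (L + 1 + 3) * ((L * (3 * J) + 1) * (24 * J * (3 * L + 1) * (14 * n * (L + 1)))) * Y
      ≤ (4 * (L + 1)) * ((12 * (L + 1) ^ 3) * (4032 * n * (L + 1) ^ 4)) * (4 * X) := by
        gcongr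
    _ ≤ (4 * (L + 1)) * ((12 * (L + 1) ^ 3) * (4032 * n * (L + 1) ^ 4)) *
        (4 * (96 * (L + 1) ^ 3)) := by gcongr
    _ = _ := by ring

/-- The protocol with good parameters. -/
theorem exists_geo (n : ℕ) (hn : 1 ≤ n) : ∃ G : Geo n, G.L = Nat.log 2 n ∧
    G.R = 3 * ((Nat.log 2 n + 1) * (2 * Nat.log 2 n + 3) + 1) ∧
    G.Q = 14 * n * (Nat.log 2 n + 1) ∧
    G.Good ((Nat.log 2 n + 1) * (2 * Nat.log 2 n + 3) + 1) := by
  obtain ⟨N⟩ := exists_nest n hn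
  have hpow : 2 ^ Nat.log 2 n ≤ n := Nat.pow_log_le_self 2 (by omega)
  have hlt : n < 2 ^ (Nat.log 2 n + 1) := Nat.lt_pow_succ_log_self (by norm_num) n
  have hQL := arith_Q n (Nat.log 2 n) hpow
  refine ⟨⟨Nat.log 2 n, 3 * ((Nat.log 2 n + 1) * (2 * Nat.log 2 n + 3) + 1),
    14 * n * (Nat.log 2 n + 1), N,
    fun l => 2 * (14 * n * (Nat.log 2 n + 1)) / 2 ^ l + 1⟩, rfl, rfl, rfl, ?_⟩
  refine ⟨Nat.lt_succ_self _, rfl, ?_, hlt, hQL, ?_⟩
  · intro l _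
    exact (Nat.lt_mul_div_succ (2 * (14 * n * (Nat.log 2 n + 1))) (b := 2 ^ l)
      (by positivity)).le
  · intro l hl
    have h1 : 2 ^ l * (2 * (14 * n * (Nat.log 2 n + 1)) / 2 ^ l) ≤
        2 * (14 * n * (Nat.log 2 n + 1)) := Nat.mul_div_le _ _
    have h2 : 2 ^ l ≤ 2 ^ Nat.log 2 n := Nat.pow_le_pow_right (by norm_num) hl
    change 2 ^ l * (2 * (14 * n * (Nat.log 2 n + 1)) / 2 ^ l + 1) ≤
      3 * (14 * n * (Nat.log 2 n + 1))
    rw [mul_add, mul_one]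
    omega

/-- The parameters. -/
theorem W_le_aux (n : ℕ) (hn : 1 ≤ n) :
    Model.W n ≤ ((74317824 * n * (Nat.log 2 n + 1) ^ 11 : ℕ) : ℝ≥0∞) := by
  obtain ⟨G, hL, hR, hQ, hG⟩ := exists_geo n hn
  have hk : n ≤ 2 ^ (Nat.log 2 n + 1) := (Nat.lt_pow_succ_log_self (by norm_num) n).le
  generalize Nat.log 2 n = L at *
  set J := (L + 1) * (2 * L + 3) + 1 with hJ
  -- the number of coins
  obtain ⟨lam, hlam1, hlam2⟩ : ∃ lam, 24 * J * (L + 1) ≤ 2 ^ lam ∧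
      2 ^ (lam + 1) ≤ 4 * (24 * J * (L + 1)) := by
    have hX1 : 24 * J * (L + 1) ≠ 0 := by positivity
    refine ⟨Nat.log 2 (24 * J * (L + 1)) + 1,
      (Nat.lt_pow_succ_log_self (by norm_num) _).le, ?_⟩
    have := Nat.pow_log_le_self 2 hX1
    rw [pow_succ, pow_succ]
    omega
  have hlam1' : 24 * J * (G.L + 1) ≤ 2 ^ lam := by rw [hL]; exact hlam1
  have hcost := cost_le G (L + 1) lam hG hk hlam1' (by rw [hQ]; positivity)
  have hsol := solves G (L + 1) lam hG hk hlam1'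
  have hW : Model.W n ≤ Model.cost (alg G (L + 1) lam) := iInf₂_le (alg G (L + 1) lam) hsol
  refine hW.trans (hcost.trans ?_)
  rw [hL, hR, hQ]
  exact_mod_cast arith_main n L J (24 * J * (L + 1)) _ (arith_J L) rfl hlam2

theorem W_le (n : ℕ) (hn : 2 ≤ n) :
    Model.W n ≤ ((152202903552 * n * (Nat.log 2 n) ^ 11 : ℕ) : ℝ≥0∞) := by
  refine (W_le_aux n (by omega)).trans ?_
  have h1 : 1 ≤ Nat.log 2 n := Nat.log_pos (by norm_num) hn
  have h2 : Nat.log 2 n + 1 ≤ 2 * Nat.log 2 n := by omega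
  have h3 : 74317824 * n * (Nat.log 2 n + 1) ^ 11 ≤ 152202903552 * n * (Nat.log 2 n) ^ 11 := by
    calc 74317824 * n * (Nat.log 2 n + 1) ^ 11 ≤ 74317824 * n * (2 * Nat.log 2 n) ^ 11 := by
          gcongr
      _ = _ := by ring
  exact_mod_cast h3

end Pool.Agent.MP217Upper
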