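import Mathlib

set_option autoImplicit false

/-!
# The model: consensus from single-reader single-writer registers

There are `n` processors `Fin n`.  For every ordered pair `(w, r)` there are registers
`(w, r, k)`, `k : ℕ`, which only `w` may write and only `r` may read; they hold natural numbers and
are initially `0`.  Processor `i` has an input bit and a private infinite sequence of fair coins; its
next action is a (measurable) function of its index, its input, its coins and the results of the
steps it has taken so far.  An oblivious schedule is a sequence `σ : ℕ → Fin n` fixed in advance; a
processor that occurs finitely often in `σ` has crashed.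
-/

namespace Pool.Agent.MP217Upper.Model

open MeasureTheory
open scoped ENNReal

/-- What a processor `i` does next: `read w k` reads the register `(w, i, k)`; `write r k v` writes
`v` to the register `(i, r, k)`; `output v` outputs the bit `v` (and the processor stops). -/
inductive Act (n : ℕ) : Type
  | read (w : Fin n) (k : ℕ)
  | write (r : Fin n) (k : ℕ) (v : ℕ)
  | output (v : Bool)

/-- A randomized algorithm: `next i b c h` is the next action of processor `i` when its input is
`b`, its private coin sequence is `c`, and `h` is the list of the results of its steps so far, the
most recent one first (`some v` for a read step that returned `v`, `none` for a write step). -/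
structure Alg (n : ℕ) where
  next : Fin n → Bool → (ℕ → Bool) → List (Option ℕ) → Act n
  measurable_next : ∀ i b h a, MeasurableSet {c : ℕ → Bool | next i b c h = a}

/-- A configuration: the contents `mem w r k` of the register `(w, r, k)`, and the results
`hist i` of the steps taken so far by processor `i`. -/
structure Config (n : ℕ) where
  mem : Fin n → Fin n → ℕ → ℕ
  hist : Fin n → List (Option ℕ)

/-- The initial configuration. -/
def Config.init (n : ℕ) : Config n := ⟨fun _ _ _ => 0, fun _ => []⟩

variable {n : ℕ}

/-- Processor `i` is scheduled: it performs its next read or write step, if it has not produced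
its output yet. -/
def step (A : Alg n) (b : Fin n → Bool) (c : Fin n → ℕ → Bool) (i : Fin n) (C : Config n) :
    Config n :=
  match A.next i (b i) (c i) (C.hist i) with
  | .read w k => ⟨C.mem, Function.update C.hist i (some (C.mem w i k) :: C.hist i)⟩
  | .write r k v =>
    ⟨Function.update C.mem i (Function.update (C.mem i) r (Function.update (C.mem i r) k v)),
      Function.update C.hist i (none :: C.hist i)⟩
  | .output _ => C

/-- The configuration after the first `t` entries of the schedule `σ`, for inputs `b` and coins
`c`. -/
def run (A : Alg n) (b : Fin n → Bool) (c : Fin n → ℕ → Bool) (σ : ℕ → Fin n) : ℕ → Config n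
  | 0 => Config.init n
  | t + 1 => step A b c (σ t) (run A b c σ t)

/-- After the first `t` entries of the schedule, processor `i` has output `v`. -/
def Outputs (A : Alg n) (b : Fin n → Bool) (c : Fin n → ℕ → Bool) (σ : ℕ → Fin n) (t : ℕ)
    (i : Fin n) (v : Bool) : Prop :=
  A.next i (b i) (c i) ((run A b c σ t).hist i) = .output v

/-- The total work of an execution: the total number of steps taken by all processors. -/
noncomputable def totalWork (A : Alg n) (b : Fin n → Bool) (c : Fin n → ℕ → Bool)
    (σ : ℕ → Fin n) : ℝ≥0∞ :=
  ⨆ t, ((∑ i, ((run A b c σ t).hist i).length : ℕ) : ℝ≥0∞)

/-- The law of the private coins: independent fair coins for every processor. -/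
noncomputable def coins (n : ℕ) : Measure (Fin n → ℕ → Bool) :=
  Measure.pi fun _ => Measure.infinitePi fun _ => (PMF.uniformOfFintype Bool).toMeasure

/-- The algorithm solves (wait-free, binary) consensus: for every input and every oblivious
schedule, with probability one all outputs are equal, every output is the input of some processor,
and every processor that is scheduled infinitely often produces an output. -/
structure Solves (A : Alg n) : Prop where
  agreement : ∀ (b : Fin n → Bool) (σ : ℕ → Fin n), ∀ᵐ c ∂coins n,
    ∀ t t' i j v v', Outputs A b c σ t i v → Outputs A b c σ t' j v' → v = v'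
  validity : ∀ (b : Fin n → Bool) (σ : ℕ → Fin n), ∀ᵐ c ∂coins n,
    ∀ t i v, Outputs A b c σ t i v → ∃ j, b j = v
  wait_free : ∀ (b : Fin n → Bool) (σ : ℕ → Fin n) (i : Fin n), (∀ t, ∃ t' ≥ t, σ t' = i) →
    ∀ᵐ c ∂coins n, ∃ t v, Outputs A b c σ t i v

/-- The cost of an algorithm: the supremum over inputs and oblivious schedules of the expected
total work. -/
noncomputable def cost (A : Alg n) : ℝ≥0∞ :=
  ⨆ (b : Fin n → Bool) (σ : ℕ → Fin n), ∫⁻ c, totalWork A b c σ ∂coins n

/-- `W(n)`: the least cost of an algorithm that solves consensus. -/
noncomputable def W (n : ℕ) : ℝ≥0∞ := ⨅ (A : Alg n) (_ : Solves A), cost A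

end Pool.Agent.MP217Upper.Model
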