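import Pool.Agent.MP217Upper.Passes

set_option autoImplicit false

/-!
# Objects: how many processors reach a level, and intersection of certificates
-/

namespace Pool.Agent.MP217Upper

open Finset

attribute [local instance] Classical.propDecidable

variable {n : ℕ} {D : Type} (G : Geo n) (Δ : Dat n D) (σ : ℕ → Option (Fin n))

/-- At time `t` processor `p` is in pass `i` of object `o`. -/
def At (t : ℕ) (p : Fin n) (o i : ℕ) : Prop :=
  ((G.run Δ σ t).st p).o = o ∧ ((G.run Δ σ t).st p).i = i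

/-- Processor `p` starts pass `i` of object `o` at some time. -/
def Reach (p : Fin n) (o i : ℕ) : Prop := ∃ t, At G Δ σ t p o i

variable {G Δ σ}

theorem origin (t : ℕ) (p : Fin n) :
    (((G.run Δ σ t).st p).o = 0 ∧ ((G.run Δ σ t).st p).i = 0 ∧
      ((G.run Δ σ t).st p).d = Δ.d0 p ∧
      ((G.run Δ σ t).st p).K = {Fact.lab p 0 0 ((G.run Δ σ t).st p).d}) ∨
    (0 < ((G.run Δ σ t).st p).i ∧ ∃ e < t, ∃ T X,
      EndAt G Δ σ e p ((G.run Δ σ t).st p).o (((G.run Δ σ t).st p).i - 1) T X ∧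
      ¬ G.cert ((G.run Δ σ t).st p).o (G.lvl (((G.run Δ σ t).st p).i - 1)) X ∧
      ((G.run Δ σ t).st p).K = insert (Fact.lab p ((G.run Δ σ t).st p).o
        ((G.run Δ σ t).st p).i ((G.run Δ σ t).st p).d) X ∧
      ((G.run Δ σ t).st p).d = Δ.nxt p ((G.run Δ σ t).st p).o (((G.run Δ σ t).st p).i - 1)
        false X ((G.run Δ σ e).st p).d) ∨
    (0 < ((G.run Δ σ t).st p).o ∧ ((G.run Δ σ t).st p).i = 0 ∧ ∃ e < t, ∃ i' T X,
      EndAt G Δ σ e p (((G.run Δ σ t).st p).o - 1) i' T X ∧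
      G.cert (((G.run Δ σ t).st p).o - 1) (G.lvl i') X ∧
      ((G.run Δ σ t).st p).K = insert (Fact.lab p ((G.run Δ σ t).st p).o
        ((G.run Δ σ t).st p).i ((G.run Δ σ t).st p).d) X ∧
      ((G.run Δ σ t).st p).d = Δ.nxt p (((G.run Δ σ t).st p).o - 1) i'
        true X ((G.run Δ σ e).st p).d) := by
  induction t with
  | zero => left; exact ⟨rfl, rfl, rfl, rfl⟩
  | succ t ih =>
    rcases same_or_end (G := G) (Δ := Δ) (σ := σ) t p with h | ⟨T, X, h⟩
    · obtain ⟨h1, h2, h3, h4, -⟩ := h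
      rw [h1, h2, h3, h4]
      rcases ih with h | ⟨h, e, he, h'⟩ | ⟨h, h'', e, he, h'⟩
      · left; exact h
      · right; left; exact ⟨h, e, by omega, h'⟩
      · right; right; exact ⟨h, h'', e, by omega, h'⟩
    · have hfin := h.next
      by_cases hc : G.cert ((G.run Δ σ t).st p).o (G.lvl ((G.run Δ σ t).st p).i) X
      · rw [Geo.fin, if_pos hc] at hfin
        right; right
        rw [hfin]
        refine ⟨by simp [Geo.beg], rfl, t, by omega, ((G.run Δ σ t).st p).i, T, X, ?_, ?_, rfl, ?_⟩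
        · simpa [Geo.beg] using h
        · simpa [Geo.beg] using hc
        · simp [Geo.beg]
      · rw [Geo.fin, if_neg hc] at hfin
        right; left
        rw [hfin]
        refine ⟨by simp [Geo.beg], t, by omega, T, X, ?_, ?_, rfl, ?_⟩
        · simpa [Geo.beg] using h
        · simpa [Geo.beg] using hc
        · simp [Geo.beg]

theorem prev_pass {t : ℕ} {p : Fin n} {o i : ℕ} (h : At G Δ σ t p o (i + 1)) :
    ∃ e < t, ∃ T X, EndAt G Δ σ e p o i T X ∧ ¬ G.cert o (G.lvl i) X ∧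
      ((G.run Δ σ t).st p).K = insert (Fact.lab p o (i + 1) ((G.run Δ σ t).st p).d) X ∧
      ((G.run Δ σ t).st p).d = Δ.nxt p o i false X ((G.run Δ σ e).st p).d := by
  have h1 := h.1
  have h2 := h.2
  rcases origin (G := G) (Δ := Δ) (σ := σ) t p with h' | ⟨_, e, he, h'⟩ | ⟨_, h', _⟩
  · omega
  · rw [h1, h2] at h'
    exact ⟨e, he, by simpa using h'⟩
  · omega

theorem prev_obj {t : ℕ} {p : Fin n} {o : ℕ} (h : At G Δ σ t p (o + 1) 0) :
    ∃ e < t, ∃ i' T X, EndAt G Δ σ e p o i' T X ∧ G.cert o (G.lvl i') X ∧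
      ((G.run Δ σ t).st p).K = insert (Fact.lab p (o + 1) 0 ((G.run Δ σ t).st p).d) X ∧
      ((G.run Δ σ t).st p).d = Δ.nxt p o i' true X ((G.run Δ σ e).st p).d := by
  have h1 := h.1
  have h2 := h.2
  rcases origin (G := G) (Δ := Δ) (σ := σ) t p with h' | ⟨h', _⟩ | ⟨_, _, e, he, h'⟩
  · omega
  · omega
  · rw [h1, h2] at h'
    exact ⟨e, he, by simpa using h'⟩

theorem EndAt.at {e : ℕ} {a : Fin n} {o i : ℕ} {T : Finset (Fin n)} {X : Finset (Fact n D)}
    (h : EndAt G Δ σ e a o i T X) : At G Δ σ e a o i := ⟨h.ho, h.hi⟩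

theorem EndAt.targets {e : ℕ} {a : Fin n} {o i : ℕ} {T : Finset (Fin n)}
    {X : Finset (Fact n D)} (h : EndAt G Δ σ e a o i T X) :
    T = G.targets a o (G.lvl i) ((G.run Δ σ e).st a).K := by
  rw [h.hT, (inv_run G Δ σ e).tgt a, h.ho, h.hi, toList_toFinset]

theorem at_down {t : ℕ} {p : Fin n} {o i j : ℕ} (h : At G Δ σ t p o i) (hj : j ≤ i) :
    ∃ t' ≤ t, At G Δ σ t' p o j := by
  induction i generalizing t with
  | zero =>
    have : j = 0 := by omega
    subst this
    exact ⟨t, le_rfl, h⟩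
  | succ i ih =>
    rcases Nat.eq_or_lt_of_le hj with rfl | hj
    · exact ⟨t, le_rfl, h⟩
    · obtain ⟨e, he, T, X, h1, -⟩ := prev_pass h
      obtain ⟨t', ht', h2⟩ := ih h1.at (by omega)
      exact ⟨t', by omega, h2⟩

theorem reach_down {p : Fin n} {o i j : ℕ} (h : Reach G Δ σ p o i) (hj : j ≤ i) :
    Reach G Δ σ p o j := by
  obtain ⟨t, ht⟩ := h
  obtain ⟨t', _, ht'⟩ := at_down ht hj
  exact ⟨t', ht'⟩

theorem at_unique {t t' : ℕ} {p : Fin n} {o i : ℕ} (h : At G Δ σ t p o i)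
    (h' : At G Δ σ t' p o i) :
    ((G.run Δ σ t').st p).d = ((G.run Δ σ t).st p).d ∧
      ((G.run Δ σ t').st p).K = ((G.run Δ σ t).st p).K ∧
      ((G.run Δ σ t').st p).T = ((G.run Δ σ t).st p).T := by
  rcases le_total t t' with hle | hle
  · exact same_pass hle (by rw [h.1, h'.1]) (by rw [h.2, h'.2])
  · have := same_pass hle (p := p) (by rw [h.1, h'.1]) (by rw [h.2, h'.2])
    exact ⟨this.1.symm, this.2.1.symm, this.2.2.symm⟩

variable (G Δ σ) in
/-- The knowledge of `p` at the beginning of a pass. -/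
noncomputable def stK (p : Fin n) (o i : ℕ) : Finset (Fact n D) :=
  if h : Reach G Δ σ p o i then ((G.run Δ σ h.choose).st p).K else ∅

theorem stK_eq {t : ℕ} {p : Fin n} {o i : ℕ} (h : At G Δ σ t p o i) :
    stK G Δ σ p o i = ((G.run Δ σ t).st p).K := by
  have hr : Reach G Δ σ p o i := ⟨t, h⟩
  rw [stK, dif_pos hr]
  exact (at_unique h hr.choose_spec).2.1

variable (G Δ σ) in
/-- The knowledge of `p` at the end of a pass. -/
noncomputable def endX (p : Fin n) (o i : ℕ) : Finset (Fact n D) :=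
  if h : ∃ X, ∃ e T, EndAt G Δ σ e p o i T X then h.choose else ∅

theorem endX_eq {e : ℕ} {p : Fin n} {o i : ℕ} {T : Finset (Fin n)} {X : Finset (Fact n D)}
    (h : EndAt G Δ σ e p o i T X) : endX G Δ σ p o i = X := by
  have hr : ∃ X, ∃ e T, EndAt G Δ σ e p o i T X := ⟨X, e, T, h⟩
  rw [endX, dif_pos hr]
  obtain ⟨e', T', h'⟩ := hr.choose_spec
  exact (h'.unique h).2.2

theorem stK_succ {p : Fin n} {o i : ℕ} (h : Reach G Δ σ p o (i + 1)) :
    ∃ e T d, EndAt G Δ σ e p o i T (endX G Δ σ p o i) ∧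
      ¬ G.cert o (G.lvl i) (endX G Δ σ p o i) ∧
      stK G Δ σ p o (i + 1) = insert (Fact.lab p o (i + 1) d) (endX G Δ σ p o i) ∧
      stK G Δ σ p o i ⊆ endX G Δ σ p o i ∧
      T = G.targets p o (G.lvl i) (stK G Δ σ p o i) ∧
      Fact.done p o i T ∈ endX G Δ σ p o i := by
  obtain ⟨t, ht⟩ := h
  obtain ⟨e, he, T, X, h1, h2, h3, h4⟩ := prev_pass ht
  rw [endX_eq h1, stK_eq ht, stK_eq h1.at]
  exact ⟨e, T, _, h1, h2, h3, h1.K_le, h1.targets, h1.done_mem⟩

theorem stK_mono {p : Fin n} {o i j : ℕ} (h : Reach G Δ σ p o i) (hj : j ≤ i) :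
    stK G Δ σ p o j ⊆ stK G Δ σ p o i := by
  obtain ⟨t, ht⟩ := h
  obtain ⟨t', htt, ht'⟩ := at_down ht hj
  rw [stK_eq ht, stK_eq ht']
  exact run_K_mono G Δ σ htt p

theorem targets_stK_succ {p : Fin n} {o i : ℕ} (h : Reach G Δ σ p o (i + 1)) (l : ℕ) :
    G.targets p o l (stK G Δ σ p o (i + 1)) = G.targets p o l (endX G Δ σ p o i) := by
  obtain ⟨e, T, d, -, -, h1, -⟩ := stK_succ h
  rw [h1, targets_insert_lab]

/-! ### Few processors finish a level without a certificate -/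

/-- The conditions on the static parameters. -/
structure Geo.Good (J : ℕ) : Prop where
  hJ : (G.L + 1) * (2 * G.L + 3) < J
  hR : G.R = 3 * J
  hcap : ∀ l, l ≤ G.L → 2 * G.Q ≤ 2 ^ l * G.cap l
  hn : n < 2 ^ (G.L + 1)
  hQ : 2 ^ G.L ≤ G.Q
  hcap' : ∀ l, l ≤ G.L → 2 ^ l * G.cap l ≤ 3 * G.Q

theorem lvl_block {J : ℕ} (hG : G.Good J) {l i : ℕ} (hl : l ≤ G.L)
    (h1 : (G.L - l) * G.R ≤ i) (h2 : i < (G.L - l + 1) * G.R) : G.lvl i = l := by
  unfold Geo.lvl
  have hR : 0 < G.R := by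
    rw [hG.hR]
    have := hG.hJ
    omega
  have : i / G.R = G.L - l := by
    rw [Nat.div_eq_iff hR]
    constructor
    · exact h1
    · rw [add_mul, one_mul] at h2
      omega
  rw [this]
  omega

theorem N_anti {ν μ : ℕ} (h : ν ≤ μ) (x : Fin n) : G.nest.N μ x ⊆ G.nest.N ν x := by
  induction h with
  | refl => exact Subset.rfl
  | step _ ih => exact (G.nest.anti _ x).trans ih

theorem layered_run {J : ℕ} (hG : G.Good J) {l o : ℕ} (hl : l ≤ G.L)
    (X : ℕ → Finset (Fin n))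
    (hX : ∀ j, j < J → (∀ p ∈ X j, Reach G Δ σ p o ((G.L - l) * G.R + 3 * J)) ∧
      (X j).card = 6 * 2 ^ l)
    (hflow : ∀ j, j + 1 < J → ∀ c ∈ X j, ∀ d ∈ X (j + 1), ∀ t t',
      At G Δ σ t c o ((G.L - l) * G.R + 3 * (j + 1)) →
      (∀ t'', t'' < t → ¬ At G Δ σ t'' c o ((G.L - l) * G.R + 3 * (j + 1))) →
      At G Δ σ t' d o ((G.L - l) * G.R + 3 * (j + 1)) → t ≤ t') :
    Layered G.nest.N l (G.cap l) J X
      (fun j c => endX G Δ σ c o ((G.L - l) * G.R + 3 * j))
      (fun j c => stK G Δ σ c o ((G.L - l) * G.R + 3 * j + 2))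
      (fun ν K => G.unc ν o K) (fun K => G.team l o K) := by
  set base := (G.L - l) * G.R with hbase
  have hlvl : ∀ i, base ≤ i → i < base + 3 * J → G.lvl i = l := by
    intro i h1 h2
    apply lvl_block hG hl h1
    rw [add_mul, one_mul, ← hbase, hG.hR]
    exact h2
  have hA : ∀ j, j < J → ∀ c ∈ X j, Reach G Δ σ c o (base + 3 * j + 1) := fun j hj c hc =>
    reach_down ((hX j hj).1 c hc) (by omega)
  have hB : ∀ j, j < J → ∀ c ∈ X j, Reach G Δ σ c o (base + 3 * j + 2) := fun j hj c hc =>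
    reach_down ((hX j hj).1 c hc) (by omega)
  have hC : ∀ j, j < J → ∀ c ∈ X j, Reach G Δ σ c o (base + 3 * j + 3) := fun j hj c hc =>
    reach_down ((hX j hj).1 c hc) (by omega)
  have hAle : ∀ j, j < J → ∀ c ∈ X j, endX G Δ σ c o (base + 3 * j) ⊆
      stK G Δ σ c o (base + 3 * j + 1) := by
    intro j hj c hc
    obtain ⟨e, T, d, -, -, h1, -⟩ := stK_succ (hA j hj c hc)
    rw [h1]
    exact subset_insert _ _
  have hBle : ∀ j, j < J → ∀ c ∈ X j, endX G Δ σ c o (base + 3 * j + 1) ⊆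
      stK G Δ σ c o (base + 3 * j + 2) := by
    intro j hj c hc
    obtain ⟨e, T, d, -, -, h1, -⟩ := stK_succ (hB j hj c hc)
    rw [h1]
    exact subset_insert _ _
  constructor
  · exact fun j hj => (hX j hj).2
  · intro j hj c hc
    exact (hAle j hj c hc).trans (stK_mono (hB j hj c hc) (by omega))
  · intro j hj c hc d hd hdc
    obtain ⟨tc, htc⟩ := hC j (by omega) c hc
    -- the first time at which `c` has finished its block
    have hex : ∃ t, At G Δ σ t c o (base + 3 * j + 3) := ⟨tc, htc⟩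
    set t0 := Nat.find hex with ht0
    have ht0' : At G Δ σ t0 c o (base + 3 * j + 3) := Nat.find_spec hex
    obtain ⟨e, he, T, Xc, h1, h2, h3, h4⟩ := prev_pass ht0'
    obtain ⟨e', T', d', g1, g2, g3, g4, g5, g6⟩ := stK_succ (hA (j + 1) hj d hd)
    have hcT : c ∈ T' := by
      rw [g5, hlvl _ (by omega) (by omega)]
      exact N_sub_targets G _ _ _ _ (G.nest.symm _ _ _ hdc)
    have hdT : d ∈ T := by
      rw [h1.targets, hlvl _ (by omega) (by omega)]
      exact N_sub_targets G _ _ _ _ hdc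
    have := flow h1 g1 hdT hcT (by
      intro r hr1 hr2
      have h5 := hflow j hj c hc d hd t0 r (by
        have e1 : base + 3 * (j + 1) = base + 3 * j + 3 := by ring
        rw [e1]; exact ht0') (by
        intro t'' ht''
        have e1 : base + 3 * (j + 1) = base + 3 * j + 3 := by ring
        rw [e1]
        exact Nat.find_min hex ht'') ⟨hr1, hr2⟩
      omega)
    rw [← stK_eq h1.at] at this
    exact this
  · intro j hj c hc
    obtain ⟨e, T, d, h1, h2, h3, h4, h5, h6⟩ := stK_succ (hB j hj c hc)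
    rw [disjoint_left]
    intro x hx hx'
    simp only [Geo.unc, mem_filter, mem_univ, true_and] at hx'
    apply hx'
    refine ⟨c, _, T, hBle j hj c hc h6, ?_, hx⟩
    rw [h5, hlvl _ (by omega) (by omega)]
    exact N_sub_targets G _ _ _ _ hx
  · intro j hj c hc ν hν hcard
    obtain ⟨e, T, d, h1, h2, h3, h4, h5, h6⟩ := stK_succ (hB j hj c hc)
    rw [disjoint_left]
    intro x hx hx'
    simp only [Geo.unc, mem_filter, mem_univ, true_and] at hx'
    apply hx'
    by_cases hxu : x ∈ G.unc (ν + 1) o (endX G Δ σ c o (base + 3 * j))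
    · refine ⟨c, _, T, hBle j hj c hc h6, ?_, hx⟩
      rw [h5, hlvl _ (by omega) (by omega), targets_stK_succ (hA j hj c hc)]
      unfold Geo.targets
      apply mem_union_right
      rw [mem_biUnion]
      refine ⟨ν, mem_range.mpr hν, ?_⟩
      rw [if_pos hcard]
      exact mem_inter.mpr ⟨hx, hxu⟩
    · simp only [Geo.unc, mem_filter, mem_univ, true_and, not_not] at hxu
      obtain ⟨a, i, T', g1, g2, g3⟩ := hxu
      refine ⟨a, i, T', ?_, g2, G.nest.anti ν a g3⟩
      exact (stK_mono (hB j hj c hc) (by omega)) (hAle j hj c hc g1)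
  · intro j hj c hc
    obtain ⟨e, T, d, h1, h2, h3, h4, h5, h6⟩ := stK_succ (hB j hj c hc)
    simp only [Geo.team, mem_filter, mem_univ, true_and]
    exact ⟨_, T, hBle j hj c hc h6, hlvl _ (by omega) (by omega)⟩
  · intro ν K K' h
    exact unc_anti G h
  · intro K K' h
    exact team_mono G h
  · intro ν hν S Y hS hY
    exact G.nest.join ν (by omega) S Y hS hY
  · exact G.nest.symm
  · intro ν hν y
    have h1 := G.nest.deg ν y (by omega)
    have h2 := hG.hcap l hl
    calc 2 ^ (ν + 1) * (G.nest.N ν y).card = 2 * (2 ^ ν * (G.nest.N ν y).card) := by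
          rw [pow_succ]; ring
      _ ≤ 2 * G.Q := Nat.mul_le_mul_left _ h1
      _ ≤ _ := h2

/-- Fewer than `6 J 2^l` processors go below level `l` in a given object. -/
theorem few_below {J : ℕ} (hG : G.Good J) {l o : ℕ} (hl : l ≤ G.L) :
    (univ.filter fun p => Reach G Δ σ p o ((G.L - l + 1) * G.R)).card < J * (6 * 2 ^ l) := by
  by_contra hcon
  push Not at hcon
  set base := (G.L - l) * G.R with hbase
  have hend : (G.L - l + 1) * G.R = base + 3 * J := by
    rw [add_mul, one_mul, ← hbase, hG.hR]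
  rw [hend] at hcon
  set S := univ.filter fun p => Reach G Δ σ p o (base + 3 * J) with hS
  let s : ℕ → Fin n → ℕ := fun j p =>
    if h : ∃ t, At G Δ σ t p o (base + 3 * j) then Nat.find h else 0
  obtain ⟨X, hX1, hX2⟩ := windows (6 * 2 ^ l) s J 0 S hcon
  have hXS : ∀ j, j < J → ∀ p ∈ X j, Reach G Δ σ p o (base + 3 * J) := by
    intro j hj p hp
    have := (hX1 j hj).1 hp
    rw [hS, mem_filter] at this
    exact this.2
  have hlay := layered_run (Δ := Δ) (σ := σ) (o := o) hG hl X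
    (fun j hj => ⟨hXS j hj, (hX1 j hj).2⟩) (by
      intro j hj c hc d hd t t' h1 h2 h3
      have h4 := hX2 j hj c hc d hd
      rw [zero_add] at h4
      have e1 : s (j + 1) c = t := by
        have hex : ∃ t, At G Δ σ t c o (base + 3 * (j + 1)) := ⟨t, h1⟩
        simp only [s, hex, dite_true]
        rw [Nat.find_eq_iff]
        exact ⟨h1, fun t'' ht'' => h2 t'' ht''⟩
      have e2 : s (j + 1) d ≤ t' := by
        have hex : ∃ t, At G Δ σ t d o (base + 3 * (j + 1)) := ⟨t', h3⟩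
        simp only [s, hex, dite_true]
        exact Nat.find_min' hex h3
      omega)
  have hJl : (l + 1) * (2 * l + 3) < J := by
    refine lt_of_le_of_lt ?_ hG.hJ
    exact Nat.mul_le_mul (by omega) (by omega)
  obtain ⟨d, hd, h1, h2⟩ := hlay.certificate hJl
  have hJpos : 0 < J := by omega
  have hr : Reach G Δ σ d o (base + 3 * (J - 1) + 1) :=
    reach_down (hXS (J - 1) (by omega) d hd) (by omega)
  obtain ⟨e, T, d', g1, g2, -⟩ := stK_succ hr
  apply g2
  have hlv : G.lvl (base + 3 * (J - 1)) = l := by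
    apply lvl_block hG hl (by omega)
    rw [hend]
    omega
  rw [hlv]
  exact ⟨h1, h2⟩

/-- Passes at level `0` end with a certificate. -/
theorem cert_zero {e : ℕ} {p : Fin n} {o i : ℕ} {T : Finset (Fin n)} {X : Finset (Fact n D)}
    (h : EndAt G Δ σ e p o i T X) (hl : G.lvl i = 0) : G.cert o 0 X := by
  have hd := h.done_mem
  constructor
  · rw [pow_zero]
    apply card_pos.mpr
    refine ⟨p, ?_⟩
    simp only [Geo.team, mem_filter, mem_univ, true_and]
    exact ⟨i, T, hd, hl⟩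
  · intro ν hν
    have : ν = 0 := by omega
    subst this
    have : G.unc 0 o X = ∅ := by
      rw [Geo.unc, filter_eq_empty_iff]
      intro x _
      rw [not_not]
      refine ⟨p, i, T, hd, ?_, ?_⟩
      · rw [h.targets, hl]
        apply N_sub_targets
        rw [G.nest.zero]
        exact mem_univ _
      · rw [G.nest.zero]
        exact mem_univ _
    rw [this]
    simp

/-- The number of passes in an object is bounded. -/
theorem reach_le {p : Fin n} {o i : ℕ} (hR : 0 < G.R) (h : Reach G Δ σ p o i) :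
    i ≤ G.L * G.R := by
  by_contra hcon
  push Not at hcon
  have h1 : Reach G Δ σ p o (G.L * G.R + 1) := reach_down h (by omega)
  obtain ⟨t, ht⟩ := h1
  obtain ⟨e, he, T, X, h1, h2, -⟩ := prev_pass ht
  have hl : G.lvl (G.L * G.R) = 0 := by
    unfold Geo.lvl
    rw [Nat.mul_div_cancel _ hR]
    omega
  rw [hl] at h2
  exact h2 (cert_zero h1 hl)

theorem Geo.Good.R_pos {J : ℕ} (hG : G.Good J) : 0 < G.R := by
  rw [hG.hR]
  have := hG.hJ
  omega

/-- The number of processors that reach pass `i` of object `o`. -/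
theorem card_reach {J : ℕ} (hG : G.Good J) (o i : ℕ) :
    (univ.filter fun p => Reach G Δ σ p o i).card ≤ J * (6 * 2 ^ (G.lvl i + 1)) := by
  have hRpos := hG.R_pos
  by_cases hi : i < G.R
  · have hl : G.lvl i = G.L := by
      unfold Geo.lvl
      rw [Nat.div_eq_of_lt hi]
      omega
    rw [hl]
    have h1 : (univ.filter fun p => Reach G Δ σ p o i).card ≤ n := by
      refine (card_filter_le _ _).trans ?_
      simp
    have h2 := hG.hn
    have h3 := hG.hJ
    have h4 : 1 ≤ J := by omega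
    calc _ ≤ n := h1
      _ ≤ 1 * (6 * 2 ^ (G.L + 1)) := by omega
      _ ≤ J * (6 * 2 ^ (G.L + 1)) := Nat.mul_le_mul_right _ h4
  · push Not at hi
    by_cases hiL : i ≤ G.L * G.R
    · set q := i / G.R with hq
      have hq1 : 1 ≤ q := by
        rw [hq, Nat.one_le_div_iff hRpos]
        exact hi
      have hq2 : q ≤ G.L := by
        rw [hq]
        exact Nat.div_le_of_le_mul (by rw [mul_comm]; exact hiL)
      have hlq : G.lvl i + 1 = G.L - (q - 1) := by
        unfold Geo.lvl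
        omega
      rw [hlq]
      have hle : G.L - (q - 1) ≤ G.L := by omega
      have h1 := few_below (Δ := Δ) (σ := σ) hG (o := o) hle
      refine le_trans (card_le_card ?_) h1.le
      intro p hp
      rw [mem_filter] at hp ⊢
      refine ⟨mem_univ _, reach_down hp.2 ?_⟩
      have e1 : G.L - (G.L - (q - 1)) + 1 = q := by omega
      rw [e1, hq]
      exact Nat.div_mul_le_self i G.R
    · have : (univ.filter fun p => Reach G Δ σ p o i) = ∅ := by
        rw [filter_eq_empty_iff]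
        intro p _ hp
        exact hiL (reach_le hRpos hp)
      rw [this]
      simp

/-! ### Intersection of views -/

theorem pair_aux {p p' : Fin n} {o : ℕ} {e e' : ℕ} {i i' : ℕ} {T T' : Finset (Fin n)}
    {X X' : Finset (Fact n D)} (h : EndAt G Δ σ e p o i T X) (h' : EndAt G Δ σ e' p' o i' T' X')
    (hc : G.cert o (G.lvl i) X) (hc' : G.cert o (G.lvl i') X') (hle : G.lvl i' ≤ G.lvl i) :
    ∃ a, Reach G Δ σ a o 0 ∧ stK G Δ σ a o 0 ⊆ X ∧ stK G Δ σ a o 0 ⊆ X' := by
  -- a member of the team of `p'` that is covered by `p`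
  have hex : ∃ b ∈ G.team (G.lvl i') o X', b ∉ G.unc (G.lvl i') o X := by
    by_contra hcon
    push Not at hcon
    have h1 := card_le_card (show G.team (G.lvl i') o X' ⊆ G.unc (G.lvl i') o X from hcon)
    have h2 := hc.2 _ hle
    have h3 := hc'.1
    omega
  obtain ⟨b, hb1, hb2⟩ := hex
  simp only [Geo.team, mem_filter, mem_univ, true_and] at hb1
  simp only [Geo.unc, mem_filter, mem_univ, true_and, not_not] at hb2
  obtain ⟨ib, Tb, hb3, hb4⟩ := hb1
  obtain ⟨a, ia, Ta, ha1, ha2, ha3⟩ := hb2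
  obtain ⟨ea, hea, Xa, ha4, ha5⟩ := closed_X h a o ia Ta ha1
  obtain ⟨eb, heb, Xb, hb5, hb6⟩ := closed_X h' b o ib Tb hb3
  have haT : a ∈ Tb := by
    rw [hb5.targets, hb4]
    exact N_sub_targets G _ _ _ _ (G.nest.symm _ _ _ ha3)
  have hstart : ∀ {c : Fin n} {ec ic : ℕ} {Tc : Finset (Fin n)} {Xc : Finset (Fact n D)},
      EndAt G Δ σ ec c o ic Tc Xc → Reach G Δ σ c o 0 ∧
        stK G Δ σ c o 0 ⊆ ((G.run Δ σ ec).st c).K := by
    intro c ec ic Tc Xc hcE
    have hr : Reach G Δ σ c o ic := ⟨ec, hcE.at⟩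
    refine ⟨reach_down hr (Nat.zero_le _), ?_⟩
    have := stK_mono hr (Nat.zero_le ic)
    rw [stK_eq hcE.at] at this
    exact this
  rcases dekker ha4 hb5 ha2 haT with hd | hd
  · obtain ⟨hr, hs⟩ := hstart ha4
    exact ⟨a, hr, (hs.trans ha4.K_le).trans ha5, (hs.trans hd).trans hb6⟩
  · obtain ⟨hr, hs⟩ := hstart hb5
    exact ⟨b, hr, (hs.trans hd).trans ha5, (hs.trans hb5.K_le).trans hb6⟩

/-- The views of two processors that complete an object intersect. -/
theorem pair_view {p p' : Fin n} {o : ℕ} (h : Reach G Δ σ p (o + 1) 0)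
    (h' : Reach G Δ σ p' (o + 1) 0) :
    ∃ a, Reach G Δ σ a o 0 ∧ stK G Δ σ a o 0 ⊆ stK G Δ σ p (o + 1) 0 ∧
      stK G Δ σ a o 0 ⊆ stK G Δ σ p' (o + 1) 0 := by
  obtain ⟨t, ht⟩ := h
  obtain ⟨t', ht'⟩ := h'
  obtain ⟨e, he, i, T, X, h1, h2, h3, h4⟩ := prev_obj ht
  obtain ⟨e', he', i', T', X', h1', h2', h3', h4'⟩ := prev_obj ht'
  have hX : X ⊆ stK G Δ σ p (o + 1) 0 := by rw [stK_eq ht, h3]; exact subset_insert _ _
  have hX' : X' ⊆ stK G Δ σ p' (o + 1) 0 := by rw [stK_eq ht', h3']; exact subset_insert _ _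
  rcases le_total (G.lvl i') (G.lvl i) with hle | hle
  · obtain ⟨a, ha, ha1, ha2⟩ := pair_aux h1 h1' h2 h2' hle
    exact ⟨a, ha, ha1.trans hX, ha2.trans hX'⟩
  · obtain ⟨a, ha, ha1, ha2⟩ := pair_aux h1' h1 h2' h2 hle
    exact ⟨a, ha, ha2.trans hX, ha1.trans hX'⟩

theorem prev_entry {p : Fin n} {o : ℕ} (h : Reach G Δ σ p (o + 1) 0) :
    Reach G Δ σ p o 0 ∧ stK G Δ σ p o 0 ⊆ stK G Δ σ p (o + 1) 0 := by
  obtain ⟨t, ht⟩ := h
  obtain ⟨e, he, i, T, X, h1, h2, h3, h4⟩ := prev_obj ht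
  have hr : Reach G Δ σ p o i := ⟨e, h1.at⟩
  refine ⟨reach_down hr (Nat.zero_le _), ?_⟩
  have := stK_mono hr (Nat.zero_le i)
  rw [stK_eq h1.at] at this
  rw [stK_eq ht, h3]
  exact (this.trans h1.K_le).trans (subset_insert _ _)

/-! ### The common core -/

theorem pairup {α : Type*} [DecidableEq α] (B : Finset α) (R : α → α → Prop) (m : ℕ) :
    ∀ S : Finset α, (∀ p ∈ S, ∀ p' ∈ S, ∃ b ∈ B, R b p ∧ R b p') → S.card ≤ 2 * m →
      ∃ S' ⊆ B, S'.card ≤ m ∧ ∀ p ∈ S, ∃ b ∈ S', R b p := by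
  induction m with
  | zero =>
    intro S _ hS
    have : S = ∅ := by
      rw [← card_eq_zero]
      omega
    subst this
    exact ⟨∅, empty_subset _, by simp, by simp⟩
  | succ m ih =>
    intro S hpair hS
    by_cases hne : S.Nonempty
    · obtain ⟨p, hp⟩ := hne
      have hchoice : ∃ p' ∈ S, (S \ {p, p'}).card ≤ 2 * m := by
        by_cases hne' : (S.erase p).Nonempty
        · obtain ⟨p', hp'⟩ := hne'
          rw [mem_erase] at hp'
          refine ⟨p', hp'.2, ?_⟩
          have hsub : ({p, p'} : Finset α) ⊆ S := by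
            intro x hx
            rw [mem_insert, mem_singleton] at hx
            rcases hx with rfl | rfl
            · exact hp
            · exact hp'.2
          rw [card_sdiff_of_subset hsub, card_pair (Ne.symm hp'.1)]
          omega
        · refine ⟨p, hp, ?_⟩
          rw [not_nonempty_iff_eq_empty] at hne'
          have : S \ {p, p} = ∅ := by
            rw [pair_eq_singleton, sdiff_singleton_eq_erase, hne']
          rw [this]
          simp
      obtain ⟨p', hp', hc⟩ := hchoice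
      obtain ⟨b, hb, hb1, hb2⟩ := hpair p hp p' hp'
      obtain ⟨S', hS'B, hS'c, hS'⟩ := ih (S \ {p, p'}) (by
        intro q hq q' hq'
        exact hpair q (sdiff_subset hq) q' (sdiff_subset hq')) hc
      refine ⟨insert b S', insert_subset hb hS'B, (card_insert_le _ _).trans (by omega), ?_⟩
      intro q hq
      by_cases h1 : q = p
      · exact ⟨b, mem_insert_self _ _, h1 ▸ hb1⟩
      · by_cases h2 : q = p'
        · exact ⟨b, mem_insert_self _ _, h2 ▸ hb2⟩
        · obtain ⟨b', hb', hb''⟩ := hS' q (by simp [hq, h1, h2])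
          exact ⟨b', mem_insert_of_mem hb', hb''⟩
    · rw [not_nonempty_iff_eq_empty] at hne
      subst hne
      exact ⟨∅, empty_subset _, by simp, by simp⟩

theorem hub (k : ℕ) : ∀ (o : ℕ) (S : Finset (Fin n)), S.Nonempty → S.card ≤ 2 ^ k →
    (∀ p ∈ S, Reach G Δ σ p (o + k + 1) 0) →
    ∃ a, Reach G Δ σ a (o + 1) 0 ∧
      ∀ p ∈ S, stK G Δ σ a (o + 1) 0 ⊆ stK G Δ σ p (o + k + 1) 0 := by
  induction k with
  | zero =>
    intro o S hne hS hr
    obtain ⟨a, ha⟩ := hne
    refine ⟨a, hr a ha, ?_⟩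
    intro p hp
    have : p = a := card_le_one.mp (by simpa using hS) p hp a ha
    subst this
    exact Subset.rfl
  | succ k ih =>
    intro o S hne hS hr
    obtain ⟨S', hS'B, hS'c, hS'⟩ := pairup (univ.filter fun b => Reach G Δ σ b (o + k + 1) 0)
      (fun b p => stK G Δ σ b (o + k + 1) 0 ⊆ stK G Δ σ p (o + (k + 1) + 1) 0) (2 ^ k) S (by
        intro p hp p' hp'
        obtain ⟨a, ha, ha1, ha2⟩ := pair_view (o := o + (k + 1)) (hr p hp) (hr p' hp')
        refine ⟨a, ?_, ha1, ha2⟩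
        rw [mem_filter]
        exact ⟨mem_univ _, ha⟩) (by rw [pow_succ] at hS; omega)
    have hne' : S'.Nonempty := by
      obtain ⟨p, hp⟩ := hne
      obtain ⟨b, hb, _⟩ := hS' p hp
      exact ⟨b, hb⟩
    obtain ⟨a, ha1, ha2⟩ := ih o S' hne' hS'c (by
      intro p hp
      have := hS'B hp
      rw [mem_filter] at this
      exact this.2)
    refine ⟨a, ha1, ?_⟩
    intro p hp
    obtain ⟨b, hb, hb'⟩ := hS' p hp
    exact (ha2 b hb).trans hb'

/-- The common core: a set of at least `2^l` processors that reach level `l` of object `o` and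
whose labels are known to everybody who completes the object `o + k`. -/
theorem core {k o : ℕ} (hk : n ≤ 2 ^ k) (hne : ∃ p, Reach G Δ σ p (o + k + 1) 0) :
    ∃ l ≤ G.L, ∃ A : Finset (Fin n), 2 ^ l ≤ A.card ∧ ∀ b ∈ A, ∃ i, G.lvl i = l ∧
      ∃ t, At G Δ σ t b o i ∧ ∀ p, Reach G Δ σ p (o + k + 1) 0 →
        ((G.run Δ σ t).st b).K ⊆ stK G Δ σ p (o + k + 1) 0 := by
  obtain ⟨a, ha1, ha2⟩ := hub k o (univ.filter fun p => Reach G Δ σ p (o + k + 1) 0)
    (by
      obtain ⟨p, hp⟩ := hne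
      exact ⟨p, by rw [mem_filter]; exact ⟨mem_univ _, hp⟩⟩)
    ((card_filter_le _ _).trans (by simpa using hk))
    (by
      intro p hp
      rw [mem_filter] at hp
      exact hp.2)
  obtain ⟨t, ht⟩ := ha1
  obtain ⟨e, he, i, T, X, h1, h2, h3, h4⟩ := prev_obj ht
  refine ⟨G.lvl i, Nat.sub_le _ _, G.team (G.lvl i) o X, h2.1, ?_⟩
  intro b hb
  simp only [Geo.team, mem_filter, mem_univ, true_and] at hb
  obtain ⟨ib, Tb, hb1, hb2⟩ := hb
  obtain ⟨eb, heb, Xb, hb3, hb4⟩ := closed_X h1 b o ib Tb hb1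
  refine ⟨ib, hb2, eb, hb3.at, ?_⟩
  intro p hp
  have h5 := ha2 p (by rw [mem_filter]; exact ⟨mem_univ _, hp⟩)
  rw [stK_eq ht, h3] at h5
  exact (hb3.K_le.trans hb4).trans ((subset_insert _ _).trans h5)

end Pool.Agent.MP217Upper
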