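import Pool.Agent.MP217Upper.Protocol

set_option autoImplicit false

/-!
# Passes: information flow between processors
-/

namespace Pool.Agent.MP217Upper

open Finset

attribute [local instance] Classical.propDecidable

variable {n : ℕ} {D : Type} (G : Geo n) (Δ : Dat n D) (σ : ℕ → Option (Fin n))

/-- At time `e` processor `a` finishes pass `i` of object `o`, with targets `T` and final
knowledge `X`. -/
structure EndAt (e : ℕ) (a : Fin n) (o i : ℕ) (T : Finset (Fin n)) (X : Finset (Fact n D)) :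
    Prop where
  sched : σ e = some a
  pos : ((G.run Δ σ e).st a).pos + 1 = 2 * ((G.run Δ σ e).st a).T.length
  ho : ((G.run Δ σ e).st a).o = o
  hi : ((G.run Δ σ e).st a).i = i
  hT : T = ((G.run Δ σ e).st a).T.toFinset
  hX : X = outK a ((G.run Δ σ e).st a)
    ((G.run Δ σ e).mem (partner a ((G.run Δ σ e).st a)) a ((G.run Δ σ e).st a).o)

variable {G Δ σ}

theorem EndAt.next {e : ℕ} {a : Fin n} {o i : ℕ} {T : Finset (Fin n)} {X : Finset (Fact n D)}
    (h : EndAt G Δ σ e a o i T X) :
    (G.run Δ σ (e + 1)).st a = G.fin Δ a ((G.run Δ σ e).st a) X := by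
  have hp := (inv_run G Δ σ e).pos a
  have hpos := h.pos
  rw [run_succ_some G Δ σ h.sched, step_st_read G Δ a _ (by omega), Geo.rd, if_neg (by omega), h.hX]

theorem EndAt.K_le {e : ℕ} {a : Fin n} {o i : ℕ} {T : Finset (Fin n)} {X : Finset (Fact n D)}
    (h : EndAt G Δ σ e a o i T X) : ((G.run Δ σ e).st a).K ⊆ X := by
  rw [h.hX]
  exact subset_union_left.trans (subset_insert _ _)

theorem EndAt.done_mem {e : ℕ} {a : Fin n} {o i : ℕ} {T : Finset (Fin n)}
    {X : Finset (Fact n D)} (h : EndAt G Δ σ e a o i T X) : Fact.done a o i T ∈ X := by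
  rw [h.hX, outK, h.ho, h.hi, ← h.hT]
  exact mem_insert_self _ _

theorem EndAt.X_le {e : ℕ} {a : Fin n} {o i : ℕ} {T : Finset (Fin n)} {X : Finset (Fact n D)}
    (h : EndAt G Δ σ e a o i T X) : X ⊆ ((G.run Δ σ (e + 1)).st a).K := by
  rw [h.next]
  exact fin_K G Δ _ _ _

/-- The three possibilities for a processor at time `t`. -/
theorem step_cases (t : ℕ) (p : Fin n) :
    ((G.run Δ σ (t + 1)).st p = (G.run Δ σ t).st p ∧ σ t ≠ some p) ∨
    (σ t = some p ∧ ((G.run Δ σ t).st p).pos < ((G.run Δ σ t).st p).T.length ∧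
      (G.run Δ σ (t + 1)).st p = wr ((G.run Δ σ t).st p)) ∨
    (σ t = some p ∧ ((G.run Δ σ t).st p).T.length ≤ ((G.run Δ σ t).st p).pos ∧
      ((G.run Δ σ t).st p).pos + 1 < 2 * ((G.run Δ σ t).st p).T.length ∧
      (G.run Δ σ (t + 1)).st p = { (G.run Δ σ t).st p with
        pos := ((G.run Δ σ t).st p).pos + 1
        acc := ((G.run Δ σ t).st p).acc ∪ (G.run Δ σ t).mem
          (partner p ((G.run Δ σ t).st p)) p ((G.run Δ σ t).st p).o }) ∨
    (∃ T X, EndAt G Δ σ t p ((G.run Δ σ t).st p).o ((G.run Δ σ t).st p).i T X) := by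
  by_cases hs : σ t = some p
  · by_cases hw : ((G.run Δ σ t).st p).pos < ((G.run Δ σ t).st p).T.length
    · right; left
      refine ⟨hs, hw, ?_⟩
      rw [run_succ_some G Δ σ hs, step_st_write G Δ p _ hw]
    · by_cases hl : ((G.run Δ σ t).st p).pos + 1 < 2 * ((G.run Δ σ t).st p).T.length
      · right; right; left
        refine ⟨hs, by omega, hl, ?_⟩
        rw [run_succ_some G Δ σ hs, step_st_read G Δ p _ hw, Geo.rd, if_pos hl]
      · right; right; right
        have hp := (inv_run G Δ σ t).pos p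
        exact ⟨_, _, hs, by omega, rfl, rfl, rfl, rfl⟩
  · left
    refine ⟨?_, hs⟩
    cases h : σ t with
    | none => rw [run_succ_none G Δ σ h]
    | some q =>
      rw [run_succ_some G Δ σ h, step_st_ne]
      rintro rfl
      exact hs h

/-- Between two consecutive times the pass does not change unless it is finished. -/
theorem same_or_end (t : ℕ) (p : Fin n) :
    (((G.run Δ σ (t + 1)).st p).o = ((G.run Δ σ t).st p).o ∧
      ((G.run Δ σ (t + 1)).st p).i = ((G.run Δ σ t).st p).i ∧
      ((G.run Δ σ (t + 1)).st p).d = ((G.run Δ σ t).st p).d ∧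
      ((G.run Δ σ (t + 1)).st p).K = ((G.run Δ σ t).st p).K ∧
      ((G.run Δ σ (t + 1)).st p).T = ((G.run Δ σ t).st p).T) ∨
    (∃ T X, EndAt G Δ σ t p ((G.run Δ σ t).st p).o ((G.run Δ σ t).st p).i T X) := by
  rcases step_cases (G := G) (Δ := Δ) (σ := σ) t p with h | h | h | h
  · left; rw [h.1]; simp
  · left; rw [h.2.2]; simp [wr]
  · left; rw [h.2.2.2]; simp
  · right; exact h

theorem fin_oi (p : Fin n) (s : LSt n D) (X : Finset (Fact n D)) :
    ((G.fin Δ p s X).o = s.o ∧ (G.fin Δ p s X).i = s.i + 1) ∨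
    ((G.fin Δ p s X).o = s.o + 1 ∧ (G.fin Δ p s X).i = 0) := by
  unfold Geo.fin
  split_ifs
  · right; exact ⟨rfl, rfl⟩
  · left; exact ⟨rfl, rfl⟩

/-- The lexicographic order of passes. -/
def LexLe (o i o' i' : ℕ) : Prop := o < o' ∨ (o = o' ∧ i ≤ i')

theorem lex_succ (t : ℕ) (p : Fin n) :
    LexLe ((G.run Δ σ t).st p).o ((G.run Δ σ t).st p).i
      ((G.run Δ σ (t + 1)).st p).o ((G.run Δ σ (t + 1)).st p).i := by
  rcases same_or_end (G := G) (Δ := Δ) (σ := σ) t p with h | ⟨T, X, h⟩
  · right; rw [h.1, h.2.1]; exact ⟨rfl, le_rfl⟩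
  · rw [h.next]
    rcases fin_oi (G := G) (Δ := Δ) p ((G.run Δ σ t).st p) X with h' | h'
    · right; rw [h'.1, h'.2]; exact ⟨rfl, by omega⟩
    · left; rw [h'.1]; omega

theorem lex_mono {t t' : ℕ} (htt : t ≤ t') (p : Fin n) :
    LexLe ((G.run Δ σ t).st p).o ((G.run Δ σ t).st p).i
      ((G.run Δ σ t').st p).o ((G.run Δ σ t').st p).i := by
  induction htt with
  | refl => right; exact ⟨rfl, le_rfl⟩
  | @step m _ ih =>
    have h1 := lex_succ (G := G) (Δ := Δ) (σ := σ) m p
    unfold LexLe at *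
    simp only [Nat.succ_eq_add_one] at *
    omega

theorem EndAt.lex {e : ℕ} {a : Fin n} {o i : ℕ} {T : Finset (Fin n)} {X : Finset (Fact n D)}
    (h : EndAt G Δ σ e a o i T X) {t : ℕ} (ht : e < t) :
    LexLe o (i + 1) ((G.run Δ σ t).st a).o ((G.run Δ σ t).st a).i := by
  have h1 := lex_mono (G := G) (Δ := Δ) (σ := σ) (show e + 1 ≤ t from ht) a
  have h2 : LexLe o (i + 1) ((G.run Δ σ (e + 1)).st a).o ((G.run Δ σ (e + 1)).st a).i := by
    rw [h.next]
    have := h.ho
    have := h.hi
    rcases fin_oi (G := G) (Δ := Δ) a ((G.run Δ σ e).st a) X with h' | h'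
    · right; rw [h'.1, h'.2]; constructor <;> omega
    · left; rw [h'.1]; omega
  unfold LexLe at *
  omega

theorem EndAt.unique {e e' : ℕ} {a : Fin n} {o i : ℕ} {T T' : Finset (Fin n)}
    {X X' : Finset (Fact n D)} (h : EndAt G Δ σ e a o i T X) (h' : EndAt G Δ σ e' a o i T' X') :
    e = e' ∧ T = T' ∧ X = X' := by
  have key : ∀ {e e' : ℕ} {T T' : Finset (Fin n)} {X X' : Finset (Fact n D)},
      EndAt G Δ σ e a o i T X → EndAt G Δ σ e' a o i T' X' → ¬ e < e' := by
    intro e e' T T' X X' h h' hlt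
    have := h.lex hlt
    rw [h'.ho, h'.hi] at this
    unfold LexLe at this
    omega
  have he : e = e' := by
    have h1 := key h h'
    have h2 := key h' h
    omega
  subst he
  exact ⟨rfl, h.hT.trans h'.hT.symm, h.hX.trans h'.hX.symm⟩

/-- During a pass the knowledge, the data and the targets are constant. -/
theorem same_pass {t t' : ℕ} (htt : t ≤ t') {p : Fin n}
    (ho : ((G.run Δ σ t').st p).o = ((G.run Δ σ t).st p).o)
    (hi : ((G.run Δ σ t').st p).i = ((G.run Δ σ t).st p).i) :
    ((G.run Δ σ t').st p).d = ((G.run Δ σ t).st p).d ∧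
      ((G.run Δ σ t').st p).K = ((G.run Δ σ t).st p).K ∧
      ((G.run Δ σ t').st p).T = ((G.run Δ σ t).st p).T := by
  induction htt with
  | refl => simp
  | @step m hm ih =>
    have h1 := lex_mono (G := G) (Δ := Δ) (σ := σ) hm p
    simp only [Nat.succ_eq_add_one] at *
    rcases same_or_end (G := G) (Δ := Δ) (σ := σ) m p with h | ⟨T, X, h⟩
    · obtain ⟨h2, h3, h4⟩ := ih (by rw [← h.1, ho]) (by rw [← h.2.1, hi])
      rw [h.2.2.1, h.2.2.2.1, h.2.2.2.2]
      exact ⟨h2, h3, h4⟩
    · have h2 := h.lex (Nat.lt_succ_self m)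
      simp only [Nat.succ_eq_add_one] at h2
      unfold LexLe at *
      omega

/-! ### Closure of knowledge under the past -/

variable (G Δ σ) in
/-- Every completed pass mentioned in `Z` was completed before time `t`, and `Z` contains the
knowledge of the processor at that moment. -/
def Closed (t : ℕ) (Z : Finset (Fact n D)) : Prop :=
  ∀ a o i T, Fact.done a o i T ∈ Z → ∃ e < t, ∃ X, EndAt G Δ σ e a o i T X ∧ X ⊆ Z

theorem Closed.mono {t t' : ℕ} (h : t ≤ t') {Z : Finset (Fact n D)} (hZ : Closed G Δ σ t Z) :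
    Closed G Δ σ t' Z := by
  intro a o i T hd
  obtain ⟨e, he, X, h1, h2⟩ := hZ a o i T hd
  exact ⟨e, by omega, X, h1, h2⟩

theorem Closed.union {t : ℕ} {Z Z' : Finset (Fact n D)} (hZ : Closed G Δ σ t Z)
    (hZ' : Closed G Δ σ t Z') : Closed G Δ σ t (Z ∪ Z') := by
  intro a o i T hd
  rcases mem_union.mp hd with hd | hd
  · obtain ⟨e, he, X, h1, h2⟩ := hZ a o i T hd
    exact ⟨e, he, X, h1, h2.trans subset_union_left⟩
  · obtain ⟨e, he, X, h1, h2⟩ := hZ' a o i T hd
    exact ⟨e, he, X, h1, h2.trans subset_union_right⟩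

theorem Closed.insert_lab {t : ℕ} {Z : Finset (Fact n D)} (hZ : Closed G Δ σ t Z)
    (p : Fin n) (o' i' : ℕ) (d : D) : Closed G Δ σ t (insert (Fact.lab p o' i' d) Z) := by
  intro a o i T hd
  rw [mem_insert] at hd
  rcases hd with hd | hd
  · cases hd
  · obtain ⟨e, he, X, h1, h2⟩ := hZ a o i T hd
    exact ⟨e, he, X, h1, h2.trans (subset_insert _ _)⟩

theorem Closed.empty (t : ℕ) : Closed G Δ σ t ∅ := by
  intro a o i T hd
  simp at hd

theorem closed_run (t : ℕ) : (∀ p, Closed G Δ σ t ((G.run Δ σ t).st p).K) ∧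
    (∀ p, Closed G Δ σ t ((G.run Δ σ t).st p).acc) ∧
    (∀ w x o, Closed G Δ σ t ((G.run Δ σ t).mem w x o)) := by
  induction t with
  | zero =>
    refine ⟨fun p => ?_, fun p => Closed.empty 0, fun w x o => Closed.empty 0⟩
    exact (Closed.empty 0).insert_lab _ _ _ _
  | succ t ih =>
    obtain ⟨h1, h2, h3⟩ := ih
    have hm := Nat.le_succ t
    have hmem : ∀ w x o, Closed G Δ σ (t + 1) ((G.run Δ σ (t + 1)).mem w x o) := by
      intro w x o
      cases hs : σ t with
      | none => rw [run_succ_none G Δ σ hs]; exact (h3 w x o).mono hm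
      | some p =>
        rw [run_succ_some G Δ σ hs]
        by_cases hw : w = p
        · subst hw
          by_cases hpos : ((G.run Δ σ t).st w).pos < ((G.run Δ σ t).st w).T.length
          · rw [step_mem_write G Δ w _ hpos]
            split_ifs
            · exact (h1 w).mono hm
            · exact (h3 w x o).mono hm
          · rw [step_mem_read G Δ w _ hpos]; exact (h3 w x o).mono hm
        · rw [step_mem_ne G Δ p _ hw]; exact (h3 w x o).mono hm
    have hX : ∀ p T X, EndAt G Δ σ t p ((G.run Δ σ t).st p).o ((G.run Δ σ t).st p).i T X →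
        Closed G Δ σ (t + 1) X := by
      intro p T X h a o i T' hd
      have hX := h.hX
      rw [outK] at hX
      rw [hX, mem_insert] at hd
      rcases hd with hd | hd
      · cases hd
        refine ⟨t, by omega, X, ?_, Subset.rfl⟩
        have hT := h.hT
        rw [← hT]
        exact h
      · obtain ⟨e, he, X', h4, h5⟩ := ((h1 p).union ((h2 p).union (h3 _ _ _))) a o i T' hd
        refine ⟨e, by omega, X', h4, h5.trans ?_⟩
        rw [hX]
        exact subset_insert _ _
    refine ⟨fun p => ?_, fun p => ?_, hmem⟩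
    · rcases same_or_end (G := G) (Δ := Δ) (σ := σ) t p with h | ⟨T, X, h⟩
      · rw [h.2.2.2.1]; exact (h1 p).mono hm
      · rw [h.next]
        unfold Geo.fin
        split_ifs
        · exact (hX p T X h).insert_lab _ _ _ _
        · exact (hX p T X h).insert_lab _ _ _ _
    · rcases step_cases (G := G) (Δ := Δ) (σ := σ) t p with h | h | h | ⟨T, X, h⟩
      · rw [h.1]; exact (h2 p).mono hm
      · rw [h.2.2]; exact (h2 p).mono hm
      · rw [h.2.2.2]; exact ((h2 p).union (h3 _ _ _)).mono hm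
      · rw [h.next, fin_acc]; exact Closed.empty _

theorem closed_X {e : ℕ} {a : Fin n} {o i : ℕ} {T : Finset (Fin n)} {X : Finset (Fact n D)}
    (h : EndAt G Δ σ e a o i T X) : Closed G Δ σ (e + 1) X := by
  intro b o' i' T' hd
  have h1 := (closed_run (G := G) (Δ := Δ) (σ := σ) e)
  have hX := h.hX
  rw [outK] at hX
  rw [hX, mem_insert] at hd
  rcases hd with hd | hd
  · cases hd
    refine ⟨e, by omega, X, ?_, Subset.rfl⟩
    rw [← h.hT, h.ho, h.hi]
    exact h
  · obtain ⟨e', he, X', h4, h5⟩ := ((h1.1 a).union ((h1.2.1 a).union (h1.2.2 _ _ _))) b o' i' T' hd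
    refine ⟨e', by omega, X', h4, h5.trans ?_⟩
    rw [hX]
    exact subset_insert _ _

/-! ### Reads -/

variable (G Δ σ) in
/-- A read of `x` by `a` at time `r` during pass `(o, i)`. -/
def ReadAt (r : ℕ) (a : Fin n) (o i : ℕ) (x : Fin n) (K : Finset (Fact n D)) : Prop :=
  ((G.run Δ σ r).st a).o = o ∧ ((G.run Δ σ r).st a).i = i ∧
    ((G.run Δ σ r).st a).T.length ≤ ((G.run Δ σ r).st a).pos ∧
    (G.run Δ σ r).mem x a o ⊆ K

theorem reads_run (t : ℕ) (p : Fin n) (idx : ℕ)
    (hidx : ((G.run Δ σ t).st p).T.length + idx < ((G.run Δ σ t).st p).pos) :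
    ∃ r < t, ReadAt G Δ σ r p ((G.run Δ σ t).st p).o ((G.run Δ σ t).st p).i
      (((G.run Δ σ t).st p).T.getD idx p) ((G.run Δ σ t).st p).acc := by
  induction t with
  | zero =>
    change _ < 0 at hidx
    omega
  | succ t ih =>
    rcases step_cases (G := G) (Δ := Δ) (σ := σ) t p with h | h | h | ⟨T, X, h⟩
    · rw [h.1] at hidx ⊢
      obtain ⟨r, hr, h'⟩ := ih hidx
      exact ⟨r, by omega, h'⟩
    · rw [h.2.2] at hidx
      simp only [wr] at hidx
      omega
    · rw [h.2.2.2] at hidx ⊢
      simp only at hidx ⊢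
      by_cases hlast : ((G.run Δ σ t).st p).T.length + idx < ((G.run Δ σ t).st p).pos
      · obtain ⟨r, hr, h'⟩ := ih hlast
        exact ⟨r, by omega, h'.1, h'.2.1, h'.2.2.1, h'.2.2.2.trans subset_union_left⟩
      · refine ⟨t, by omega, rfl, rfl, h.2.1, ?_⟩
        have : partner p ((G.run Δ σ t).st p) = ((G.run Δ σ t).st p).T.getD idx p := by
          unfold partner
          rw [if_neg (by omega)]
          congr 1
          omega
        rw [this]
        exact subset_union_right
    · rw [h.next, fin_pos] at hidx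
      omega

/-- For a finished pass: for each target `x` there is a time at which `x` was read and all writes
of the pass had been performed. -/
theorem EndAt.read {e : ℕ} {a : Fin n} {o i : ℕ} {T : Finset (Fin n)} {X : Finset (Fact n D)}
    (h : EndAt G Δ σ e a o i T X) {x : Fin n} (hx : x ∈ T) :
    ∃ r ≤ e, ((G.run Δ σ r).st a).o = o ∧ ((G.run Δ σ r).st a).i = i ∧
      (∀ y ∈ T, ((G.run Δ σ e).st a).K ⊆ (G.run Δ σ r).mem a y o) ∧
      (G.run Δ σ r).mem x a o ⊆ X := by
  have hT := h.hT
  rw [hT, List.mem_toFinset, List.mem_iff_getElem] at hx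
  obtain ⟨idx, hidx, hxe⟩ := hx
  have hpos := h.pos
  have hget : ((G.run Δ σ e).st a).T.getD idx a = x := by
    rw [List.getD_eq_getElem _ _ hidx, hxe]
  have key : ∃ r ≤ e, ReadAt G Δ σ r a o i x X := by
    by_cases hlast : idx + 1 = ((G.run Δ σ e).st a).T.length
    · refine ⟨e, le_rfl, h.ho, h.hi, by omega, ?_⟩
      have : partner a ((G.run Δ σ e).st a) = x := by
        unfold partner
        rw [if_neg (by omega), ← hget]
        congr 1
        omega
      rw [h.hX, this, outK, ← h.ho]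
      exact (subset_union_right.trans subset_union_right).trans (subset_insert _ _)
    · obtain ⟨r, hr, h'⟩ := reads_run (G := G) (Δ := Δ) (σ := σ) e a idx (by omega)
      rw [hget, h.ho, h.hi] at h'
      refine ⟨r, hr.le, h'.1, h'.2.1, h'.2.2.1, h'.2.2.2.trans ?_⟩
      rw [h.hX, outK]
      exact (subset_union_left.trans subset_union_right).trans (subset_insert _ _)
  obtain ⟨r, hr, h1, h2, h3, h4⟩ := key
  refine ⟨r, hr, h1, h2, ?_, h4⟩
  intro y hy
  have hsame := same_pass (G := G) (Δ := Δ) (σ := σ) hr (p := a) (by rw [h.ho, h1])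
    (by rw [h.hi, h2])
  rw [hT, List.mem_toFinset, hsame.2.2, List.mem_iff_getElem] at hy
  obtain ⟨idy, hidy, hye⟩ := hy
  have := (inv_run G Δ σ r).written a idy (by omega) hidy
  rw [List.getD_eq_getElem _ _ hidy, hye, h1] at this
  rw [hsame.2.1]
  exact this

/-- Dekker: of two processors that target each other, one sees the other. -/
theorem dekker {e e' : ℕ} {a b : Fin n} {o i i' : ℕ} {T T' : Finset (Fin n)}
    {X X' : Finset (Fact n D)} (h : EndAt G Δ σ e a o i T X) (h' : EndAt G Δ σ e' b o i' T' X')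
    (hb : b ∈ T) (ha : a ∈ T') :
    ((G.run Δ σ e).st a).K ⊆ X' ∨ ((G.run Δ σ e').st b).K ⊆ X := by
  obtain ⟨r, hr, h1, h2, h3, h4⟩ := h.read hb
  obtain ⟨r', hr', h1', h2', h3', h4'⟩ := h'.read ha
  rcases le_total r r' with hle | hle
  · left
    exact (h3 b hb).trans ((run_mem_mono G Δ σ hle a b o).trans h4')
  · right
    exact (h3' a ha).trans ((run_mem_mono G Δ σ hle b a o).trans h4)

/-- If `b` starts its pass after `a` has finished, then `b` sees `a`. -/
theorem flow {e e' : ℕ} {a b : Fin n} {o i i' : ℕ} {T T' : Finset (Fin n)}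
    {X X' : Finset (Fact n D)} (h : EndAt G Δ σ e a o i T X) (h' : EndAt G Δ σ e' b o i' T' X')
    (hb : b ∈ T) (ha : a ∈ T')
    (hlate : ∀ r, ((G.run Δ σ r).st b).o = o → ((G.run Δ σ r).st b).i = i' → e < r) :
    ((G.run Δ σ e).st a).K ⊆ X' := by
  obtain ⟨r, hr, h1, h2, h3, h4⟩ := h.read hb
  obtain ⟨r', hr', h1', h2', h3', h4'⟩ := h'.read ha
  have := hlate r' h1' h2'
  exact (h3 b hb).trans ((run_mem_mono G Δ σ (by omega) a b o).trans h4')

/-! ### Genuine labels -/

variable (G Δ σ) in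
/-- Every label in `Z` is genuine. -/
def Genuine (t : ℕ) (Z : Finset (Fact n D)) : Prop :=
  ∀ a o i d, Fact.lab a o i d ∈ Z → ∃ t' ≤ t, ((G.run Δ σ t').st a).o = o ∧
    ((G.run Δ σ t').st a).i = i ∧ ((G.run Δ σ t').st a).d = d

theorem Genuine.mono {t t' : ℕ} (h : t ≤ t') {Z : Finset (Fact n D)} (hZ : Genuine G Δ σ t Z) :
    Genuine G Δ σ t' Z := by
  intro a o i T hd
  obtain ⟨e, he, h1⟩ := hZ a o i T hd
  exact ⟨e, by omega, h1⟩

theorem Genuine.union {t : ℕ} {Z Z' : Finset (Fact n D)} (hZ : Genuine G Δ σ t Z)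
    (hZ' : Genuine G Δ σ t Z') : Genuine G Δ σ t (Z ∪ Z') := by
  intro a o i T hd
  rcases mem_union.mp hd with hd | hd
  · exact hZ a o i T hd
  · exact hZ' a o i T hd

theorem Genuine.insert_done {t : ℕ} {Z : Finset (Fact n D)} (hZ : Genuine G Δ σ t Z)
    (p : Fin n) (o' i' : ℕ) (T : Finset (Fin n)) :
    Genuine G Δ σ t (insert (Fact.done p o' i' T) Z) := by
  intro a o i d hd
  rw [mem_insert] at hd
  rcases hd with hd | hd
  · cases hd
  · exact hZ a o i d hd

theorem genuine_run (t : ℕ) : (∀ p, Genuine G Δ σ t ((G.run Δ σ t).st p).K) ∧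
    (∀ p, Genuine G Δ σ t ((G.run Δ σ t).st p).acc) ∧
    (∀ w x o, Genuine G Δ σ t ((G.run Δ σ t).mem w x o)) := by
  induction t with
  | zero =>
    refine ⟨fun p => ?_, fun p a o i d hd => ?_, fun w x o a o' i d hd => ?_⟩
    · intro a o i d hd
      change _ ∈ insert (Fact.lab p 0 0 (Δ.d0 p)) ∅ at hd
      rw [mem_insert] at hd
      rcases hd with hd | hd
      · cases hd
        exact ⟨0, le_rfl, rfl, rfl, rfl⟩
      · simp at hd
    · change _ ∈ (∅ : Finset (Fact n D)) at hd
      simp at hd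
    · change _ ∈ (∅ : Finset (Fact n D)) at hd
      simp at hd
  | succ t ih =>
    obtain ⟨h1, h2, h3⟩ := ih
    have hm := Nat.le_succ t
    have hmem : ∀ w x o, Genuine G Δ σ (t + 1) ((G.run Δ σ (t + 1)).mem w x o) := by
      intro w x o
      cases hs : σ t with
      | none => rw [run_succ_none G Δ σ hs]; exact (h3 w x o).mono hm
      | some p =>
        rw [run_succ_some G Δ σ hs]
        by_cases hw : w = p
        · subst hw
          by_cases hpos : ((G.run Δ σ t).st w).pos < ((G.run Δ σ t).st w).T.length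
          · rw [step_mem_write G Δ w _ hpos]
            split_ifs
            · exact (h1 w).mono hm
            · exact (h3 w x o).mono hm
          · rw [step_mem_read G Δ w _ hpos]; exact (h3 w x o).mono hm
        · rw [step_mem_ne G Δ p _ hw]; exact (h3 w x o).mono hm
    refine ⟨fun p => ?_, fun p => ?_, hmem⟩
    · rcases same_or_end (G := G) (Δ := Δ) (σ := σ) t p with h | ⟨T, X, h⟩
      · rw [h.2.2.2.1]; exact (h1 p).mono hm
      · have hX : Genuine G Δ σ (t + 1) X := by
          rw [h.hX, outK]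
          exact (((h1 p).union ((h2 p).union (h3 _ _ _))).insert_done _ _ _ _).mono hm
        intro a o i d hd
        have hfin := h.next
        by_cases hc : G.cert ((G.run Δ σ t).st p).o (G.lvl ((G.run Δ σ t).st p).i) X
        · rw [Geo.fin, if_pos hc] at hfin
          rw [hfin] at hd
          simp only [Geo.beg, mem_insert] at hd
          rcases hd with hd | hd
          · cases hd
            exact ⟨t + 1, le_rfl, by rw [hfin]; rfl, by rw [hfin]; rfl, by rw [hfin]; rfl⟩
          · exact hX a o i d hd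
        · rw [Geo.fin, if_neg hc] at hfin
          rw [hfin] at hd
          simp only [Geo.beg, mem_insert] at hd
          rcases hd with hd | hd
          · cases hd
            exact ⟨t + 1, le_rfl, by rw [hfin]; rfl, by rw [hfin]; rfl, by rw [hfin]; rfl⟩
          · exact hX a o i d hd
    · rcases step_cases (G := G) (Δ := Δ) (σ := σ) t p with h | h | h | ⟨T, X, h⟩
      · rw [h.1]; exact (h2 p).mono hm
      · rw [h.2.2]; exact (h2 p).mono hm
      · rw [h.2.2.2]; exact ((h2 p).union (h3 _ _ _)).mono hm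
      · rw [h.next, fin_acc]
        intro a o i d hd
        simp at hd

end Pool.Agent.MP217Upper
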