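import Pool.Agent.MP217Upper.Impl

set_option autoImplicit false

/-!
# Probabilities
-/

namespace Pool.Agent.MP217Upper

open Finset MeasureTheory ProbabilityTheory
open scoped ENNReal

attribute [local instance] Classical.propDecidable

/-! ### One processor -/

/-- The law of the coins of one processor. -/
noncomputable def one : Measure (ℕ → Bool) :=
  Measure.infinitePi fun _ => (PMF.uniformOfFintype Bool).toMeasure

instance : IsProbabilityMeasure one := by unfold one; infer_instance

theorem coins_eq (n : ℕ) : Model.coins n = Measure.pi fun _ => one := rfl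

instance (n : ℕ) : IsProbabilityMeasure (Model.coins n) := by
  rw [coins_eq]; infer_instance

theorem one_tick (lam r l : ℕ) :
    one {x | tickOf lam x r l = true} = (2⁻¹ : ℝ≥0∞) ^ (l + lam) := by
  have h : {x : ℕ → Bool | tickOf lam x r l = true} =
      Set.pi (((range (l + lam)).image (Nat.pair r) : Finset ℕ) : Set ℕ) (fun _ => {true}) := by
    ext x
    simp [tickOf, Set.mem_pi]
  have hinj : Function.Injective (Nat.pair r) := fun a b hab => by
    have := congrArg (fun z => (Nat.unpair z).2) hab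
    simpa using this
  rw [h, one, Measure.infinitePi_pi _ (fun _ _ => measurableSet_singleton _), prod_const,
    card_image_of_injective _ hinj, card_range]
  congr 1
  rw [PMF.toMeasure_apply_singleton _ _ (measurableSet_singleton _)]
  simp

/-! ### One round -/

section round

variable {n : ℕ} (lam r l : ℕ) (A : Finset (Fin n)) (B : Fin n → Finset ℕ)

/-- Exactly one ticket, held by a member of `A`. -/
def Win : Set (Fin n → ℕ → Bool) :=
  {c | ∃ a ∈ A, tickOf lam (c a) r l = true ∧
    ∀ p, p ≠ a → ∀ l' ∈ B p, tickOf lam (c p) r l' = false}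

theorem meas_tick (M : MeasurableSpace (Fin n → ℕ → Bool))
    (hM : ∀ p j, MeasurableSet[M] {c | c p (Nat.pair r j) = true}) (p : Fin n) (l' : ℕ) :
    MeasurableSet[M] {c | tickOf lam (c p) r l' = true} := by
  have : {c : Fin n → ℕ → Bool | tickOf lam (c p) r l' = true} =
      ⋂ j, ⋂ (_ : j < l' + lam), {c : Fin n → ℕ → Bool | c p (Nat.pair r j) = true} := by
    ext c
    simp [tickOf]
  rw [this]
  exact MeasurableSet.iInter fun j => MeasurableSet.iInter fun _ => hM p j

theorem meas_Win (M : MeasurableSpace (Fin n → ℕ → Bool))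
    (hM : ∀ p j, MeasurableSet[M] {c | c p (Nat.pair r j) = true}) :
    MeasurableSet[M] (Win lam r l A B) := by
  have : Win lam r l A B = ⋃ a, ⋃ (_ : a ∈ A), ({c | tickOf lam (c a) r l = true} ∩
      ⋂ p, ⋂ (_ : p ≠ a), ⋂ l', ⋂ (_ : l' ∈ B p), {c | tickOf lam (c p) r l' = true}ᶜ) := by
    ext c
    simp only [Win, Set.mem_iUnion, Set.mem_inter_iff, Set.mem_iInter, Set.mem_compl_iff]
    constructor
    · rintro ⟨a, h1, h2, h3⟩
      refine ⟨a, h1, h2, fun p hp l' hl' => ?_⟩
      change ¬ (tickOf lam (c p) r l' = true)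
      rw [h3 p hp l' hl']
      simp
    · rintro ⟨a, h1, h2, h3⟩
      refine ⟨a, h1, h2, fun p hp l' hl' => ?_⟩
      have h4 : ¬ (tickOf lam (c p) r l' = true) := h3 p hp l' hl'
      simpa using h4
  rw [this]
  refine MeasurableSet.iUnion fun a => MeasurableSet.iUnion fun _ => ?_
  refine (meas_tick lam r M hM a l).inter ?_
  refine MeasurableSet.iInter fun p => MeasurableSet.iInter fun _ => MeasurableSet.iInter
    fun l' => MeasurableSet.iInter fun _ => ?_
  exact (meas_tick lam r M hM p l').compl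

/-- The good coins of `p`. -/
def Quiet (p : Fin n) : Set (ℕ → Bool) := {x | ∀ l' ∈ B p, tickOf lam x r l' = false}

theorem meas_Quiet (p : Fin n) : MeasurableSet (Quiet lam r B p) := by
  have : Quiet lam r B p = ⋂ l', ⋂ (_ : l' ∈ B p), {x | tickOf lam x r l' = false} := by
    ext c
    simp [Quiet]
  rw [this]
  exact MeasurableSet.iInter fun l' => MeasurableSet.iInter fun _ => fib_tick lam r l' false

theorem one_Quiet_compl (p : Fin n) :
    one (Quiet lam r B p)ᶜ ≤ ∑ l' ∈ B p, (2⁻¹ : ℝ≥0∞) ^ (l' + lam) := by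
  have : (Quiet lam r B p)ᶜ = ⋃ l' ∈ B p, {x | tickOf lam x r l' = true} := by
    ext c
    simp [Quiet]
  rw [this]
  refine (measure_biUnion_finset_le _ _).trans ?_
  apply sum_le_sum
  intro l' _
  rw [one_tick]

theorem prod_Quiet (h : ∑ p, ∑ l' ∈ B p, (2⁻¹ : ℝ≥0∞) ^ (l' + lam) ≤ 2⁻¹) :
    (2⁻¹ : ℝ≥0∞) ≤ ∏ p, one (Quiet lam r B p) := by
  have h1 : ∏ p, one (Quiet lam r B p) = Model.coins n (Set.pi Set.univ (Quiet lam r B)) := by
    rw [coins_eq, Measure.pi_pi]
  have h2 : Model.coins n (Set.pi Set.univ (Quiet lam r B))ᶜ ≤ 2⁻¹ := by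
    have : (Set.pi Set.univ (Quiet lam r B))ᶜ ⊆
        ⋃ p ∈ (univ : Finset (Fin n)), (Function.eval p) ⁻¹' (Quiet lam r B p)ᶜ := by
      intro c hc
      simp only [Set.mem_compl_iff, Set.mem_pi, Set.mem_univ, true_implies, not_forall] at hc
      obtain ⟨p, hp⟩ := hc
      simp only [mem_univ, Set.iUnion_true, Set.mem_iUnion]
      exact ⟨p, hp⟩
    refine (measure_mono this).trans ((measure_biUnion_finset_le _ _).trans (le_trans ?_ h))
    apply sum_le_sum
    intro p _
    rw [coins_eq, (measurePreserving_eval (fun _ : Fin n => one) p).measure_preimage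
      (meas_Quiet lam r B p).compl.nullMeasurableSet]
    exact one_Quiet_compl lam r B p
  have hm : MeasurableSet (Set.pi Set.univ (Quiet lam r B)) :=
    MeasurableSet.univ_pi fun p => meas_Quiet lam r B p
  rw [h1]
  have h3 : Model.coins n (Set.pi Set.univ (Quiet lam r B))ᶜ =
      1 - Model.coins n (Set.pi Set.univ (Quiet lam r B)) := prob_compl_eq_one_sub hm
  rw [h3] at h2
  have h4 : (1 : ℝ≥0∞) ≤ 2⁻¹ + Model.coins n (Set.pi Set.univ (Quiet lam r B)) :=
    tsub_le_iff_right.mp h2
  have h5 : (2⁻¹ : ℝ≥0∞) + 2⁻¹ = 1 := ENNReal.inv_two_add_inv_two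
  rw [← h5] at h4
  exact (ENNReal.add_le_add_iff_left (by simp)).mp h4

theorem coins_Win (hA : 2 ^ l ≤ A.card) (hAB : ∀ a ∈ A, l ∈ B a)
    (h : ∑ p, ∑ l' ∈ B p, (2⁻¹ : ℝ≥0∞) ^ (l' + lam) ≤ 2⁻¹) :
    (2⁻¹ : ℝ≥0∞) ^ (lam + 1) ≤ Model.coins n (Win lam r l A B) := by
  set Rec : Fin n → Set (Fin n → ℕ → Bool) := fun a =>
    Set.pi Set.univ fun p => if p = a then {x | tickOf lam x r l = true} else Quiet lam r B p
    with hRec
  have hmeas : ∀ a, MeasurableSet (Rec a) := by
    intro a
    refine MeasurableSet.univ_pi fun p => ?_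
    split_ifs
    · exact fib_tick lam r l true
    · exact meas_Quiet lam r B p
  have hval : ∀ a, (2⁻¹ : ℝ≥0∞) ^ (l + lam) * 2⁻¹ ≤ Model.coins n (Rec a) := by
    intro a
    rw [coins_eq, hRec, Measure.pi_pi, ← mul_prod_erase univ _ (mem_univ a)]
    rw [if_pos rfl, one_tick]
    apply mul_le_mul_right
    refine (prod_Quiet lam r B h).trans ?_
    rw [← mul_prod_erase univ _ (mem_univ a)]
    calc one (Quiet lam r B a) * ∏ x ∈ univ.erase a, one (Quiet lam r B x)
        ≤ 1 * ∏ x ∈ univ.erase a, one (Quiet lam r B x) := by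
          apply mul_le_mul_left
          exact prob_le_one
      _ = ∏ x ∈ univ.erase a, one (Quiet lam r B x) := one_mul _
      _ ≤ _ := by
          apply le_of_eq
          apply prod_congr rfl
          intro x hx
          rw [if_neg (ne_of_mem_erase hx)]
  have hsub : (⋃ a ∈ A, Rec a) ⊆ Win lam r l A B := by
    intro c hc
    simp only [Set.mem_iUnion] at hc
    obtain ⟨a, ha, hc⟩ := hc
    simp only [hRec, Set.mem_pi, Set.mem_univ, true_implies] at hc
    refine ⟨a, ha, ?_, ?_⟩
    · have := hc a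
      rw [if_pos rfl] at this
      exact this
    · intro p hp
      have := hc p
      rw [if_neg hp] at this
      exact this
  have hdisj : Set.PairwiseDisjoint (A : Set (Fin n)) Rec := by
    intro a ha a' ha' hne
    rw [Function.onFun, Set.disjoint_left]
    intro c hc hc'
    simp only [hRec, Set.mem_pi, Set.mem_univ, true_implies] at hc hc'
    have h1 := hc a
    have h2 := hc' a
    rw [if_pos rfl] at h1
    rw [if_neg hne] at h2
    have h3 := h2 l (hAB a ha)
    change tickOf lam (c a) r l = true at h1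
    rw [h1] at h3
    exact absurd h3 (by simp)
  calc (2⁻¹ : ℝ≥0∞) ^ (lam + 1) = 2 ^ l * ((2⁻¹ : ℝ≥0∞) ^ (l + lam) * 2⁻¹) := by
        rw [pow_succ, pow_add]
        have : (2 : ℝ≥0∞) ^ l * (2⁻¹ : ℝ≥0∞) ^ l = 1 := by
          rw [← mul_pow, ENNReal.mul_inv_cancel (by simp) (by simp), one_pow]
        rw [← mul_assoc, ← mul_assoc, this, one_mul]
    _ ≤ A.card * ((2⁻¹ : ℝ≥0∞) ^ (l + lam) * 2⁻¹) := by
        apply mul_le_mul_left
        exact_mod_cast hA
    _ = ∑ _a ∈ A, ((2⁻¹ : ℝ≥0∞) ^ (l + lam) * 2⁻¹) := by rw [sum_const, nsmul_eq_mul]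
    _ ≤ ∑ a ∈ A, Model.coins n (Rec a) := sum_le_sum fun a _ => hval a
    _ = Model.coins n (⋃ a ∈ A, Rec a) :=
        (measure_biUnion_finset hdisj fun a _ => hmeas a).symm
    _ ≤ _ := measure_mono hsub

end round

/-! ### Independence of rounds -/

section indep

variable {n : ℕ}

theorem iIndep_coins : iIndepFun (fun (i : Fin n × ℕ) (c : Fin n → ℕ → Bool) => c i.1 i.2)
    (Model.coins n) := by
  have h := iIndepFun_uncurry_infinitePi' (ι := Fin n) (κ := ℕ)
    (Ω := fun _ _ => Bool) (X := fun _ _ x => x)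
    (fun _ _ => (PMF.uniformOfFintype Bool).toMeasure) (fun _ _ => measurable_id)
  rw [Measure.infinitePi_eq_pi] at h
  exact h

variable (E : ℕ → Set (Fin n → ℕ → Bool))

/-- No success before round `m`. -/
def Fail (m : ℕ) : Set (Fin n → ℕ → Bool) := {c | ∀ r < m, c ∉ E r}

theorem Fail_succ (m : ℕ) : Fail E (m + 1) = Fail E m ∩ (E m)ᶜ := by
  ext c
  simp only [Fail, Set.mem_inter_iff, Set.mem_compl_iff]
  constructor
  · intro h
    exact ⟨fun r hr => h r (by omega), h m (by omega)⟩
  · rintro ⟨h1, h2⟩ r hr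
    rcases Nat.lt_succ_iff_lt_or_eq.mp hr with h | h
    · exact h1 r h
    · rw [h]; exact h2

variable {E}

variable (hE : ∀ r (M : MeasurableSpace (Fin n → ℕ → Bool)),
    (∀ p j, MeasurableSet[M] {c | c p (Nat.pair r j) = true}) → MeasurableSet[M] (E r))

include hE

theorem meas_E (r : ℕ) : MeasurableSet (E r) := by
  apply hE r
  intro p j
  have h : Measurable (fun c : Fin n → ℕ → Bool => c p (Nat.pair r j)) :=
    (measurable_pi_apply (Nat.pair r j)).comp (measurable_pi_apply p)
  exact h (measurableSet_singleton true)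

theorem meas_Fail' (M : MeasurableSpace (Fin n → ℕ → Bool)) (m : ℕ)
    (hM : ∀ r < m, ∀ p j, MeasurableSet[M] {c | c p (Nat.pair r j) = true}) :
    MeasurableSet[M] (Fail E m) := by
  have : Fail E m = ⋂ r, ⋂ (_ : r < m), (E r)ᶜ := by
    ext c
    simp [Fail]
  rw [this]
  exact MeasurableSet.iInter fun r => MeasurableSet.iInter fun hr => (hE r M (hM r hr)).compl

theorem meas_Fail (m : ℕ) : MeasurableSet (Fail E m) := by
  apply meas_Fail' hE
  intro r _ p j
  have h : Measurable (fun c : Fin n → ℕ → Bool => c p (Nat.pair r j)) :=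
    (measurable_pi_apply (Nat.pair r j)).comp (measurable_pi_apply p)
  exact h (measurableSet_singleton true)

theorem coins_Fail_succ (m : ℕ) : Model.coins n (Fail E (m + 1)) =
    Model.coins n (Fail E m) * Model.coins n (E m)ᶜ := by
  have hi := (iIndep_coins (n := n)).iIndep
  have hle : ∀ i : Fin n × ℕ, (MeasurableSpace.comap (fun c : Fin n → ℕ → Bool => c i.1 i.2)
      inferInstance) ≤ (inferInstance : MeasurableSpace (Fin n → ℕ → Bool)) := by
    intro i
    apply Measurable.comap_le
    exact (measurable_pi_apply i.2).comp (measurable_pi_apply i.1)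
  have hdisj : Disjoint {i : Fin n × ℕ | (Nat.unpair i.2).1 < m}
      {i : Fin n × ℕ | (Nat.unpair i.2).1 = m} := by
    rw [Set.disjoint_left]
    intro i h1 h2
    change (Nat.unpair i.2).1 < m at h1
    change (Nat.unpair i.2).1 = m at h2
    omega
  have hind := indep_iSup_of_disjoint hle hi hdisj
  rw [Indep_iff] at hind
  rw [Fail_succ]
  apply hind
  · apply meas_Fail' hE
    intro r hr p j
    have h1 : MeasurableSet[MeasurableSpace.comap
        (fun c : Fin n → ℕ → Bool => c (p, Nat.pair r j).1 (p, Nat.pair r j).2) inferInstance]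
        {c : Fin n → ℕ → Bool | c p (Nat.pair r j) = true} :=
      ⟨{true}, measurableSet_singleton true, rfl⟩
    refine (le_iSup₂ (f := fun (i : Fin n × ℕ) (_ : i ∈ {i : Fin n × ℕ | (Nat.unpair i.2).1 < m}) =>
      MeasurableSpace.comap (fun c : Fin n → ℕ → Bool => c i.1 i.2) inferInstance)
      (p, Nat.pair r j) ?_) _ h1
    change (Nat.unpair (Nat.pair r j)).1 < m
    rw [Nat.unpair_pair]
    exact hr
  · refine MeasurableSet.compl (hE m _ ?_)
    intro p j
    have h1 : MeasurableSet[MeasurableSpace.comap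
        (fun c : Fin n → ℕ → Bool => c (p, Nat.pair m j).1 (p, Nat.pair m j).2) inferInstance]
        {c : Fin n → ℕ → Bool | c p (Nat.pair m j) = true} :=
      ⟨{true}, measurableSet_singleton true, rfl⟩
    refine (le_iSup₂ (f := fun (i : Fin n × ℕ) (_ : i ∈ {i : Fin n × ℕ | (Nat.unpair i.2).1 = m}) =>
      MeasurableSpace.comap (fun c : Fin n → ℕ → Bool => c i.1 i.2) inferInstance)
      (p, Nat.pair m j) ?_) _ h1
    change (Nat.unpair (Nat.pair m j)).1 = m
    rw [Nat.unpair_pair]

variable {δ : ℝ≥0∞} (hδ : ∀ r, δ ≤ Model.coins n (E r))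

include hδ

theorem coins_Fail (m : ℕ) : Model.coins n (Fail E m) ≤ (1 - δ) ^ m := by
  induction m with
  | zero => rw [pow_zero]; exact prob_le_one
  | succ m ih =>
    rw [coins_Fail_succ hE, pow_succ]
    apply mul_le_mul' ih
    rw [prob_compl_eq_one_sub (meas_E hE m)]
    exact tsub_le_tsub_left (hδ m) 1

theorem ae_exists (hpos : δ ≠ 0) : ∀ᵐ c ∂Model.coins n, ∃ r, c ∈ E r := by
  rw [ae_iff]
  have h1 : ∀ m, Model.coins n {c | ¬ ∃ r, c ∈ E r} ≤ (1 - δ) ^ m := by
    intro m
    refine le_trans (measure_mono ?_) (coins_Fail hE hδ m)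
    intro c hc r _ hr
    exact hc ⟨r, hr⟩
  have h2 : Filter.Tendsto (fun m => (1 - δ) ^ m) Filter.atTop (nhds 0) := by
    apply ENNReal.tendsto_pow_atTop_nhds_zero_of_lt_one
    exact ENNReal.sub_lt_self (by simp) (by simp) hpos
  exact le_antisymm (ge_of_tendsto' h2 h1) zero_le

theorem lintegral_bound {F : (Fin n → ℕ → Bool) → ℝ≥0∞} {K : ℝ≥0∞}
    (hK : K ≠ 0) (hF : ∀ c r, c ∈ E r → F c ≤ K * (r + 1)) :
    ∫⁻ c, F c ∂Model.coins n ≤ K * δ⁻¹ := by
  have h1 : ∀ c, F c ≤ K * ∑' m, (Fail E m).indicator (fun _ => (1 : ℝ≥0∞)) c := by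
    intro c
    by_cases h : ∃ r, c ∈ E r
    · have hfind := Nat.find_spec h
      refine (hF c _ hfind).trans ?_
      apply mul_le_mul_right
      calc ((Nat.find h : ℕ) : ℝ≥0∞) + 1 = ∑ _m ∈ range (Nat.find h + 1), (1 : ℝ≥0∞) := by simp
        _ = ∑ m ∈ range (Nat.find h + 1), (Fail E m).indicator (fun _ => (1 : ℝ≥0∞)) c := by
            apply sum_congr rfl
            intro m hm
            rw [mem_range] at hm
            rw [Set.indicator_of_mem]
            intro r hr
            exact Nat.find_min h (by omega)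
        _ ≤ _ := ENNReal.sum_le_tsum _
    · have : ∀ m, (Fail E m).indicator (fun _ => (1 : ℝ≥0∞)) c = 1 := by
        intro m
        rw [Set.indicator_of_mem]
        intro r _ hr
        exact h ⟨r, hr⟩
      simp only [this]
      rw [ENNReal.tsum_const_eq_top_of_ne_zero one_ne_zero, ENNReal.mul_top hK]
      exact le_top
  calc ∫⁻ c, F c ∂Model.coins n
      ≤ ∫⁻ c, K * ∑' m, (Fail E m).indicator (fun _ => (1 : ℝ≥0∞)) c ∂Model.coins n :=
        lintegral_mono h1
    _ = K * ∫⁻ c, ∑' m, (Fail E m).indicator (fun _ => (1 : ℝ≥0∞)) c ∂Model.coins n := by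
        apply lintegral_const_mul
        exact Measurable.tsum fun m => measurable_const.indicator (meas_Fail hE m)
    _ = K * ∑' m, ∫⁻ c, (Fail E m).indicator (fun _ => (1 : ℝ≥0∞)) c ∂Model.coins n := by
        rw [lintegral_tsum]
        intro m
        exact (measurable_const.indicator (meas_Fail hE m)).aemeasurable
    _ = K * ∑' m, Model.coins n (Fail E m) := by
        congr 2
        funext m
        rw [lintegral_indicator (meas_Fail hE m)]
        simp
    _ ≤ K * ∑' m, (1 - δ) ^ m := by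
        apply mul_le_mul_right
        exact ENNReal.tsum_le_tsum fun m => coins_Fail hE hδ m
    _ = K * δ⁻¹ := by
        rw [ENNReal.tsum_geometric]
        congr 2
        have hle : δ ≤ 1 := (hδ 0).trans prob_le_one
        exact ENNReal.sub_sub_cancel (by simp) hle

end indep

end Pool.Agent.MP217Upper
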