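import Pool.Agent.MP217Upper.Graph
import Pool.Agent.MP217Upper.Layers

set_option autoImplicit false

/-!
# The protocol: definition and basic invariants
-/

namespace Pool.Agent.MP217Upper

open Finset

open scoped Classical in
attribute [local instance] Classical.propDecidable

/-- Pieces of information: `done a o i T` says that processor `a` finished pass `i` of object `o`,
in which it communicated with the processors in `T`; `lab a o i d` says that processor `a` started
this pass with data `d`. -/
inductive Fact (n : ℕ) (D : Type) : Type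
  | done (a : Fin n) (o i : ℕ) (T : Finset (Fin n))
  | lab (a : Fin n) (o i : ℕ) (d : D)

/-- Static parameters. -/
structure Geo (n : ℕ) where
  L : ℕ
  R : ℕ
  Q : ℕ
  nest : Nest n L Q
  cap : ℕ → ℕ

/-- The rules for the data. -/
structure Dat (n : ℕ) (D : Type) where
  d0 : Fin n → D
  nxt : Fin n → ℕ → ℕ → Bool → Finset (Fact n D) → D → D

/-- Local state of a processor. -/
structure LSt (n : ℕ) (D : Type) where
  o : ℕ
  i : ℕ
  d : D
  K : Finset (Fact n D)
  T : List (Fin n)
  pos : ℕ
  acc : Finset (Fact n D)

/-- Global state. -/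
structure Cfg (n : ℕ) (D : Type) where
  st : Fin n → LSt n D
  mem : Fin n → Fin n → ℕ → Finset (Fact n D)

variable {n : ℕ} {D : Type}

section defs

variable (G : Geo n)

/-- The level of pass `i`. -/
def Geo.lvl (i : ℕ) : ℕ := G.L - i / G.R

/-- The vertices that are not yet covered along edges of the `ν`-th graph. -/
noncomputable def Geo.unc (ν o : ℕ) (K : Finset (Fact n D)) : Finset (Fin n) :=
  univ.filter fun x => ¬ ∃ a i T, Fact.done a o i T ∈ K ∧ x ∈ T ∧ x ∈ G.nest.N ν a

/-- The processors known to have finished a pass at level `l`. -/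
noncomputable def Geo.team (l o : ℕ) (K : Finset (Fact n D)) : Finset (Fin n) :=
  univ.filter fun a => ∃ i T, Fact.done a o i T ∈ K ∧ G.lvl i = l

/-- A certificate at level `l`. -/
def Geo.cert (o l : ℕ) (K : Finset (Fact n D)) : Prop :=
  2 ^ l ≤ (G.team l o K).card ∧ ∀ ν, ν ≤ l → (G.unc ν o K).card < 2 ^ ν

/-- The targets of a pass. -/
noncomputable def Geo.targets (p : Fin n) (o l : ℕ) (K : Finset (Fact n D)) : Finset (Fin n) :=
  G.nest.N l p ∪ (range l).biUnion fun ν =>
    if (G.nest.N ν p ∩ G.unc (ν + 1) o K).card ≤ G.cap l then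
      G.nest.N ν p ∩ G.unc (ν + 1) o K else ∅

/-- The state at the beginning of a pass. -/
noncomputable def Geo.beg (p : Fin n) (o i : ℕ) (d : D) (K : Finset (Fact n D)) : LSt n D where
  o := o
  i := i
  d := d
  K := insert (Fact.lab p o i d) K
  T := (G.targets p o (G.lvl i) K).toList
  pos := 0
  acc := ∅

variable (Δ : Dat n D)

/-- The knowledge at the end of a pass, when the last message read is `m`. -/
noncomputable def outK (p : Fin n) (s : LSt n D) (m : Finset (Fact n D)) : Finset (Fact n D) :=
  insert (Fact.done p s.o s.i s.T.toFinset) (s.K ∪ (s.acc ∪ m))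

/-- The state after the end of a pass, the knowledge being `X`. -/
noncomputable def Geo.fin (p : Fin n) (s : LSt n D) (X : Finset (Fact n D)) : LSt n D :=
  if G.cert s.o (G.lvl s.i) X then G.beg p (s.o + 1) 0 (Δ.nxt p s.o s.i true X s.d) X
  else G.beg p s.o (s.i + 1) (Δ.nxt p s.o s.i false X s.d) X

/-- The state after a write step. -/
def wr (s : LSt n D) : LSt n D := { s with pos := s.pos + 1 }

/-- The state after a read step with message `m`. -/
noncomputable def Geo.rd (p : Fin n) (s : LSt n D) (m : Finset (Fact n D)) : LSt n D :=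
  if s.pos + 1 < 2 * s.T.length then { s with pos := s.pos + 1, acc := s.acc ∪ m }
  else G.fin Δ p s (outK p s m)

/-- The partner of the current step. -/
def partner (p : Fin n) (s : LSt n D) : Fin n :=
  if s.pos < s.T.length then s.T.getD s.pos p else s.T.getD (s.pos - s.T.length) p

/-- One step of processor `p`. -/
noncomputable def Geo.step (p : Fin n) (C : Cfg n D) : Cfg n D :=
  if (C.st p).pos < (C.st p).T.length then
    ⟨Function.update C.st p (wr (C.st p)),
      Function.update C.mem p (Function.update (C.mem p) (partner p (C.st p))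
        (Function.update (C.mem p (partner p (C.st p))) (C.st p).o (C.st p).K))⟩
  else ⟨Function.update C.st p (G.rd Δ p (C.st p) (C.mem (partner p (C.st p)) p (C.st p).o)), C.mem⟩

/-- The initial configuration. -/
noncomputable def Geo.init : Cfg n D :=
  ⟨fun p => G.beg p 0 0 (Δ.d0 p) ∅, fun _ _ _ => ∅⟩

/-- The run under the schedule `σ`. -/
noncomputable def Geo.run (σ : ℕ → Option (Fin n)) : ℕ → Cfg n D
  | 0 => G.init Δ
  | t + 1 => match σ t with
    | none => Geo.run σ t
    | some p => G.step Δ p (Geo.run σ t)

end defs

variable (G : Geo n) (Δ : Dat n D)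

/-! ### One step -/

theorem unc_insert_lab (ν o : ℕ) (K : Finset (Fact n D)) (p : Fin n) (o' i' : ℕ) (d : D) :
    G.unc ν o (insert (Fact.lab p o' i' d) K) = G.unc ν o K := by
  unfold Geo.unc
  apply filter_congr
  intro x _
  simp

theorem unc_anti {ν o : ℕ} {K K' : Finset (Fact n D)} (h : K ⊆ K') :
    G.unc ν o K' ⊆ G.unc ν o K := by
  intro x hx
  simp only [Geo.unc, mem_filter, mem_univ, true_and] at hx ⊢
  rintro ⟨a, i, T, h1, h2⟩
  exact hx ⟨a, i, T, h h1, h2⟩

theorem team_mono {l o : ℕ} {K K' : Finset (Fact n D)} (h : K ⊆ K') :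
    G.team l o K ⊆ G.team l o K' := by
  intro x hx
  simp only [Geo.team, mem_filter, mem_univ, true_and] at hx ⊢
  obtain ⟨i, T, h1, h2⟩ := hx
  exact ⟨i, T, h h1, h2⟩

theorem cert_mono {l o : ℕ} {K K' : Finset (Fact n D)} (h : K ⊆ K') (hc : G.cert o l K) :
    G.cert o l K' :=
  ⟨hc.1.trans (card_le_card (team_mono G h)), fun ν hν =>
    lt_of_le_of_lt (card_le_card (unc_anti G h)) (hc.2 ν hν)⟩

theorem targets_insert_lab (p : Fin n) (o l : ℕ) (K : Finset (Fact n D)) (q : Fin n)
    (o' i' : ℕ) (d : D) :
    G.targets p o l (insert (Fact.lab q o' i' d) K) = G.targets p o l K := by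
  unfold Geo.targets
  simp only [unc_insert_lab]

theorem self_mem_targets (p : Fin n) (o l : ℕ) (K : Finset (Fact n D)) :
    p ∈ G.targets p o l K := by
  unfold Geo.targets
  exact mem_union_left _ (G.nest.self l p)

theorem N_sub_targets (p : Fin n) (o l : ℕ) (K : Finset (Fact n D)) :
    G.nest.N l p ⊆ G.targets p o l K := subset_union_left

section onestep

variable (p : Fin n) (C : Cfg n D)

theorem step_st_ne {q : Fin n} (h : q ≠ p) : (G.step Δ p C).st q = C.st q := by
  unfold Geo.step
  split_ifs <;> simp [Function.update_of_ne h]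

theorem step_mem_ne {q : Fin n} (h : q ≠ p) : (G.step Δ p C).mem q = C.mem q := by
  unfold Geo.step
  split_ifs <;> simp [Function.update_of_ne h]

theorem step_st_write (h : (C.st p).pos < (C.st p).T.length) :
    (G.step Δ p C).st p = wr (C.st p) := by
  unfold Geo.step
  rw [if_pos h]
  simp

theorem step_st_read (h : ¬ (C.st p).pos < (C.st p).T.length) :
    (G.step Δ p C).st p = G.rd Δ p (C.st p) (C.mem (partner p (C.st p)) p (C.st p).o) := by
  unfold Geo.step
  rw [if_neg h]
  simp

theorem step_mem_read (h : ¬ (C.st p).pos < (C.st p).T.length) :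
    (G.step Δ p C).mem = C.mem := by
  unfold Geo.step
  rw [if_neg h]

theorem step_mem_write (h : (C.st p).pos < (C.st p).T.length) (x : Fin n) (o : ℕ) :
    (G.step Δ p C).mem p x o =
      if x = partner p (C.st p) ∧ o = (C.st p).o then (C.st p).K else C.mem p x o := by
  unfold Geo.step
  rw [if_pos h]
  simp only [Function.update_self]
  by_cases hx : x = partner p (C.st p)
  · subst hx
    simp only [Function.update_self, true_and]
    by_cases ho : o = (C.st p).o
    · subst ho
      simp
    · rw [Function.update_of_ne ho, if_neg ho]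
  · rw [Function.update_of_ne hx, if_neg (fun h => hx h.1)]

end onestep

theorem fin_K (p : Fin n) (s : LSt n D) (X : Finset (Fact n D)) : X ⊆ (G.fin Δ p s X).K := by
  unfold Geo.fin
  split_ifs <;> exact subset_insert _ _

theorem fin_pos (p : Fin n) (s : LSt n D) (X : Finset (Fact n D)) : (G.fin Δ p s X).pos = 0 := by
  unfold Geo.fin
  split_ifs <;> rfl

theorem fin_acc (p : Fin n) (s : LSt n D) (X : Finset (Fact n D)) : (G.fin Δ p s X).acc = ∅ := by
  unfold Geo.fin
  split_ifs <;> rfl

/-! ### Invariants -/

/-- The basic invariants of a configuration. -/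
structure Inv (C : Cfg n D) : Prop where
  tgt : ∀ p, (C.st p).T = (G.targets p (C.st p).o (G.lvl (C.st p).i) (C.st p).K).toList
  pos : ∀ p, (C.st p).pos < 2 * (C.st p).T.length
  mem_le : ∀ w x o, C.mem w x o ⊆ (C.st w).K
  written : ∀ p, ∀ idx, idx < (C.st p).pos → idx < (C.st p).T.length →
    (C.st p).K ⊆ C.mem p ((C.st p).T.getD idx p) (C.st p).o
  lab : ∀ p, Fact.lab p (C.st p).o (C.st p).i (C.st p).d ∈ (C.st p).K

theorem beg_tgt (p : Fin n) (o i : ℕ) (d : D) (K : Finset (Fact n D)) :
    (G.beg p o i d K).T =
      (G.targets p (G.beg p o i d K).o (G.lvl (G.beg p o i d K).i) (G.beg p o i d K).K).toList := by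
  simp only [Geo.beg, targets_insert_lab]

theorem beg_len_pos (p : Fin n) (o i : ℕ) (d : D) (K : Finset (Fact n D)) :
    0 < (G.beg p o i d K).T.length := by
  simp only [Geo.beg, length_toList]
  exact card_pos.mpr ⟨p, self_mem_targets G p o _ K⟩

theorem K_sub_step {C : Cfg n D} (p q : Fin n) : (C.st q).K ⊆ ((G.step Δ p C).st q).K := by
  by_cases h : q = p
  · subst h
    by_cases hw : (C.st q).pos < (C.st q).T.length
    · rw [step_st_write G Δ q C hw]
      exact Subset.rfl
    · rw [step_st_read G Δ q C hw]
      unfold Geo.rd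
      split_ifs
      · exact Subset.rfl
      · refine Subset.trans ?_ (fin_K G Δ _ _ _)
        unfold outK
        exact subset_union_left.trans (subset_insert _ _)
  · rw [step_st_ne G Δ p C h]

theorem inv_init : Inv G (G.init Δ) where
  tgt p := beg_tgt G p 0 0 _ _
  pos p := by
    have := beg_len_pos G p 0 0 (Δ.d0 p) ∅
    change 0 < 2 * (G.beg p 0 0 (Δ.d0 p) ∅).T.length
    omega
  mem_le w x o := empty_subset _
  written p idx h := absurd h (Nat.not_lt_zero _)
  lab p := mem_insert_self _ _

theorem inv_step {C : Cfg n D} (hC : Inv G C) (p : Fin n) : Inv G (G.step Δ p C) := by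
  have hst : ∀ q, q ≠ p → (G.step Δ p C).st q = C.st q := fun q h => step_st_ne G Δ p C h
  have hmem : ∀ q, q ≠ p → (G.step Δ p C).mem q = C.mem q := fun q h => step_mem_ne G Δ p C h
  by_cases hw : (C.st p).pos < (C.st p).T.length
  · have hp := step_st_write G Δ p C hw
    have hmp := step_mem_write G Δ p C hw
    constructor
    · intro q
      by_cases h : q = p
      · subst h; rw [hp]; exact hC.tgt q
      · rw [hst q h]; exact hC.tgt q
    · intro q
      by_cases h : q = p
      · subst h; rw [hp]; simp only [wr]; omega
      · rw [hst q h]; exact hC.pos q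
    · intro w x o
      by_cases h : w = p
      · subst h
        rw [hp, hmp]
        split_ifs
        · exact Subset.rfl
        · exact hC.mem_le w x o
      · rw [hst w h, hmem w h]; exact hC.mem_le w x o
    · intro q idx h1 h2
      by_cases h : q = p
      · subst h
        rw [hp] at h1 h2 ⊢
        simp only [wr] at h1 h2 ⊢
        rw [hmp]
        split_ifs with hx
        · exact Subset.rfl
        · apply hC.written q idx _ h2
          by_contra hcon
          have hidx : idx = (C.st q).pos := by omega
          subst hidx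
          apply hx
          refine ⟨?_, rfl⟩
          unfold partner
          rw [if_pos hw]
      · rw [hst q h] at h1 h2 ⊢
        rw [hmem q h]; exact hC.written q idx h1 h2
    · intro q
      by_cases h : q = p
      · subst h; rw [hp]; exact hC.lab q
      · rw [hst q h]; exact hC.lab q
  · have hp := step_st_read G Δ p C hw
    have hmp := step_mem_read G Δ p C hw
    have hmon := fun q => K_sub_step G Δ (C := C) p q
    by_cases hlast : (C.st p).pos + 1 < 2 * (C.st p).T.length
    · have hp' : (G.step Δ p C).st p = { C.st p with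
          pos := (C.st p).pos + 1
          acc := (C.st p).acc ∪ C.mem (partner p (C.st p)) p (C.st p).o } := by
        rw [hp]; unfold Geo.rd; rw [if_pos hlast]
      constructor
      · intro q
        by_cases h : q = p
        · subst h; rw [hp']; exact hC.tgt q
        · rw [hst q h]; exact hC.tgt q
      · intro q
        by_cases h : q = p
        · subst h; rw [hp']; exact hlast
        · rw [hst q h]; exact hC.pos q
      · intro w x o
        rw [hmp]
        exact (hC.mem_le w x o).trans (hmon w)
      · intro q idx h1 h2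
        rw [hmp]
        by_cases h : q = p
        · subst h
          rw [hp'] at h1 h2 ⊢
          simp only at h1 h2 ⊢
          exact hC.written q idx (by omega) h2
        · rw [hst q h] at h1 h2 ⊢
          exact hC.written q idx h1 h2
      · intro q
        by_cases h : q = p
        · subst h; rw [hp']; exact hC.lab q
        · rw [hst q h]; exact hC.lab q
    · have hp' : (G.step Δ p C).st p =
          G.fin Δ p (C.st p) (outK p (C.st p) (C.mem (partner p (C.st p)) p (C.st p).o)) := by
        rw [hp]; unfold Geo.rd; rw [if_neg hlast]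
      constructor
      · intro q
        by_cases h : q = p
        · subst h; rw [hp']; unfold Geo.fin; split_ifs <;> exact beg_tgt G _ _ _ _ _
        · rw [hst q h]; exact hC.tgt q
      · intro q
        by_cases h : q = p
        · subst h
          rw [hp', fin_pos]
          have : 0 < (G.fin Δ q (C.st q) (outK q (C.st q)
              (C.mem (partner q (C.st q)) q (C.st q).o))).T.length := by
            unfold Geo.fin; split_ifs <;> exact beg_len_pos G _ _ _ _ _
          omega
        · rw [hst q h]; exact hC.pos q
      · intro w x o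
        rw [hmp]
        exact (hC.mem_le w x o).trans (hmon w)
      · intro q idx h1 h2
        rw [hmp]
        by_cases h : q = p
        · subst h
          rw [hp', fin_pos] at h1
          exact absurd h1 (Nat.not_lt_zero _)
        · rw [hst q h] at h1 h2 ⊢
          exact hC.written q idx h1 h2
      · intro q
        by_cases h : q = p
        · subst h; rw [hp']; unfold Geo.fin; split_ifs <;> exact mem_insert_self _ _
        · rw [hst q h]; exact hC.lab q

variable (σ : ℕ → Option (Fin n))

theorem run_succ_none {t : ℕ} (h : σ t = none) : G.run Δ σ (t + 1) = G.run Δ σ t := by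
  rw [Geo.run, h]

theorem run_succ_some {t : ℕ} {p : Fin n} (h : σ t = some p) :
    G.run Δ σ (t + 1) = G.step Δ p (G.run Δ σ t) := by
  rw [Geo.run, h]

theorem inv_run (t : ℕ) : Inv G (G.run Δ σ t) := by
  induction t with
  | zero => exact inv_init G Δ
  | succ t ih =>
    cases h : σ t with
    | none => rw [run_succ_none G Δ σ h]; exact ih
    | some p => rw [run_succ_some G Δ σ h]; exact inv_step G Δ ih p

theorem run_K_mono_succ (t : ℕ) (q : Fin n) :
    ((G.run Δ σ t).st q).K ⊆ ((G.run Δ σ (t + 1)).st q).K := by
  cases h : σ t with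
  | none => rw [run_succ_none G Δ σ h]
  | some p => rw [run_succ_some G Δ σ h]; exact K_sub_step G Δ p q

theorem run_K_mono {t t' : ℕ} (htt : t ≤ t') (q : Fin n) :
    ((G.run Δ σ t).st q).K ⊆ ((G.run Δ σ t').st q).K := by
  induction htt with
  | refl => exact Subset.rfl
  | step _ ih => exact ih.trans (run_K_mono_succ G Δ σ _ q)

theorem run_mem_mono_succ (t : ℕ) (w x : Fin n) (o : ℕ) :
    (G.run Δ σ t).mem w x o ⊆ (G.run Δ σ (t + 1)).mem w x o := by
  cases h : σ t with
  | none => rw [run_succ_none G Δ σ h]
  | some p =>
    rw [run_succ_some G Δ σ h]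
    by_cases hw : w = p
    · subst hw
      by_cases hpos : ((G.run Δ σ t).st w).pos < ((G.run Δ σ t).st w).T.length
      · rw [step_mem_write G Δ w _ hpos]
        split_ifs
        · exact (inv_run G Δ σ t).mem_le w x o
        · exact Subset.rfl
      · rw [step_mem_read G Δ w _ hpos]
    · rw [step_mem_ne G Δ p _ hw]

theorem run_mem_mono {t t' : ℕ} (htt : t ≤ t') (w x : Fin n) (o : ℕ) :
    (G.run Δ σ t).mem w x o ⊆ (G.run Δ σ t').mem w x o := by
  induction htt with
  | refl => exact Subset.rfl
  | step _ ih => exact ih.trans (run_mem_mono_succ G Δ σ _ w x o)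

end Pool.Agent.MP217Upper
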