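import Pool.Agent.MP217Upper.Object

set_option autoImplicit false

/-!
# Counting steps
-/

namespace Pool.Agent.MP217Upper

open Finset

attribute [local instance] Classical.propDecidable

variable {n : ℕ} {D : Type} (G : Geo n) (Δ : Dat n D) (σ : ℕ → Option (Fin n))

/-- The number of steps of `p` before time `t` in a given pass. -/
noncomputable def cnt (t : ℕ) (p : Fin n) (o i : ℕ) : ℕ :=
  ((range t).filter fun t' => σ t' = some p ∧ At G Δ σ t' p o i).card

/-- The number of steps of `p` before time `t`. -/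
noncomputable def steps (t : ℕ) (p : Fin n) : ℕ :=
  ((range t).filter fun t' => σ t' = some p).card

variable {G Δ σ}

theorem cnt_aux (t : ℕ) (p : Fin n) (o i : ℕ) :
    (At G Δ σ t p o i → cnt G Δ σ t p o i = ((G.run Δ σ t).st p).pos) ∧
    (∀ t0, At G Δ σ t0 p o i → cnt G Δ σ t p o i ≤ 2 * ((G.run Δ σ t0).st p).T.length) := by
  induction t with
  | zero =>
    constructor
    · intro _; rfl
    · intro t0 _; simp [cnt]
  | succ t ih =>
    obtain ⟨ih1, ih2⟩ := ih
    by_cases hB : σ t = some p ∧ At G Δ σ t p o i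
    · have hc : cnt G Δ σ (t + 1) p o i = cnt G Δ σ t p o i + 1 := by
        unfold cnt
        rw [range_add_one, filter_insert, if_pos hB, card_insert_of_notMem (by simp)]
      have h1 := ih1 hB.2
      have hpos := (inv_run G Δ σ t).pos p
      constructor
      · intro hA
        rcases step_cases (G := G) (Δ := Δ) (σ := σ) t p with h | h | h | ⟨T, X, h⟩
        · exact absurd hB.1 h.2
        · rw [hc, h1, h.2.2]; rfl
        · rw [hc, h1, h.2.2.2]
        · have := h.lex (Nat.lt_succ_self t)
          simp only [Nat.succ_eq_add_one] at this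
          rw [hA.1, hA.2, hB.2.1, hB.2.2] at this
          unfold LexLe at this
          omega
      · intro t0 h0
        rw [(at_unique hB.2 h0).2.2, hc]
        omega
    · have hc : cnt G Δ σ (t + 1) p o i = cnt G Δ σ t p o i := by
        unfold cnt
        rw [range_add_one, filter_insert, if_neg hB]
      rw [hc]
      refine ⟨?_, ih2⟩
      intro hA
      rcases step_cases (G := G) (Δ := Δ) (σ := σ) t p with h | h | h | ⟨T, X, h⟩
      · have : At G Δ σ t p o i := by
          unfold At at hA ⊢
          rw [h.1] at hA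
          exact hA
        rw [ih1 this, h.1]
      · exfalso
        apply hB
        refine ⟨h.1, ?_⟩
        unfold At at hA ⊢
        rw [h.2.2] at hA
        exact hA
      · exfalso
        apply hB
        refine ⟨h.1, ?_⟩
        unfold At at hA ⊢
        rw [h.2.2.2] at hA
        exact hA
      · have hnot : ¬ At G Δ σ t p o i := fun h' => hB ⟨h.sched, h'⟩
        rw [h.next, fin_pos]
        unfold cnt
        rw [card_eq_zero, filter_eq_empty_iff]
        intro t' ht' h'
        rw [mem_range] at ht'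
        have h1 := lex_mono (G := G) (Δ := Δ) (σ := σ) ht'.le p
        have h2 := lex_succ (G := G) (Δ := Δ) (σ := σ) t p
        rw [h'.2.1, h'.2.2] at h1
        rw [hA.1, hA.2] at h2
        apply hnot
        unfold LexLe at h1 h2
        unfold At
        omega

theorem cnt_le {t0 : ℕ} (t : ℕ) {p : Fin n} {o i : ℕ} (h : At G Δ σ t0 p o i) :
    cnt G Δ σ t p o i ≤ 2 * ((G.run Δ σ t0).st p).T.length := (cnt_aux t p o i).2 t0 h

theorem cnt_eq_zero (t : ℕ) {p : Fin n} {o i : ℕ} (h : ¬ Reach G Δ σ p o i) :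
    cnt G Δ σ t p o i = 0 := by
  unfold cnt
  rw [card_eq_zero, filter_eq_empty_iff]
  intro t' _ h'
  exact h ⟨t', h'.2⟩

theorem card_targets {J : ℕ} (hG : G.Good J) (p : Fin n) (o : ℕ) {l : ℕ} (hl : l ≤ G.L)
    (K : Finset (Fact n D)) :
    2 ^ l * (G.targets p o l K).card ≤ (3 * G.L + 1) * G.Q := by
  have h1 : (G.targets p o l K).card ≤ (G.nest.N l p).card + l * G.cap l := by
    unfold Geo.targets
    refine (card_union_le _ _).trans ?_
    apply Nat.add_le_add_left
    calc _ ≤ ∑ ν ∈ range l, (if (G.nest.N ν p ∩ G.unc (ν + 1) o K).card ≤ G.cap l then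
          G.nest.N ν p ∩ G.unc (ν + 1) o K else ∅).card := card_biUnion_le
      _ ≤ ∑ _ν ∈ range l, G.cap l := by
          apply sum_le_sum
          intro ν _
          split_ifs with h
          · exact h
          · simp
      _ = l * G.cap l := by simp
  calc 2 ^ l * (G.targets p o l K).card ≤ 2 ^ l * ((G.nest.N l p).card + l * G.cap l) :=
        Nat.mul_le_mul_left _ h1
    _ = 2 ^ l * (G.nest.N l p).card + l * (2 ^ l * G.cap l) := by ring
    _ ≤ G.Q + G.L * (3 * G.Q) := by
        apply Nat.add_le_add (G.nest.deg l p hl)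
        exact Nat.mul_le_mul hl (hG.hcap' l hl)
    _ = (3 * G.L + 1) * G.Q := by ring

theorem len_targets (t : ℕ) (p : Fin n) :
    ((G.run Δ σ t).st p).T.length = (G.targets p ((G.run Δ σ t).st p).o
      (G.lvl ((G.run Δ σ t).st p).i) ((G.run Δ σ t).st p).K).card := by
  rw [(inv_run G Δ σ t).tgt p, length_toList]

theorem lvl_le (i : ℕ) : G.lvl i ≤ G.L := Nat.sub_le _ _

theorem sum_cnt {J : ℕ} (hG : G.Good J) (t o i : ℕ) :
    ∑ p, cnt G Δ σ t p o i ≤ 24 * J * (3 * G.L + 1) * G.Q := by
  have h1 : ∀ p, 2 ^ G.lvl i * cnt G Δ σ t p o i ≤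
      if Reach G Δ σ p o i then 2 * ((3 * G.L + 1) * G.Q) else 0 := by
    intro p
    split_ifs with h
    · obtain ⟨t0, h0⟩ := h
      have h2 := cnt_le t h0
      rw [len_targets] at h2
      have h3 := card_targets hG p ((G.run Δ σ t0).st p).o (lvl_le (G := G)
        ((G.run Δ σ t0).st p).i) ((G.run Δ σ t0).st p).K
      rw [h0.2] at h2 h3
      calc 2 ^ G.lvl i * cnt G Δ σ t p o i ≤ 2 ^ G.lvl i * (2 * (G.targets p
            ((G.run Δ σ t0).st p).o (G.lvl i) ((G.run Δ σ t0).st p).K).card) :=
            Nat.mul_le_mul_left _ h2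
        _ = 2 * (2 ^ G.lvl i * (G.targets p
            ((G.run Δ σ t0).st p).o (G.lvl i) ((G.run Δ σ t0).st p).K).card) := by ring
        _ ≤ _ := Nat.mul_le_mul_left _ h3
    · rw [cnt_eq_zero t h]
      simp
  have h2 : 2 ^ G.lvl i * ∑ p, cnt G Δ σ t p o i ≤
      (J * (6 * 2 ^ (G.lvl i + 1))) * (2 * ((3 * G.L + 1) * G.Q)) := by
    rw [mul_sum]
    calc ∑ p, 2 ^ G.lvl i * cnt G Δ σ t p o i
        ≤ ∑ p, if Reach G Δ σ p o i then 2 * ((3 * G.L + 1) * G.Q) else 0 :=
          sum_le_sum fun p _ => h1 p
      _ = (univ.filter fun p => Reach G Δ σ p o i).card * (2 * ((3 * G.L + 1) * G.Q)) := by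
          rw [← sum_filter, sum_const, smul_eq_mul]
      _ ≤ _ := Nat.mul_le_mul_right _ (card_reach hG o i)
  have h3 : (J * (6 * 2 ^ (G.lvl i + 1))) * (2 * ((3 * G.L + 1) * G.Q)) =
      2 ^ G.lvl i * (24 * J * (3 * G.L + 1) * G.Q) := by
    rw [pow_succ]; ring
  rw [h3] at h2
  exact Nat.le_of_mul_le_mul_left h2 (by positivity)

theorem steps_eq {J : ℕ} (hG : G.Good J) (t O : ℕ) (p : Fin n)
    (h : ∀ t' < t, σ t' = some p → ((G.run Δ σ t').st p).o < O) :
    steps σ t p = ∑ q ∈ range O ×ˢ range (G.L * G.R + 1), cnt G Δ σ t p q.1 q.2 := by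
  unfold steps
  rw [card_eq_sum_card_fiberwise (f := fun t' => (((G.run Δ σ t').st p).o,
    ((G.run Δ σ t').st p).i)) (t := range O ×ˢ range (G.L * G.R + 1))]
  · apply sum_congr rfl
    intro q _
    unfold cnt
    congr 1
    rw [filter_filter]
    apply filter_congr
    intro t' _
    unfold At
    rw [Prod.ext_iff]
  · intro t' ht'
    simp only [coe_filter, mem_range, Set.mem_setOf_eq] at ht'
    simp only [coe_product, coe_range, Set.mem_prod, Set.mem_Iio]
    refine ⟨h t' ht'.1 ht'.2, ?_⟩
    have := reach_le hG.R_pos (G := G) (Δ := Δ) (σ := σ) (p := p) (o := ((G.run Δ σ t').st p).o)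
      (i := ((G.run Δ σ t').st p).i) ⟨t', rfl, rfl⟩
    omega

/-- The total work in a run that stays in the objects `< O`. -/
theorem total_steps {J : ℕ} (hG : G.Good J) (t O : ℕ)
    (h : ∀ t' < t, ∀ p, σ t' = some p → ((G.run Δ σ t').st p).o < O) :
    ∑ p, steps σ t p ≤ O * ((G.L * G.R + 1) * (24 * J * (3 * G.L + 1) * G.Q)) := by
  calc ∑ p, steps σ t p
      = ∑ p, ∑ q ∈ range O ×ˢ range (G.L * G.R + 1), cnt G Δ σ t p q.1 q.2 := by
        apply sum_congr rfl
        intro p _
        exact steps_eq hG t O p fun t' ht' => h t' ht' p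
    _ = ∑ q ∈ range O ×ˢ range (G.L * G.R + 1), ∑ p, cnt G Δ σ t p q.1 q.2 := sum_comm
    _ ≤ ∑ _q ∈ range O ×ˢ range (G.L * G.R + 1), 24 * J * (3 * G.L + 1) * G.Q := by
        apply sum_le_sum
        intro q _
        exact sum_cnt hG t q.1 q.2
    _ = _ := by
        rw [sum_const, card_product, card_range, card_range, smul_eq_mul]
        ring

/-- A processor that is scheduled infinitely often passes through all objects. -/
theorem progress {J : ℕ} (hG : G.Good J) (p : Fin n) (hinf : ∀ t, ∃ t' ≥ t, σ t' = some p)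
    (O : ℕ) : ∃ t, O ≤ ((G.run Δ σ t).st p).o := by
  by_contra hcon
  push Not at hcon
  have hb : ∀ t, steps σ t p ≤ O * (G.L * G.R + 1) * (2 * n) := by
    intro t
    rw [steps_eq (Δ := Δ) hG t O p fun t' _ _ => hcon t']
    calc _ ≤ ∑ _q ∈ range O ×ˢ range (G.L * G.R + 1), 2 * n := by
          apply sum_le_sum
          intro q _
          by_cases hr : Reach G Δ σ p q.1 q.2
          · obtain ⟨t0, h0⟩ := hr
            refine (cnt_le t h0).trans ?_
            rw [len_targets]
            apply Nat.mul_le_mul_left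
            exact (card_le_univ _).trans (by simp)
          · rw [cnt_eq_zero t hr]
            exact Nat.zero_le _
      _ = _ := by
          rw [sum_const, card_product, card_range, card_range, smul_eq_mul]
  have hgrow : ∀ m, ∃ t, m ≤ steps σ t p := by
    intro m
    induction m with
    | zero => exact ⟨0, Nat.zero_le _⟩
    | succ m ih =>
      obtain ⟨t, ht⟩ := ih
      obtain ⟨t', ht', hs⟩ := hinf t
      refine ⟨t' + 1, ?_⟩
      have h1 : steps σ (t' + 1) p = steps σ t' p + 1 := by
        unfold steps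
        rw [range_add_one, filter_insert, if_pos hs, card_insert_of_notMem (by simp)]
      have h2 : steps σ t p ≤ steps σ t' p := by
        unfold steps
        apply card_le_card
        apply filter_subset_filter
        exact range_subset_range.mpr ht'
      omega
  obtain ⟨t, ht⟩ := hgrow (O * (G.L * G.R + 1) * (2 * n) + 1)
  have := hb t
  omega

end Pool.Agent.MP217Upper
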